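import Pool.Agent.U874.RG.Tilt

/-!
# Strong log-convexity of the moments: derivative in the tilt and conclusion
-/

set_option autoImplicit false
set_option linter.unusedSectionVars false

open MeasureTheory ProbabilityTheory

namespace U874.RG

open TH967.DP (score measurable_score integrable_bdd abs_score_le integral_score
  integral_score_sq mp_update log_inc_down integral_ind integrable_ind)
open Pool.Agent.N692.SD.AC (ZZ occ partA partB ZZ_pos measurable_ZZ measurable_occ occ_nonneg
  occ_le_one sum_occ partA_nonneg partB_nonneg ZZ_update occ_update)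

variable {ι W : Type} [Fintype ι] [DecidableEq ι] [Fintype W]

/-- the derivative in the tilt -/
lemma hasDerivAt_tilt (μ : Measure ℝ) [IsProbabilityMeasure μ] (a b : ℝ) (T : Finset ι)
    {F : (ι → ℝ) → ℝ} (hF : Integrable F (Measure.pi fun _ : ι => μ)) (l : ℝ) :
    HasDerivAt (fun l => ∫ η, dens μ a b l T η * F η ∂(Measure.pi fun _ : ι => μ))
      (∑ s ∈ T, ∫ η, (score μ a b (η s) * dens μ a b l (T.erase s) η) * F η
        ∂(Measure.pi fun _ : ι => μ)) l := by
  set K := 1 / μ.real (Set.Ici b) + 1 / μ.real (Set.Iic a) with hK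
  have hK0 : 0 ≤ K := by positivity
  have hms : ∀ s, Measurable (fun η : ι → ℝ => score μ a b (η s)) := fun s =>
    (measurable_score μ a b).comp (measurable_pi_apply s)
  have hi : ∀ s ∈ T, Integrable (fun η : ι → ℝ =>
      (score μ a b (η s) * dens μ a b l (T.erase s) η) * F η) (Measure.pi fun _ : ι => μ) := by
    intro s _
    refine hF.bdd_mul (c := K * (1 + |l| * K) ^ (T.erase s).card)
      ((hms s).mul (measurable_dens μ a b l _)).aestronglyMeasurable ?_
    refine Filter.Eventually.of_forall fun η => ?_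
    rw [norm_mul]
    exact mul_le_mul (abs_score_le μ a b _) (abs_dens_le μ a b l _ η le_rfl) (abs_nonneg _)
      (by positivity)
  rw [← integral_finsetSum _ hi]
  set M := |l| + 1 with hM
  have hM0 : 0 ≤ M := by positivity
  refine (hasDerivAt_integral_of_dominated_loc_of_deriv_le (F := fun l η => dens μ a b l T η * F η)
    (F' := fun l η => ∑ s ∈ T, (score μ a b (η s) * dens μ a b l (T.erase s) η) * F η)
    (bound := fun η => (∑ s ∈ T, K * (1 + M * K) ^ (T.erase s).card) * |F η|)
    (s := Metric.ball l 1) (Metric.ball_mem_nhds l one_pos) ?_ ?_ ?_ ?_ ?_ ?_).2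
  · refine Filter.Eventually.of_forall fun x => ?_
    exact (measurable_dens μ a b x T).aestronglyMeasurable.mul hF.aestronglyMeasurable
  · refine hF.bdd_mul (c := (1 + |l| * K) ^ T.card)
      (measurable_dens μ a b l T).aestronglyMeasurable ?_
    refine Filter.Eventually.of_forall fun η => ?_
    exact abs_dens_le μ a b l T η le_rfl
  · exact (integrable_finsetSum _ hi).aestronglyMeasurable
  · refine Filter.Eventually.of_forall fun η => ?_
    intro x hx
    have hxM : |x| ≤ M := by
      rw [Metric.mem_ball, Real.dist_eq] at hx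
      have h1 : |x| ≤ |x - l| + |l| := by
        have := abs_add_le (x - l) l
        rwa [sub_add_cancel] at this
      linarith
    rw [Finset.sum_mul]
    refine (norm_sum_le _ _).trans (Finset.sum_le_sum fun s _ => ?_)
    rw [norm_mul, norm_mul]
    apply mul_le_mul_of_nonneg_right _ (abs_nonneg _)
    exact mul_le_mul (abs_score_le μ a b _) (abs_dens_le μ a b x _ η hxM) (abs_nonneg _)
      (by positivity)
  · exact hF.abs.const_mul _
  · refine Filter.Eventually.of_forall fun η => ?_
    intro x _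
    have h1 : ∀ t ∈ T, HasDerivAt (fun y : ℝ => 1 + y * score μ a b (η t)) (score μ a b (η t)) x := by
      intro t _
      have := ((hasDerivAt_id x).mul_const (score μ a b (η t))).const_add 1
      simpa using this
    have h2 := HasDerivAt.fun_finsetProd h1
    have h3 := h2.mul_const (F η)
    have e : (∑ i ∈ T, (∏ j ∈ T.erase i, (1 + x * score μ a b (η j))) • score μ a b (η i)) * F η =
        ∑ s ∈ T, (score μ a b (η s) * dens μ a b x (T.erase s) η) * F η := by
      rw [Finset.sum_mul]
      apply Finset.sum_congr rfl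
      intro s _
      unfold dens
      rw [smul_eq_mul]
      ring
    rw [e] at h3
    exact h3

/-- the second moment of the density -/
lemma integral_dens_sq (μ : Measure ℝ) [IsProbabilityMeasure μ] {a b : ℝ} (hab : a < b)
    (hp : 0 < μ.real (Set.Ici b)) (hm : 0 < μ.real (Set.Iic a)) (T : Finset ι) (l : ℝ) :
    ∫ η, dens μ a b l T η ^ 2 ∂(Measure.pi fun _ : ι => μ) ≤
      Real.exp (l ^ 2 * (1 / μ.real (Set.Ici b) + 1 / μ.real (Set.Iic a)) * T.card) := by
  set K := 1 / μ.real (Set.Ici b) + 1 / μ.real (Set.Iic a) with hK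
  have e1 : ∀ η : ι → ℝ, dens μ a b l T η ^ 2 =
      ∏ i : ι, (fun (i : ι) (x : ℝ) => if i ∈ T then (1 + l * score μ a b x) ^ 2 else 1) i (η i) := by
    intro η
    unfold dens
    rw [← Finset.prod_pow]
    rw [Finset.prod_ite_mem, Finset.univ_inter]
  simp_rw [e1]
  rw [integral_fintype_prod_eq_prod
    (f := fun (i : ι) (x : ℝ) => if i ∈ T then (1 + l * score μ a b x) ^ 2 else 1)]
  have isc : Integrable (score μ a b) μ :=
    integrable_bdd (measurable_score μ a b) (fun x => abs_score_le μ a b x)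
  have isc2 : Integrable (fun x => score μ a b x ^ 2) μ := by
    apply integrable_bdd ((measurable_score μ a b).pow_const 2) (C := K ^ 2)
    intro x
    rw [abs_pow]
    exact pow_le_pow_left₀ (abs_nonneg _) (abs_score_le μ a b x) 2
  have e2 : ∫ x, (1 + l * score μ a b x) ^ 2 ∂μ = 1 + l ^ 2 * K := by
    have e3 : ∀ x, (1 + l * score μ a b x) ^ 2 =
        (1 + 2 * l * score μ a b x) + l ^ 2 * score μ a b x ^ 2 := fun x => by ring
    simp_rw [e3]
    have f1 := integral_add ((integrable_const (μ := μ) (1 : ℝ)).add (isc.const_mul (2 * l)))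
      (isc2.const_mul (l ^ 2))
    have f2 := integral_add (integrable_const (μ := μ) (1 : ℝ)) (isc.const_mul (2 * l))
    simp only [Pi.add_apply] at f1 f2
    rw [f1, f2, integral_const_mul, integral_const_mul,
      integral_score μ hp hm, integral_score_sq μ hab hp hm]
    simp only [integral_const, probReal_univ, one_smul, mul_zero, add_zero]
    rw [hK]
  have e4 : ∀ i : ι, ∫ x, (if i ∈ T then (1 + l * score μ a b x) ^ 2 else 1) ∂μ =
      if i ∈ T then 1 + l ^ 2 * K else 1 := by
    intro i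
    by_cases h : i ∈ T
    · simp only [h, if_true]
      exact e2
    · simp only [h, if_false]
      simp
  simp_rw [e4]
  rw [Finset.prod_ite_mem, Finset.univ_inter, Finset.prod_const]
  calc (1 + l ^ 2 * K) ^ T.card ≤ (Real.exp (l ^ 2 * K)) ^ T.card := by
        apply pow_le_pow_left₀ (by positivity)
        have := Real.add_one_le_exp (l ^ 2 * K)
        linarith
    _ = Real.exp (l ^ 2 * K * T.card) := by
        rw [← Real.exp_nat_mul]
        congr 1
        ring

section gain

variable [Nonempty W] (μ : Measure ℝ) [IsProbabilityMeasure μ] {a b : ℝ} (hab : a < b)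
  (hp : 0 < μ.real (Set.Ici b)) (hm : 0 < μ.real (Set.Iic a)) {β : ℝ} (hβ : 0 < β)
  (hμ : Integrable (fun u => Real.exp (β * u)) μ)
  {c : W → ℝ} (hc : ∀ w, 0 < c w) (vis : W → Finset ι) (T : Finset ι)
  {m : ℕ} (hcard : ∀ w, (vis w ∩ T).card = m)
  {α : ℝ} (hα : 0 ≤ α) (hα1 : α ≤ 1)
  (hZ : Integrable (fun η => ZZ β c vis η ^ α) (Measure.pi fun _ : ι => μ))

include hab hp hm hβ hμ hc hcard hα hα1 hZ in
/-- growth under the tilt -/
lemma growth {l0 : ℝ} (h0 : 0 ≤ l0) (hl0 : l0 ≤ μ.real (Set.Iic a)) :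
    Real.exp (α * (1 - Real.exp (-(β * (b - a)))) / 2 * m * l0) *
      ∫ η, ZZ β c vis η ^ α ∂(Measure.pi fun _ : ι => μ) ≤
      ∫ η, dens μ a b l0 T η * ZZ β c vis η ^ α ∂(Measure.pi fun _ : ι => μ) := by
  set κ := α * (1 - Real.exp (-(β * (b - a)))) / 2 with hκ
  set π := Measure.pi fun _ : ι => μ with hπ
  set G : ℝ → ℝ := fun l => ∫ η, dens μ a b l T η * ZZ β c vis η ^ α ∂π with hG
  have hder : ∀ l, HasDerivAt G (∑ s ∈ T, ∫ η, (score μ a b (η s) * dens μ a b l (T.erase s) η) *
      ZZ β c vis η ^ α ∂π) l := fun l => hasDerivAt_tilt μ a b T hZ l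
  have hineq : ∀ l, 0 ≤ l → l ≤ μ.real (Set.Iic a) → κ * m * G l ≤
      ∑ s ∈ T, ∫ η, (score μ a b (η s) * dens μ a b l (T.erase s) η) *
      ZZ β c vis η ^ α ∂π := by
    intro l h1 h2
    have hint : ∀ s ∈ T, Integrable (fun η => κ * (occ β c vis s η * dens μ a b l T η *
        ZZ β c vis η ^ α)) π := by
      intro s _
      apply Integrable.const_mul
      refine hZ.bdd_mul (c := 1 * (1 + |l| * (1 / μ.real (Set.Ici b) + 1 / μ.real (Set.Iic a))) ^
        T.card) ((measurable_occ β c vis s).mul (measurable_dens μ a b l T)).aestronglyMeasurable ?_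
      refine Filter.Eventually.of_forall fun η => ?_
      rw [norm_mul, Real.norm_of_nonneg (occ_nonneg β hc vis s η)]
      exact mul_le_mul (occ_le_one β hc vis s η) (abs_dens_le μ a b l T η le_rfl) (abs_nonneg _)
        zero_le_one
    have e1 : κ * m * G l = ∑ s ∈ T, ∫ η, κ * (occ β c vis s η * dens μ a b l T η *
        ZZ β c vis η ^ α) ∂π := by
      rw [← integral_finsetSum _ hint]
      have : ∀ η, ∑ s ∈ T, κ * (occ β c vis s η * dens μ a b l T η * ZZ β c vis η ^ α) =
          κ * m * (dens μ a b l T η * ZZ β c vis η ^ α) := by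
        intro η
        rw [← Finset.mul_sum]
        simp_rw [mul_assoc]
        rw [← Finset.sum_mul, sum_occ β hc vis T hcard]
      simp_rw [this]
      rw [integral_const_mul]
    rw [e1]
    exact Finset.sum_le_sum fun s hs =>
      site_pow μ hab hp hm hβ hμ hc vis T hα hα1 hZ h1 h2 hs
  have hd2 : ∀ l, HasDerivAt (fun l => Real.exp (-(κ * m * l)) * G l)
      (Real.exp (-(κ * m * l)) * (-(κ * m)) * G l + Real.exp (-(κ * m * l)) *
        (∑ s ∈ T, ∫ η, (score μ a b (η s) * dens μ a b l (T.erase s) η) *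
      ZZ β c vis η ^ α ∂π)) l := by
    intro l
    have h1 : HasDerivAt (fun l => -(κ * m * l)) (-(κ * m)) l := by
      have := (hasDerivAt_id l).const_mul (-(κ * m))
      simpa [neg_mul] using this
    exact h1.exp.mul (hder l)
  have hmono : MonotoneOn (fun l => Real.exp (-(κ * m * l)) * G l) (Set.Icc 0 l0) := by
    apply monotoneOn_of_deriv_nonneg (convex_Icc 0 l0)
    · exact fun x _ => (hd2 x).continuousAt.continuousWithinAt
    · exact fun x _ => (hd2 x).differentiableAt.differentiableWithinAt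
    · intro x hx
      rw [interior_Icc] at hx
      rw [(hd2 x).deriv]
      have h1 := hineq x hx.1.le (hx.2.le.trans hl0)
      have h2 := Real.exp_pos (-(κ * m * x))
      nlinarith
  have h1 := hmono (Set.left_mem_Icc.2 h0) (Set.right_mem_Icc.2 h0) h0
  simp only [mul_zero, neg_zero, Real.exp_zero, one_mul] at h1
  have e0 : G 0 = ∫ η, ZZ β c vis η ^ α ∂π := by
    simp only [hG]
    congr 1
    funext η
    unfold dens
    simp
  rw [e0] at h1
  calc Real.exp (κ * m * l0) * ∫ η, ZZ β c vis η ^ α ∂π ≤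
      Real.exp (κ * m * l0) * (Real.exp (-(κ * m * l0)) * G l0) :=
        mul_le_mul_of_nonneg_left h1 (Real.exp_pos _).le
    _ = G l0 := by
        rw [← mul_assoc, ← Real.exp_add, add_neg_cancel, Real.exp_zero, one_mul]

include hab hp hm hβ hμ hc hcard hα hα1 hZ in
/-- strong log-convexity of the moments -/
theorem gain (hZ2 : Integrable (fun η => ZZ β c vis η ^ (2 * α)) (Measure.pi fun _ : ι => μ)) :
    Real.exp (α ^ 2 * (1 - Real.exp (-(β * (b - a)))) ^ 2 * m ^ 2 /
      (4 * (1 / μ.real (Set.Ici b) + 1 / μ.real (Set.Iic a)) * T.card)) *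
      (∫ η, ZZ β c vis η ^ α ∂(Measure.pi fun _ : ι => μ)) ^ 2 ≤
      ∫ η, ZZ β c vis η ^ (2 * α) ∂(Measure.pi fun _ : ι => μ) := by
  set π := Measure.pi fun _ : ι => μ with hπ
  set q := 1 - Real.exp (-(β * (b - a))) with hq
  set K := 1 / μ.real (Set.Ici b) + 1 / μ.real (Set.Iic a) with hK
  have hKpos : 0 < K := by positivity
  have hq1 : q ≤ 1 := by rw [hq]; linarith [Real.exp_pos (-(β * (b - a)))]
  have hq0 : 0 ≤ q := by
    rw [hq]
    have : Real.exp (-(β * (b - a))) ≤ 1 := Real.exp_le_one_iff.2 (by nlinarith)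
    linarith
  set κ := α * q / 2 with hκ
  have hκ0 : 0 ≤ κ := by positivity
  have hκ1 : κ ≤ 1 := by
    have : α * q ≤ 1 * 1 := mul_le_mul hα1 hq1 hq0 (by norm_num)
    rw [hκ]; linarith
  have hmT : m ≤ T.card := by
    obtain ⟨w⟩ := (inferInstance : Nonempty W)
    rw [← hcard w]
    exact Finset.card_le_card Finset.inter_subset_right
  set l0 := κ * m / (K * T.card) with hl0
  have hl00 : 0 ≤ l0 := by positivity
  have hl01 : l0 ≤ μ.real (Set.Iic a) := by
    rcases Nat.eq_zero_or_pos T.card with h | h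
    · rw [hl0, h]; simp
    · have hT : (0 : ℝ) < T.card := by exact_mod_cast h
      have hmT' : (m : ℝ) ≤ T.card := by exact_mod_cast hmT
      rw [hl0, div_le_iff₀ (by positivity)]
      have h1 : 1 ≤ μ.real (Set.Iic a) * K := by
        rw [hK, mul_add, mul_one_div, mul_one_div, div_self hm.ne']
        have : 0 ≤ μ.real (Set.Iic a) / μ.real (Set.Ici b) := by positivity
        linarith
      calc κ * m ≤ 1 * T.card := mul_le_mul hκ1 hmT' (by positivity) (by norm_num)
        _ ≤ (μ.real (Set.Iic a) * K) * T.card := mul_le_mul_of_nonneg_right h1 hT.le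
        _ = _ := by ring
  have hgr := growth μ hab hp hm hβ hμ hc vis T hcard hα hα1 hZ hl00 hl01
  rw [← hπ, ← hq, ← hκ] at hgr
  have hZp : ∀ η, 0 < ZZ β c vis η := fun η => ZZ_pos β hc vis η
  -- Cauchy-Schwarz
  have hmZ : Measurable (fun η => ZZ β c vis η ^ α) := (measurable_ZZ β c vis).pow_const α
  have hsq : ∀ η, (ZZ β c vis η ^ α) ^ 2 = ZZ β c vis η ^ (2 * α) := by
    intro η
    rw [← Real.rpow_natCast, ← Real.rpow_mul (hZp η).le]
    congr 1
    push_cast
    ring
  have hd2 : MemLp (dens μ a b l0 T) 2 π :=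
    MemLp.of_bound (measurable_dens μ a b l0 T).aestronglyMeasurable _
      (Filter.Eventually.of_forall fun η => abs_dens_le μ a b l0 T η le_rfl)
  have hz2 : MemLp (fun η => ZZ β c vis η ^ α) 2 π := by
    rw [memLp_two_iff_integrable_sq hmZ.aestronglyMeasurable]
    simp_rw [hsq]
    exact hZ2
  have hcs := integral_mul_le_Lp_mul_Lq_of_nonneg (μ := π) (p := 2) (q := 2)
    Real.HolderConjugate.two_two (f := dens μ a b l0 T) (g := fun η => ZZ β c vis η ^ α)
    (Filter.Eventually.of_forall fun η => dens_nonneg μ hm hl00 hl01 T η)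
    (Filter.Eventually.of_forall fun η => Real.rpow_nonneg (hZp η).le _)
    (by simpa using hd2) (by simpa using hz2)
  simp only [Real.rpow_two] at hcs
  simp_rw [hsq] at hcs
  have hX0 : 0 ≤ ∫ η, ZZ β c vis η ^ α ∂π := integral_nonneg fun η => Real.rpow_nonneg (hZp η).le _
  have hA0 : 0 ≤ ∫ η, dens μ a b l0 T η ^ 2 ∂π := integral_nonneg fun η => sq_nonneg _
  have hB0 : 0 ≤ ∫ η, ZZ β c vis η ^ (2 * α) ∂π :=
    integral_nonneg fun η => Real.rpow_nonneg (hZp η).le _
  have h1 : (Real.exp (κ * m * l0) * ∫ η, ZZ β c vis η ^ α ∂π) ^ 2 ≤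
      (∫ η, dens μ a b l0 T η ^ 2 ∂π) * ∫ η, ZZ β c vis η ^ (2 * α) ∂π := by
    have h2 := hgr.trans hcs
    have h3 := pow_le_pow_left₀ (by positivity) h2 2
    refine h3.trans (le_of_eq ?_)
    rw [mul_pow, ← Real.rpow_natCast, ← Real.rpow_natCast, ← Real.rpow_mul hA0,
      ← Real.rpow_mul hB0]
    norm_num
  have h2 := integral_dens_sq μ hab hp hm T l0
  rw [← hπ, ← hK] at h2
  have h3 : Real.exp (2 * (κ * m * l0)) * (∫ η, ZZ β c vis η ^ α ∂π) ^ 2 ≤
      Real.exp (l0 ^ 2 * K * T.card) * ∫ η, ZZ β c vis η ^ (2 * α) ∂π := by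
    calc Real.exp (2 * (κ * m * l0)) * (∫ η, ZZ β c vis η ^ α ∂π) ^ 2 =
        (Real.exp (κ * m * l0) * ∫ η, ZZ β c vis η ^ α ∂π) ^ 2 := by
          rw [mul_pow, ← Real.exp_nat_mul]
          push_cast
          ring
      _ ≤ _ := h1
      _ ≤ _ := mul_le_mul_of_nonneg_right h2 hB0
  have e3 : α ^ 2 * q ^ 2 * (m : ℝ) ^ 2 / (4 * K * T.card) =
      2 * (κ * m * l0) - l0 ^ 2 * K * T.card := by
    rcases Nat.eq_zero_or_pos T.card with h | h
    · rw [hl0, h]; simp
    · have hT : (0 : ℝ) < T.card := by exact_mod_cast h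
      rw [hl0, hκ]
      field_simp
      ring
  rw [e3, Real.exp_sub]
  calc Real.exp (2 * (κ * m * l0)) / Real.exp (l0 ^ 2 * K * T.card) *
      (∫ η, ZZ β c vis η ^ α ∂π) ^ 2 =
      (Real.exp (2 * (κ * m * l0)) * (∫ η, ZZ β c vis η ^ α ∂π) ^ 2) /
        Real.exp (l0 ^ 2 * K * T.card) := by ring
    _ ≤ _ := by
      rw [div_le_iff₀ (Real.exp_pos _)]
      linarith

end gain

end U874.RG
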