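import Pool.Agent.U874.RG.Rates
import Pool.Agent.U874.RG.Gain

/-!
# Escape from the tube, and the gain in the tube (dimension one)
-/

set_option autoImplicit false
set_option linter.unusedSectionVars false

open MeasureTheory ProbabilityTheory Filter Topology

namespace U874.RG

open TH967.DP (Step pos energy abs_pos_le)
open Pool.Agent.N662.SE (IsEnv part free lw mom part_nonneg part_mono)
open Pool.Agent.N50.SE.SUP (wt part_eq wt_pos part_pos part_add meas_wt meas_part)

variable {d : ℕ} {Ω : Type} [MeasurableSpace Ω]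

lemma add_rpow_le' {x y θ : ℝ} (hx : 0 ≤ x) (hy : 0 ≤ y) (h0 : 0 ≤ θ) (h1 : θ ≤ 1) :
    (x + y) ^ θ ≤ x ^ θ + y ^ θ := by
  lift x to NNReal using hx
  lift y to NNReal using hy
  exact_mod_cast NNReal.rpow_add_le_add_rpow x y h0 h1

lemma sum_rpow_le' {ι : Type*} (J : Finset ι) {f : ι → ℝ} (hf : ∀ j ∈ J, 0 ≤ f j) {θ : ℝ}
    (h0 : 0 < θ) (h1 : θ ≤ 1) : (∑ j ∈ J, f j) ^ θ ≤ ∑ j ∈ J, f j ^ θ := by
  classical
  induction J using Finset.induction_on with
  | empty => simp [Real.zero_rpow h0.ne']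
  | insert a s ha ih =>
    rw [Finset.sum_insert ha, Finset.sum_insert ha]
    have h2 := ih fun j hj => hf j (Finset.mem_insert_of_mem hj)
    have h3 : 0 ≤ ∑ j ∈ s, f j := Finset.sum_nonneg fun j hj => hf j (Finset.mem_insert_of_mem hj)
    have h4 := add_rpow_le' (hf a (Finset.mem_insert_self _ _)) h3 h0.le h1
    linarith

/-- interpolation of moments -/
lemma interp {P : Measure Ω} [IsProbabilityMeasure P] {Y : Ω → ℝ} (hY : ∀ x, 0 ≤ Y x)
    {θ₁ θ₂ p q α₁ α₂ : ℝ} (hp : 0 ≤ p) (hq : 0 ≤ q) (hpq : p + q = 1) (h1 : 0 < θ₁)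
    (h2 : 0 < θ₂)
    (i1 : Integrable (fun x => Y x ^ θ₁) P) (i2 : Integrable (fun x => Y x ^ θ₂) P)
    (i3 : Integrable (fun x => Y x ^ (p * θ₁ + q * θ₂)) P)
    (b1 : ∫ x, Y x ^ θ₁ ∂P ≤ Real.exp α₁) (b2 : ∫ x, Y x ^ θ₂ ∂P ≤ Real.exp α₂) :
    ∫ x, Y x ^ (p * θ₁ + q * θ₂) ∂P ≤ Real.exp (p * α₁ + q * α₂) := by
  have hexp : 0 < p * θ₁ + q * θ₂ := by
    rcases hp.lt_or_eq with h | h
    · have := mul_pos h h1
      have := mul_nonneg hq h2.le
      linarith
    · have : q = 1 := by linarith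
      rw [← h, this]
      linarith
  have key : ∀ x, Real.exp (-(p * α₁ + q * α₂)) * Y x ^ (p * θ₁ + q * θ₂) ≤
      p * Real.exp (-α₁) * Y x ^ θ₁ + q * Real.exp (-α₂) * Y x ^ θ₂ := by
    intro x
    rcases (hY x).lt_or_eq with h | h
    · have h3 := Real.geom_mean_le_arith_mean2_weighted hp hq
        (mul_nonneg (Real.exp_pos (-α₁)).le (Real.rpow_nonneg h.le θ₁))
        (mul_nonneg (Real.exp_pos (-α₂)).le (Real.rpow_nonneg h.le θ₂)) hpq
      have e1 : (Real.exp (-α₁) * Y x ^ θ₁) ^ p * (Real.exp (-α₂) * Y x ^ θ₂) ^ q =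
          Real.exp (-(p * α₁ + q * α₂)) * Y x ^ (p * θ₁ + q * θ₂) := by
        rw [Real.rpow_def_of_pos h, Real.rpow_def_of_pos h, Real.rpow_def_of_pos h,
          ← Real.exp_add, ← Real.exp_add, ← Real.exp_add, ← Real.exp_mul, ← Real.exp_mul,
          ← Real.exp_add]
        congr 1
        ring
      rw [e1] at h3
      linarith
    · rw [← h, Real.zero_rpow hexp.ne', Real.zero_rpow h1.ne', Real.zero_rpow h2.ne']
      simp
  have h3 : Real.exp (-(p * α₁ + q * α₂)) * ∫ x, Y x ^ (p * θ₁ + q * θ₂) ∂P ≤ 1 := by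
    rw [← integral_const_mul]
    refine (integral_mono (i3.const_mul _)
      ((i1.const_mul (p * Real.exp (-α₁))).add (i2.const_mul (q * Real.exp (-α₂)))) key).trans ?_
    have e := integral_add (i1.const_mul (p * Real.exp (-α₁)))
      (i2.const_mul (q * Real.exp (-α₂)))
    simp only [Pi.add_apply]
    rw [e, integral_const_mul, integral_const_mul]
    have f1 : Real.exp (-α₁) * ∫ x, Y x ^ θ₁ ∂P ≤ 1 := by
      calc _ ≤ Real.exp (-α₁) * Real.exp α₁ := mul_le_mul_of_nonneg_left b1 (Real.exp_pos _).le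
        _ = 1 := by rw [← Real.exp_add]; simp
    have f2 : Real.exp (-α₂) * ∫ x, Y x ^ θ₂ ∂P ≤ 1 := by
      calc _ ≤ Real.exp (-α₂) * Real.exp α₂ := mul_le_mul_of_nonneg_left b2 (Real.exp_pos _).le
        _ = 1 := by rw [← Real.exp_add]; simp
    have g1 := mul_le_mul_of_nonneg_left f1 hp
    have g2 := mul_le_mul_of_nonneg_left f2 hq
    linarith
  rw [Real.exp_neg, inv_mul_le_iff₀ (Real.exp_pos _), mul_one] at h3
  exact h3

section

variable (hd : 1 ≤ d) {P : Measure Ω} [IsProbabilityMeasure P]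
  {ω : ℕ → (Fin d → ℤ) → Ω → ℝ} (hω : IsEnv P ω)
  (hexp : ∀ b : ℝ, Integrable (fun x => Real.exp (b * ω 1 0 x)) P) (β : ℝ)

include hω in
lemma meas_partA (h : Fin d → ℝ) {n : ℕ} (A : Set (Fin n → Step d)) :
    Measurable (fun x => part β h (fun i y => ω i y x) n A) := by
  unfold part
  apply Finset.measurable_sum
  intro w _
  by_cases hw : w ∈ A
  · simp only [Set.indicator_of_mem hw]
    exact meas_wt ω β h n (fun i _ _ y => hω.meas i y) w
  · simp only [Set.indicator_of_notMem hw]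
    exact measurable_const

include hd in
lemma partA_rpow_le (h : Fin d → ℝ) {n : ℕ} (A : Set (Fin n → Step d)) {θ : ℝ} (h0 : 0 ≤ θ)
    (x : Ω) : part β h (fun i y => ω i y x) n A ^ θ ≤ Real.exp (θ * lw ω β h 0 0 n x) := by
  rw [exp_lw hd]
  simp only [zero_add]
  exact Real.rpow_le_rpow (part_nonneg β h _ A) (part_mono β h _ (Set.subset_univ A)) h0

include hd hω hexp in
lemma int_partA (h : Fin d → ℝ) {n : ℕ} (A : Set (Fin n → Step d)) {θ : ℝ} (h0 : 0 ≤ θ)
    (h1 : θ ≤ 1 / 4) : Integrable (fun x => part β h (fun i y => ω i y x) n A ^ θ) P := by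
  refine Integrable.mono' (int_exp hd hω hexp β h 0 0 n (θ := θ) (by rwa [abs_of_nonneg h0]))
    ((meas_partA hω β h A).pow_const θ).aestronglyMeasurable (Eventually.of_forall fun x => ?_)
  rw [Real.norm_of_nonneg (Real.rpow_nonneg (part_nonneg β h _ A) _)]
  exact partA_rpow_le hd β h A h0 x

include hd hω hexp in
/-- one piece of the escape bound -/
lemma esc_piece (h : Fin d → ℝ) {n i : ℕ} (hi : i ≤ n) (k : Fin d) (s u : ℝ) {θ : ℝ}
    (h0 : 0 ≤ θ) (h1 : θ ≤ 1 / 4) :
    ∫ x, part β h (fun i y => ω i y x) n {w | u ≤ s * (pos w i k : ℝ)} ^ θ ∂P ≤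
      Real.exp (-(θ * u)) * ((2 * n + 1) ^ d *
        (em P ω β (h + Pi.single k s) θ i * em P ω β h θ (n - i))) := by
  have habs : |θ| ≤ 1 / 4 := by rwa [abs_of_nonneg h0]
  set h' := h + Pi.single k s with hh'
  have hind : ∀ y, IndepFun (fun x => Real.exp (θ * lw ω β h' 0 0 i x))
      (fun x => Real.exp (θ * lw ω β h i y (n - i) x)) P := fun y =>
    indep_pf hω i (Real.measurable_exp.comp ((meas_lw_pst ω β h' le_rfl).const_mul θ))
      (Real.measurable_exp.comp ((meas_lw_fut ω β h i y (n - i)).const_mul θ))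
  have hi1 := int_exp hd hω hexp β h' 0 0 i habs
  have hi2 : ∀ y, Integrable (fun x => Real.exp (θ * lw ω β h i y (n - i) x)) P := fun y =>
    int_exp hd hω hexp β h i y (n - i) habs
  have hprod : ∀ y, Integrable (fun x => Real.exp (θ * lw ω β h' 0 0 i x) *
      Real.exp (θ * lw ω β h i y (n - i) x)) P := fun y => (hind y).integrable_mul hi1 (hi2 y)
  have hval : ∀ y, ∫ x, Real.exp (θ * lw ω β h' 0 0 i x) *
      Real.exp (θ * lw ω β h i y (n - i) x) ∂P =
      em P ω β h' θ i * em P ω β h θ (n - i) := by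
    intro y
    rw [← em_shift hd hω β h i y (n - i) θ]
    exact (hind y).integral_fun_mul_eq_mul_integral hi1.aestronglyMeasurable
      (hi2 y).aestronglyMeasurable
  calc ∫ x, part β h (fun i y => ω i y x) n {w | u ≤ s * (pos w i k : ℝ)} ^ θ ∂P ≤
      ∫ x, Real.exp (-(θ * u)) * ∑ y ∈ box d n, Real.exp (θ * lw ω β h' 0 0 i x) *
      Real.exp (θ * lw ω β h i y (n - i) x) ∂P := by
        refine integral_mono (int_partA hd hω hexp β h _ h0 h1)
          ((integrable_finsetSum _ fun y _ => hprod y).const_mul _) ?_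
        intro x
        show part β h (fun i y => ω i y x) n {w | u ≤ s * (pos w i k : ℝ)} ^ θ ≤
          Real.exp (-(θ * u)) * ∑ y ∈ box d n, Real.exp (θ * lw ω β h' 0 0 i x) *
          Real.exp (θ * lw ω β h i y (n - i) x)
        have hne : (box d n).Nonempty := ⟨0, mem_box fun k => by simp⟩
        obtain ⟨z0, hz0, hz⟩ := Finset.exists_max_image (box d n)
          (fun y => lw ω β h i y (n - i) x) hne
        have hpp := Pool.Agent.N340.SE.pp d β h (fun i y => ω i y x) n i hi k s u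
          (lw ω β h i z0 (n - i) x) (by
            intro z hzn
            exact hz z (mem_box hzn))
        have h2 : part β h (fun i y => ω i y x) n {w | u ≤ s * (pos w i k : ℝ)} ^ θ ≤
            Real.exp (-(θ * u)) * (Real.exp (θ * lw ω β h' 0 0 i x) *
              Real.exp (θ * lw ω β h i z0 (n - i) x)) := by
          refine (Real.rpow_le_rpow (part_nonneg β h _ _) hpp h0).trans (le_of_eq ?_)
          rw [Real.mul_rpow (Real.exp_pos _).le (part_pos hd _ _ _ _).le, ← Real.exp_mul,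
            exp_lw hd β h' 0 0 i θ x]
          simp only [zero_add]
          have e : Real.exp ((-u + lw ω β h i z0 (n - i) x) * θ) =
              Real.exp (-(θ * u)) * Real.exp (θ * lw ω β h i z0 (n - i) x) := by
            rw [← Real.exp_add]
            congr 1
            ring
          rw [e]
          ring
        refine h2.trans (mul_le_mul_of_nonneg_left ?_ (Real.exp_pos _).le)
        exact Finset.single_le_sum (f := fun y => Real.exp (θ * lw ω β h' 0 0 i x) *
          Real.exp (θ * lw ω β h i y (n - i) x)) (fun y _ => by positivity) hz0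
    _ = Real.exp (-(θ * u)) * ∑ y ∈ box d n, ∫ x, Real.exp (θ * lw ω β h' 0 0 i x) *
      Real.exp (θ * lw ω β h i y (n - i) x) ∂P := by
        rw [integral_const_mul, integral_finsetSum _ (fun y _ => hprod y)]
    _ = _ := by
        simp only [hval]
        rw [Finset.sum_const, nsmul_eq_mul, card_box]

end

section one

open Pool.Agent.N50.SE.VAR (tb win card_win_le res pt pt_inj law dr zz part_eq_zz measurable_zz
  zz_eq_sub card_vis_inter vis)

variable {P : Measure Ω} [IsProbabilityMeasure P]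
  {ω : ℕ → (Fin 1 → ℤ) → Ω → ℝ} (hω : IsEnv P ω)
  (hexp : ∀ b : ℝ, Integrable (fun x => Real.exp (b * ω 1 0 x)) P) {β : ℝ}
  {φ : (Fin 1 → ℝ) → ℝ} {Λ : (Fin 1 → ℝ) → ℝ → ℝ} {C : ℝ} (hR : IsRate P ω β φ Λ C)

include hω hexp hR in
/-- the escape bound -/
lemma esc (h : Fin 1 → ℝ) (n : ℕ) {s r v M θ : ℝ} (h0 : 0 < θ) (h1 : θ ≤ 1 / 4) (hs : 0 < s)
    (hM : 0 ≤ M)
    (hb : ∀ t : ℝ, (t = s ∨ t = -s) → Λ (h + Pi.single 0 t) θ ≤ Λ h θ + θ * (t * v) + M) :
    ∫ x, part β h (fun i y => ω i y x) n (tb n v r)ᶜ ^ θ ∂P ≤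
      2 * (n + 1) * (2 * n + 1) * Real.exp (n * Λ h θ - θ * (s * r) + n * M) := by
  set pc : ℕ × Bool → Set (Fin n → Step 1) := fun t =>
    {w | (if t.2 then s else -s) * (t.1 * v) + s * r ≤
      (if t.2 then s else -s) * (pos w t.1 0 : ℝ)} with hpc
  set J := Finset.range (n + 1) ×ˢ (Finset.univ : Finset Bool) with hJ
  have hcov : ∀ x, part β h (fun i y => ω i y x) n (tb n v r)ᶜ ≤
      ∑ t ∈ J, part β h (fun i y => ω i y x) n (pc t) := by
    intro x
    apply Pool.Agent.N700.SE.UPD.part_le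
    intro w hw
    have hw' : ¬ ∀ i : ℕ, i ≤ n → |(pos w i 0 : ℝ) - i * v| ≤ r := hw
    push Not at hw'
    obtain ⟨i, hi, hik⟩ := hw'
    rcases lt_abs.1 hik with h2 | h2
    · refine ⟨(i, true), ?_, ?_⟩
      · simp only [hJ, Finset.mem_product, Finset.mem_range, Finset.mem_univ, and_true]
        omega
      · show (if true then s else -s) * (i * v) + s * r ≤ (if true then s else -s) * (pos w i 0 : ℝ)
        simp only [if_true]
        have h3 := mul_lt_mul_of_pos_left h2 hs
        linarith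
    · refine ⟨(i, false), ?_, ?_⟩
      · simp only [hJ, Finset.mem_product, Finset.mem_range, Finset.mem_univ, and_true]
        omega
      · show (if false then s else -s) * (i * v) + s * r ≤
          (if false then s else -s) * (pos w i 0 : ℝ)
        simp only [Bool.false_eq_true, if_false]
        have h3 := mul_lt_mul_of_pos_left h2 hs
        linarith
  have hint : ∀ t, Integrable (fun x => part β h (fun i y => ω i y x) n (pc t) ^ θ) P := fun t =>
    int_partA le_rfl hω hexp β h _ h0.le h1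
  have hpiece : ∀ t ∈ J, ∫ x, part β h (fun i y => ω i y x) n (pc t) ^ θ ∂P ≤
      (2 * n + 1) * Real.exp (n * Λ h θ - θ * (s * r) + n * M) := by
    intro t ht
    have hi : t.1 ≤ n := by
      simp only [hJ, Finset.mem_product, Finset.mem_range, Finset.mem_univ, and_true] at ht
      omega
    set σ : ℝ := if t.2 then s else -s with hσ
    have hσ' : σ = s ∨ σ = -s := by
      by_cases h2 : t.2 = true
      · left; rw [hσ, if_pos h2]
      · right; rw [hσ, if_neg h2]
    have e1 := esc_piece le_rfl hω hexp β h hi 0 σ (σ * (t.1 * v) + s * r) h0.le h1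
    refine e1.trans ?_
    have e2 := hR.em_le (h + Pi.single 0 σ) θ h0.le h1 t.1
    have e3 := hR.em_le h θ h0.le h1 (n - t.1)
    have e4 := hb σ hσ'
    have hin : (t.1 : ℝ) ≤ n := by exact_mod_cast hi
    have e5 : (t.1 : ℝ) * Λ (h + Pi.single 0 σ) θ ≤ t.1 * (Λ h θ + θ * (σ * v) + M) :=
      mul_le_mul_of_nonneg_left e4 (Nat.cast_nonneg _)
    have e6 : (t.1 : ℝ) * M ≤ n * M := mul_le_mul_of_nonneg_right hin hM
    rw [pow_one]
    have e7 : ((n - t.1 : ℕ) : ℝ) = n - t.1 := Nat.cast_sub hi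
    calc Real.exp (-(θ * (σ * (t.1 * v) + s * r))) * ((2 * n + 1) *
          (em P ω β (h + Pi.single 0 σ) θ t.1 * em P ω β h θ (n - t.1))) ≤
        Real.exp (-(θ * (σ * (t.1 * v) + s * r))) * ((2 * n + 1) *
          (Real.exp (t.1 * Λ (h + Pi.single 0 σ) θ) *
            Real.exp (((n - t.1 : ℕ) : ℝ) * Λ h θ))) := by
          apply mul_le_mul_of_nonneg_left _ (Real.exp_pos _).le
          apply mul_le_mul_of_nonneg_left _ (by positivity)
          exact mul_le_mul e2 e3 (em_pos le_rfl hω hexp β h _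
            (by rw [abs_of_pos h0]; exact h1)).le (Real.exp_pos _).le
      _ = (2 * n + 1) * Real.exp (-(θ * (σ * (t.1 * v) + s * r)) +
          (t.1 * Λ (h + Pi.single 0 σ) θ + ((n - t.1 : ℕ) : ℝ) * Λ h θ)) := by
          rw [Real.exp_add, Real.exp_add]
          ring
      _ ≤ (2 * n + 1) * Real.exp (n * Λ h θ - θ * (s * r) + n * M) := by
          apply mul_le_mul_of_nonneg_left _ (by positivity)
          apply Real.exp_le_exp.2
          rw [e7]
          linarith
  calc ∫ x, part β h (fun i y => ω i y x) n (tb n v r)ᶜ ^ θ ∂P ≤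
      ∫ x, ∑ t ∈ J, part β h (fun i y => ω i y x) n (pc t) ^ θ ∂P := by
        refine integral_mono (int_partA le_rfl hω hexp β h _ h0.le h1)
          (integrable_finsetSum _ fun t _ => hint t) ?_
        intro x
        show part β h (fun i y => ω i y x) n (tb n v r)ᶜ ^ θ ≤
          ∑ t ∈ J, part β h (fun i y => ω i y x) n (pc t) ^ θ
        refine (Real.rpow_le_rpow (part_nonneg β h _ _) (hcov x) h0.le).trans ?_
        exact sum_rpow_le' J (fun t _ => part_nonneg β h _ _) h0 (by linarith)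
    _ = ∑ t ∈ J, ∫ x, part β h (fun i y => ω i y x) n (pc t) ^ θ ∂P :=
        integral_finsetSum _ fun t _ => hint t
    _ ≤ ∑ _t ∈ J, (2 * n + 1) * Real.exp (n * Λ h θ - θ * (s * r) + n * M) :=
        Finset.sum_le_sum hpiece
    _ = _ := by
        rw [Finset.sum_const, nsmul_eq_mul, hJ, Finset.card_product, Finset.card_range,
          Finset.card_univ, Fintype.card_bool]
        push_cast
        ring

include hω hexp in
/-- the gain in the tube -/
lemma gain_part {a₀ b₀ : ℝ} (hab : a₀ < b₀)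
    (hp : 0 < (P.map (ω 1 0)).real (Set.Ici b₀)) (hm : 0 < (P.map (ω 1 0)).real (Set.Iic a₀))
    (hβ : 0 < β) (h : Fin 1 → ℝ) {n : ℕ} {v r : ℝ} (hne : (tb n v r).Nonempty) {α : ℝ}
    (hα : 0 ≤ α) (hα1 : α ≤ 1 / 8) :
    Real.exp (α ^ 2 * (1 - Real.exp (-(β * (b₀ - a₀)))) ^ 2 * (n : ℝ) ^ 2 /
      (4 * (1 / (P.map (ω 1 0)).real (Set.Ici b₀) + 1 / (P.map (ω 1 0)).real (Set.Iic a₀)) *
        (win v r n).card)) *
      (∫ x, part β h (fun i y => ω i y x) n (tb n v r) ^ α ∂P) ^ 2 ≤
      ∫ x, part β h (fun i y => ω i y x) n (tb n v r) ^ (2 * α) ∂P := by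
  classical
  set μ := P.map (ω 1 0) with hμ
  have hprob : IsProbabilityMeasure μ :=
    Measure.isProbabilityMeasure_map (hω.meas 1 0).aemeasurable
  set A := tb n v r with hA
  haveI : Nonempty A := hne.to_subtype
  have hres : Measurable (fun x => res n (fun i y => ω i y x)) := by
    rw [measurable_pi_iff]
    intro s
    exact hω.meas _ _
  have hlaw : P.map (fun x => res n (fun i y => ω i y x)) =
      Measure.pi (fun _ : Pool.Agent.N50.SE.VAR.Site n => μ) :=
    law hω (κ := Pool.Agent.N50.SE.VAR.Site n) (φ := pt) pt_inj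
  have hzz : ∀ η : Pool.Agent.N50.SE.VAR.Site n → ℝ,
      Pool.Agent.N692.SD.AC.ZZ β (fun w : A => dr h w.1) (fun w : A => vis w.1) η =
        zz β h A η := fun η => (zz_eq_sub β h A η).symm
  have hpow : ∀ t : ℝ, Measurable (fun η : Pool.Agent.N50.SE.VAR.Site n → ℝ => zz β h A η ^ t) :=
    fun t => (measurable_zz β h A).pow_const t
  have hI : ∀ t : ℝ, ∫ η, zz β h A η ^ t
      ∂(Measure.pi (fun _ : Pool.Agent.N50.SE.VAR.Site n => μ)) =
      ∫ x, part β h (fun i y => ω i y x) n A ^ t ∂P := by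
    intro t
    rw [← hlaw, integral_map hres.aemeasurable (hpow t).aestronglyMeasurable]
    simp_rw [part_eq_zz]
  have hint : ∀ t : ℝ, 0 ≤ t → t ≤ 1 / 4 → Integrable (fun η => zz β h A η ^ t)
      (Measure.pi (fun _ : Pool.Agent.N50.SE.VAR.Site n => μ)) := by
    intro t ht0 ht1
    rw [← hlaw, integrable_map_measure (hpow t).aestronglyMeasurable hres.aemeasurable]
    have := int_partA le_rfl hω hexp β h A ht0 ht1
    simp_rw [part_eq_zz] at this
    exact this
  have hμβ : Integrable (fun u => Real.exp (β * u)) μ := by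
    rw [hμ, integrable_map_measure (by fun_prop) (hω.meas 1 0).aemeasurable]
    exact hexp β
  have key := gain μ hab hp hm hβ hμβ (c := fun w : A => dr h w.1)
    (fun w => Real.exp_pos _) (fun w : A => vis w.1) (win v r n) (m := n)
    (fun w => card_vis_inter w.2) hα (by linarith)
    (by simp_rw [hzz]; exact hint α hα (by linarith))
    (by simp_rw [hzz]; exact hint (2 * α) (by linarith) (by linarith))
  simp_rw [hzz, hI] at key
  exact key

include hω hexp hR in
/-- the core estimate -/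
lemma core {a₀ b₀ : ℝ} (hab : a₀ < b₀)
    (hp : 0 < (P.map (ω 1 0)).real (Set.Ici b₀)) (hm : 0 < (P.map (ω 1 0)).real (Set.Iic a₀))
    (hβ : 0 < β) (h : Fin 1 → ℝ) {n : ℕ} (hn : 1 ≤ n) {v r θ : ℝ} (hr : 0 ≤ r)
    (h0 : 0 < θ) (h1 : θ ≤ 1 / 8)
    (hesc : ∫ x, part β h (fun i y => ω i y x) n (tb n v r)ᶜ ^ θ ∂P ≤
      Real.exp (n * Λ h θ) / (2 * (2 * n + 1))) :
    θ ^ 2 * (1 - Real.exp (-(β * (b₀ - a₀)))) ^ 2 /
      (4 * (1 / (P.map (ω 1 0)).real (Set.Ici b₀) + 1 / (P.map (ω 1 0)).real (Set.Iic a₀))) *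
      (n / (2 * r + 1)) - 2 * Real.log (2 * (2 * n + 1)) ≤ n * (Λ h (2 * θ) - 2 * Λ h θ) := by
  set A := tb n v r with hA
  have hn0 : (0 : ℝ) < n := by exact_mod_cast hn
  set E := Real.exp (n * Λ h θ) with hE
  have hE0 : 0 < E := Real.exp_pos _
  have habs : |θ| ≤ 1 / 4 := by rw [abs_of_pos h0]; linarith
  -- lower bound of the moment in the tube
  have hlow : E / (2 * (2 * n + 1)) ≤ ∫ x, part β h (fun i y => ω i y x) n A ^ θ ∂P := by
    have e1 := hR.le_em h θ h0.le (by linarith) n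
    rw [pow_one] at e1
    have e2 : em P ω β h θ n ≤ ∫ x, part β h (fun i y => ω i y x) n A ^ θ ∂P +
        ∫ x, part β h (fun i y => ω i y x) n Aᶜ ^ θ ∂P := by
      rw [← integral_add (int_partA le_rfl hω hexp β h _ h0.le (by linarith))
        (int_partA le_rfl hω hexp β h _ h0.le (by linarith))]
      unfold em
      refine integral_mono (int_exp le_rfl hω hexp β h 0 0 n habs)
        ((int_partA le_rfl hω hexp β h _ h0.le (by linarith)).add
        (int_partA le_rfl hω hexp β h _ h0.le (by linarith))) ?_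
      intro x
      show Real.exp (θ * lw ω β h 0 0 n x) ≤ part β h (fun i y => ω i y x) n A ^ θ +
        part β h (fun i y => ω i y x) n Aᶜ ^ θ
      rw [exp_lw le_rfl]
      simp only [zero_add]
      rw [← Pool.Agent.N700.SE.UPD.part_compl β h _ n A]
      exact add_rpow_le' (part_nonneg β h _ _) (part_nonneg β h _ _) h0.le (by linarith)
    have e3 : E / (2 * n + 1) ≤ em P ω β h θ n := by
      rw [div_le_iff₀ (by positivity)]
      linarith
    have e4 : E / (2 * n + 1) = E / (2 * (2 * n + 1)) + E / (2 * (2 * n + 1)) := by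
      field_simp
      ring
    linarith
  have hne : A.Nonempty := by
    by_contra hcon
    rw [Set.not_nonempty_iff_eq_empty] at hcon
    rw [hcon] at hlow
    have : ∀ x, part β h (fun i y => ω i y x) n ∅ ^ θ = 0 := by
      intro x
      have : part β h (fun i y => ω i y x) n ∅ = 0 := by
        unfold part
        simp
      rw [this, Real.zero_rpow h0.ne']
    simp_rw [this] at hlow
    simp only [integral_zero] at hlow
    have : 0 < E / (2 * (2 * n + 1)) := by positivity
    linarith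
  have hg := gain_part hω hexp hab hp hm hβ h hne h0.le h1
  rw [← hA] at hg
  set q := 1 - Real.exp (-(β * (b₀ - a₀))) with hq
  set K := 1 / (P.map (ω 1 0)).real (Set.Ici b₀) + 1 / (P.map (ω 1 0)).real (Set.Iic a₀) with hK
  have hK0 : 0 < K := by positivity
  have hup : ∫ x, part β h (fun i y => ω i y x) n A ^ (2 * θ) ∂P ≤
      Real.exp (n * Λ h (2 * θ)) := by
    refine le_trans ?_ (hR.em_le h (2 * θ) (by linarith) (by linarith) n)
    unfold em
    refine integral_mono (int_partA le_rfl hω hexp β h _ (by linarith) (by linarith))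
      (int_exp le_rfl hω hexp β h 0 0 n (by rw [abs_of_pos (by linarith)]; linarith)) ?_
    intro x
    exact partA_rpow_le le_rfl β h A (by linarith) x
  -- cardinality
  have hcard : ((win v r n).card : ℝ) ≤ n * (2 * r + 1) := card_win_le hr
  have hcard0 : (0 : ℝ) < (win v r n).card := by
    obtain ⟨w, hw⟩ := hne
    have h2 := card_vis_inter hw
    have h3 := Finset.card_le_card (Finset.inter_subset_right (s₁ := vis w) (s₂ := win v r n))
    rw [h2] at h3
    have : 0 < (win v r n).card := by omega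
    exact_mod_cast this
  have hexpo : θ ^ 2 * q ^ 2 / (4 * K) * (n / (2 * r + 1)) ≤
      θ ^ 2 * q ^ 2 * (n : ℝ) ^ 2 / (4 * K * (win v r n).card) := by
    have e1 : θ ^ 2 * q ^ 2 * (n : ℝ) ^ 2 / (4 * K * (win v r n).card) =
        θ ^ 2 * q ^ 2 / (4 * K) * ((n : ℝ) ^ 2 / (win v r n).card) := by
      field_simp
    rw [e1]
    apply mul_le_mul_of_nonneg_left _ (by positivity)
    rw [div_le_div_iff₀ (by positivity) hcard0]
    calc (n : ℝ) * (win v r n).card ≤ n * (n * (2 * r + 1)) :=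
          mul_le_mul_of_nonneg_left hcard hn0.le
      _ = _ := by ring
  have hfin : Real.exp (θ ^ 2 * q ^ 2 / (4 * K) * (n / (2 * r + 1))) *
      (E / (2 * (2 * n + 1))) ^ 2 ≤ Real.exp (n * Λ h (2 * θ)) := by
    refine le_trans ?_ (hg.trans hup)
    apply mul_le_mul (Real.exp_le_exp.2 hexpo) _ (by positivity) (Real.exp_pos _).le
    exact pow_le_pow_left₀ (by positivity) hlow 2
  have e5 : (E / (2 * (2 * n + 1))) ^ 2 =
      Real.exp (2 * (n * Λ h θ) - 2 * Real.log (2 * (2 * n + 1))) := by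
    have : E / (2 * (2 * n + 1)) = Real.exp (n * Λ h θ - Real.log (2 * (2 * n + 1))) := by
      rw [Real.exp_sub, Real.exp_log (by positivity)]
    rw [this, ← Real.exp_nat_mul]
    congr 1
    push_cast
    ring
  rw [e5, ← Real.exp_add, Real.exp_le_exp] at hfin
  linarith

end one

end U874.RG
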