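import Pool.Agent.U874.RG.Meas

/-!
# The gap for almost every drift, and in every window of drifts
-/

set_option autoImplicit false
set_option linter.unusedSectionVars false

open MeasureTheory ProbabilityTheory Filter Topology

namespace U874.RG

open Pool.Agent.N662.SE (IsEnv)

variable {Ω : Type} [MeasurableSpace Ω] {P : Measure Ω} [IsProbabilityMeasure P]
  {ω : ℕ → (Fin 1 → ℤ) → Ω → ℝ} (hω : IsEnv P ω)
  (hexp : ∀ b : ℝ, Integrable (fun x => Real.exp (b * ω 1 0 x)) P) {β : ℝ}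
  {φ : (Fin 1 → ℝ) → ℝ} {Λ : (Fin 1 → ℝ) → ℝ → ℝ} {C : ℝ} (hR : IsRate P ω β φ Λ C)

include hω hexp hR in
lemma gap_mono (h : Fin 1 → ℝ) {θ₁ θ₂ : ℝ} (h0 : 0 < θ₁) (h12 : θ₁ ≤ θ₂) (h3 : θ₂ ≤ 1 / 4) :
    Λ h θ₁ - θ₁ * φ h ≤ Λ h θ₂ - θ₂ * φ h := by
  have h2 : 0 < θ₂ := by linarith
  have l1 := lyap hω hexp hR h h0.le h12 h2 h3
  have l2 := hR.low h θ₂ h2.le h3
  have h4 : θ₁ / θ₂ ≤ 1 := (div_le_one h2).2 h12
  have h5 : θ₁ / θ₂ * (Λ h θ₂ - θ₂ * φ h) ≤ 1 * (Λ h θ₂ - θ₂ * φ h) :=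
    mul_le_mul_of_nonneg_right h4 (by linarith)
  have h6 : θ₁ / θ₂ * (Λ h θ₂ - θ₂ * φ h) = θ₁ / θ₂ * Λ h θ₂ - θ₁ * φ h := by
    field_simp
  linarith

include hω hexp hR in
lemma gap_ge (h : Fin 1 → ℝ) {θ : ℝ} (h0 : 0 ≤ θ) (h1 : θ ≤ 1 / 4) :
    Λ h (2 * θ) - 2 * Λ h θ ≤ Λ h (2 * θ) - 2 * θ * φ h := by
  have := hR.low h θ h0 h1
  linarith

lemma ev_rpow {c p p' : ℝ} (hc : 0 < c) (hp : p' < p) :
    ∀ᶠ θ : ℝ in 𝓝[>] 0, θ ^ p ≤ c * θ ^ p' := by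
  have h1 : Tendsto (fun θ : ℝ => θ ^ (p - p')) (𝓝[>] 0) (𝓝 0) := by
    have h2 : ContinuousAt (fun θ : ℝ => θ ^ (p - p')) 0 :=
      Real.continuousAt_rpow_const 0 (p - p') (Or.inr (by linarith))
    have h3 := h2.tendsto
    rw [Real.zero_rpow (by linarith)] at h3
    exact h3.mono_left nhdsWithin_le_nhds
  filter_upwards [h1.eventually (gt_mem_nhds hc), self_mem_nhdsWithin] with θ h2 h3
  have h4 : (0 : ℝ) < θ := h3
  calc θ ^ p = θ ^ (p - p') * θ ^ p' := by rw [← Real.rpow_add h4]; congr 1; ring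
    _ ≤ c * θ ^ p' := mul_le_mul_of_nonneg_right h2.le (by positivity)

include hω hexp hR in
/-- the gap for almost every drift -/
theorem ae_gap {a₀ b₀ : ℝ} (hab : a₀ < b₀)
    (hp : 0 < (P.map (ω 1 0)).real (Set.Ici b₀)) (hm : 0 < (P.map (ω 1 0)).real (Set.Iic a₀))
    (hβ : 0 < β) : ∀ᵐ t : ℝ, ∀ p : ℝ, 5 < p → ∀ᶠ θ : ℝ in 𝓝[>] 0,
      θ ^ p ≤ Λ (fun _ => t) θ - θ * φ (fun _ => t) := by
  have main : ∀ p : ℝ, 5 < p → ∀ᵐ t : ℝ, ∀ᶠ θ : ℝ in 𝓝[>] 0,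
      θ ^ p ≤ Λ (fun _ => t) θ - θ * φ (fun _ => t) := by
    intro p hp5
    set δ := (p - 5) / 3 with hδ
    have hδ0 : 0 < δ := by rw [hδ]; linarith
    set p' := 5 + 2 * δ with hp'
    have hp'p : p' < p := by rw [hp', hδ]; linarith
    obtain ⟨θ₀, hθ₀, hθ₀1, hexc⟩ := meas_exc hω hexp hR hab hp hm hβ (p := p') (a := δ) hδ0.le
      (by rw [hp']; linarith)
    have hR' : ∀ R : ℕ, ∀ᵐ t : ℝ, ∀ᶠ k : ℕ in atTop, t ∉ (if ((1 / 2 : ℝ) ^ k < θ₀) then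
        {t : ℝ | t ∈ Set.Icc (-(R : ℝ)) R ∧ Λ (fun _ => t) (2 * (1 / 2 : ℝ) ^ k) -
          2 * Λ (fun _ => t) ((1 / 2 : ℝ) ^ k) < ((1 / 2 : ℝ) ^ k) ^ p' / 2} else ∅) := by
      intro R
      apply ae_eventually_notMem
      have hle : ∀ k : ℕ, volume (if ((1 / 2 : ℝ) ^ k < θ₀) then
        {t : ℝ | t ∈ Set.Icc (-(R : ℝ)) R ∧ Λ (fun _ => t) (2 * (1 / 2 : ℝ) ^ k) -
          2 * Λ (fun _ => t) ((1 / 2 : ℝ) ^ k) < ((1 / 2 : ℝ) ^ k) ^ p' / 2} else ∅) ≤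
          ENNReal.ofReal (2 * ((1 / 2 : ℝ) ^ δ) ^ k) := by
        intro k
        have e : ((1 / 2 : ℝ) ^ δ) ^ k = ((1 / 2 : ℝ) ^ k) ^ δ := by
          rw [← Real.rpow_natCast, ← Real.rpow_natCast, ← Real.rpow_mul (by norm_num),
            ← Real.rpow_mul (by norm_num), mul_comm]
        split_ifs with hk
        · rw [e]
          exact hexc _ (by positivity) hk _ _ (by
            have : (0 : ℝ) ≤ R := Nat.cast_nonneg R
            linarith)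
        · rw [measure_empty]
          exact zero_le
      refine ne_top_of_le_ne_top ?_ (ENNReal.tsum_le_tsum hle)
      apply Summable.tsum_ofReal_ne_top
      apply Summable.mul_left
      apply summable_geometric_of_lt_one (by positivity)
      exact Real.rpow_lt_one (by norm_num) (by norm_num) hδ0
    have hall := ae_all_iff.2 hR'
    filter_upwards [hall] with t ht
    obtain ⟨R, hRt⟩ := exists_nat_ge |t|
    have htR : t ∈ Set.Icc (-(R : ℝ)) R := abs_le.1 hRt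
    have h1 := ht R
    have h2 : ∀ᶠ k : ℕ in atTop, (1 / 2 : ℝ) ^ k < θ₀ :=
      (tendsto_pow_atTop_nhds_zero_of_lt_one (by norm_num) (by norm_num)).eventually
        (gt_mem_nhds hθ₀)
    obtain ⟨k0, hk0⟩ := eventually_atTop.1 (h1.and h2)
    have hgood : ∀ k : ℕ, k0 ≤ k → ((1 / 2 : ℝ) ^ k) ^ p' / 2 ≤
        Λ (fun _ => t) (2 * (1 / 2 : ℝ) ^ k) - 2 * (1 / 2 : ℝ) ^ k * φ (fun _ => t) := by
      intro k hk
      obtain ⟨h3, h4⟩ := hk0 k hk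
      rw [if_pos h4] at h3
      have h5 : ¬ (Λ (fun _ => t) (2 * (1 / 2 : ℝ) ^ k) -
          2 * Λ (fun _ => t) ((1 / 2 : ℝ) ^ k) < ((1 / 2 : ℝ) ^ k) ^ p' / 2) := by
        intro hcon
        exact h3 ⟨htR, hcon⟩
      push Not at h5
      refine h5.trans (gap_ge hω hexp hR _ (by positivity) ?_)
      linarith
    -- all small θ
    have hc : (0 : ℝ) < (1 / 4) ^ p' / 2 := by positivity
    have hnb : ∀ᶠ θ : ℝ in 𝓝[>] 0, θ < min ((1 / 2 : ℝ) ^ k0) (1 / 4) := by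
      have : (0 : ℝ) < min ((1 / 2 : ℝ) ^ k0) (1 / 4) := by positivity
      exact nhdsWithin_le_nhds (gt_mem_nhds this)
    filter_upwards [ev_rpow hc hp'p, hnb, self_mem_nhdsWithin] with θ g1 g2 g3
    have hθ0 : (0 : ℝ) < θ := g3
    have hθ1 : θ < (1 / 2 : ℝ) ^ k0 := g2.trans_le (min_le_left _ _)
    have hθ2 : θ < 1 / 4 := g2.trans_le (min_le_right _ _)
    obtain ⟨k, hk1, hk2⟩ := exists_nat_pow_near_of_lt_one (x := θ / 2) (y := (1 / 2 : ℝ))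
      (by positivity) (by linarith) (by norm_num) (by norm_num)
    have hkk : k0 ≤ k + 1 := by
      by_contra hcon
      push Not at hcon
      have h5 : (1 / 2 : ℝ) ^ k0 ≤ (1 / 2 : ℝ) ^ (k + 1) :=
        pow_le_pow_of_le_one (by norm_num) (by norm_num) hcon.le
      linarith
    have h6 := hgood (k + 1) hkk
    have h7 : 2 * (1 / 2 : ℝ) ^ (k + 1) ≤ θ := by linarith
    have h8 := gap_mono hω hexp hR (fun _ => t) (θ₁ := 2 * (1 / 2 : ℝ) ^ (k + 1)) (θ₂ := θ)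
      (by positivity) h7 hθ2.le
    refine le_trans ?_ h8
    refine le_trans ?_ h6
    refine g1.trans ?_
    have h9 : θ / 4 ≤ (1 / 2 : ℝ) ^ (k + 1) := by
      rw [pow_succ]
      linarith
    have h10 : (θ / 4) ^ p' ≤ ((1 / 2 : ℝ) ^ (k + 1)) ^ p' :=
      Real.rpow_le_rpow (by positivity) h9 (by rw [hp']; linarith)
    have h11 : (θ / 4) ^ p' = (1 / 4) ^ p' * θ ^ p' := by
      rw [← Real.mul_rpow (by norm_num) hθ0.le]
      congr 1
      ring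
    rw [h11] at h10
    linarith
  have hseq : ∀ᵐ t : ℝ, ∀ j : ℕ, ∀ᶠ θ : ℝ in 𝓝[>] 0,
      θ ^ (5 + 1 / ((j : ℝ) + 1)) ≤ Λ (fun _ => t) θ - θ * φ (fun _ => t) := by
    rw [ae_all_iff]
    intro j
    apply main
    have : (0 : ℝ) < 1 / ((j : ℝ) + 1) := by positivity
    linarith
  filter_upwards [hseq] with t ht p hp5
  obtain ⟨j, hj⟩ := exists_nat_one_div_lt (show 0 < p - 5 by linarith)
  have hnb : ∀ᶠ θ : ℝ in 𝓝[>] 0, θ < 1 := nhdsWithin_le_nhds (gt_mem_nhds one_pos)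
  filter_upwards [ht j, hnb, self_mem_nhdsWithin] with θ h1 h2 h3
  exact (Real.rpow_le_rpow_of_exponent_ge h3 h2.le (by linarith)).trans h1

include hω hexp hR in
/-- the gap in every window of drifts -/
theorem window_gap {a₀ b₀ : ℝ} (hab : a₀ < b₀)
    (hp : 0 < (P.map (ω 1 0)).real (Set.Ici b₀)) (hm : 0 < (P.map (ω 1 0)).real (Set.Iic a₀))
    (hβ : 0 < β) {a p : ℝ} (ha : 0 ≤ a) (hpa : 5 + a < p) : ∀ᶠ θ : ℝ in 𝓝[>] 0, ∀ t : ℝ,
      ∃ t' : ℝ, |t' - t| ≤ θ ^ a ∧ θ ^ p ≤ Λ (fun _ => t') θ - θ * φ (fun _ => t') := by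
  set δ := (p - 5 - a) / 3 with hδ
  have hδ0 : 0 < δ := by rw [hδ]; linarith
  set p' := 5 + a + 2 * δ with hp'
  have hp'p : p' < p := by rw [hp', hδ]; linarith
  have hp'0 : 0 < p' := by rw [hp']; linarith
  obtain ⟨θ₀, hθ₀, hθ₀1, hexc⟩ := meas_exc hω hexp hR hab hp hm hβ (p := p') (a := a + δ)
    (by linarith) (by rw [hp']; linarith)
  have hc : (0 : ℝ) < (1 / 2) ^ p' / 2 := by positivity
  have hnb : ∀ᶠ θ : ℝ in 𝓝[>] 0, θ < θ₀ := nhdsWithin_le_nhds (gt_mem_nhds hθ₀)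
  filter_upwards [ev_rpow hc hp'p, hnb, self_mem_nhdsWithin] with θ g1 g2 g3 t
  have hθ0 : (0 : ℝ) < θ := g3
  have hw0 : 0 < θ ^ a := by positivity
  have h1 := hexc (θ / 2) (by positivity) (by linarith) (t - θ ^ a) (t + θ ^ a) (by linarith)
  set E := {u : ℝ | u ∈ Set.Icc (t - θ ^ a) (t + θ ^ a) ∧
    Λ (fun _ => u) (2 * (θ / 2)) - 2 * Λ (fun _ => u) (θ / 2) < (θ / 2) ^ p' / 2} with hE
  have h2 : ¬ (Set.Icc (t - θ ^ a) (t + θ ^ a) ⊆ E) := by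
    intro hcon
    have h3 := (measure_mono hcon).trans h1
    rw [Real.volume_Icc, ENNReal.ofReal_le_ofReal_iff (by positivity)] at h3
    have h4 : (θ / 2) ^ (a + δ) < θ ^ a := by
      calc (θ / 2) ^ (a + δ) ≤ θ ^ (a + δ) :=
            Real.rpow_le_rpow (by positivity) (by linarith) (by linarith)
        _ < θ ^ a := Real.rpow_lt_rpow_of_exponent_gt hθ0 (by linarith) (by linarith)
    linarith
  rw [Set.not_subset] at h2
  obtain ⟨t', ht', htE⟩ := h2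
  refine ⟨t', ?_, ?_⟩
  · rw [abs_le]
    constructor <;> linarith [ht'.1, ht'.2]
  · have h5 : ¬ (Λ (fun _ => t') (2 * (θ / 2)) - 2 * Λ (fun _ => t') (θ / 2) <
        (θ / 2) ^ p' / 2) := fun hcon => htE ⟨ht', hcon⟩
    push Not at h5
    have h6 := gap_ge hω hexp hR (fun _ => t') (θ := θ / 2) (by positivity) (by linarith)
    have e : 2 * (θ / 2) = θ := by ring
    rw [e] at h5 h6
    refine g1.trans (le_trans ?_ (h5.trans h6))
    have h11 : (θ / 2) ^ p' = (1 / 2) ^ p' * θ ^ p' := by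
      rw [← Real.mul_rpow (by norm_num) hθ0.le]
      congr 1
      ring
    rw [h11]
    linarith

end U874.RG
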