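import Pool.Agent.U874.RG.Esc

/-!
# Regularity of the Lyapunov exponents in the drift, and the key estimate
-/

set_option autoImplicit false
set_option linter.unusedSectionVars false

open MeasureTheory ProbabilityTheory Filter Topology

namespace U874.RG

open TH967.DP (Step pos energy abs_pos_le)
open Pool.Agent.N662.SE (IsEnv part free lw mom part_nonneg part_mono)
open Pool.Agent.N50.SE.SUP (wt part_eq wt_pos part_pos part_add meas_wt meas_part)
open Pool.Agent.N50.SE.VAR (tb win)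

variable {Ω : Type} [MeasurableSpace Ω] {P : Measure Ω} [IsProbabilityMeasure P]
  {ω : ℕ → (Fin 1 → ℤ) → Ω → ℝ} (hω : IsEnv P ω)
  (hexp : ∀ b : ℝ, Integrable (fun x => Real.exp (b * ω 1 0 x)) P) {β : ℝ}
  {φ : (Fin 1 → ℝ) → ℝ} {Λ : (Fin 1 → ℝ) → ℝ → ℝ} {C : ℝ} (hR : IsRate P ω β φ Λ C)

include hω hexp hR in
lemma le_of_em {h : Fin 1 → ℝ} {θ y : ℝ} (h0 : 0 ≤ θ) (h1 : θ ≤ 1 / 4)
    (hy : ∀ n : ℕ, em P ω β h θ n ≤ Real.exp (n * y)) : Λ h θ ≤ y := by
  apply le_of_lin (K := 2)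
  intro n
  have e1 := hR.le_em h θ h0 h1 n
  rw [pow_one] at e1
  have e2 : Real.exp (n * Λ h θ) ≤ (2 * n + 1) * Real.exp (n * y) :=
    e1.trans (mul_le_mul_of_nonneg_left (hy n) (by positivity))
  have e3 : (2 * (n : ℝ) + 1) * Real.exp (n * y) = Real.exp (n * y + Real.log (2 * n + 1)) := by
    rw [Real.exp_add, Real.exp_log (by positivity)]
    ring
  rw [e3, Real.exp_le_exp] at e2
  have := log_err n
  linarith

include hω hexp hR in
/-- Lyapunov's inequality -/
lemma lyap (h : Fin 1 → ℝ) {θ₁ θ₂ : ℝ} (h0 : 0 ≤ θ₁) (h12 : θ₁ ≤ θ₂) (h2 : 0 < θ₂)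
    (h3 : θ₂ ≤ 1 / 4) : Λ h θ₁ ≤ θ₁ / θ₂ * Λ h θ₂ := by
  apply le_of_em hω hexp hR h0 (h12.trans h3)
  intro n
  set p := θ₁ / θ₂ with hp
  have hp0 : 0 ≤ p := by positivity
  have hp1 : p ≤ 1 := (div_le_one h2).2 h12
  have hi1 := int_exp le_rfl hω hexp β h 0 0 n (θ := θ₁) (by rw [abs_of_nonneg h0]; linarith)
  have hi2 := int_exp le_rfl hω hexp β h 0 0 n (θ := θ₂) (by rw [abs_of_pos h2]; linarith)
  have key : ∀ x, Real.exp (-(n * (p * Λ h θ₂))) * Real.exp (θ₁ * lw ω β h 0 0 n x) ≤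
      p * Real.exp (-(n * Λ h θ₂)) * Real.exp (θ₂ * lw ω β h 0 0 n x) + (1 - p) := by
    intro x
    have h4 := Real.geom_mean_le_arith_mean2_weighted hp0 (show 0 ≤ 1 - p by linarith)
      (mul_nonneg (Real.exp_pos (-(n * Λ h θ₂))).le
        (Real.exp_pos (θ₂ * lw ω β h 0 0 n x)).le) zero_le_one (by ring)
    rw [Real.one_rpow, mul_one, ← Real.exp_add, ← Real.exp_mul] at h4
    have e : (-(n * Λ h θ₂) + θ₂ * lw ω β h 0 0 n x) * p =
        -(n * (p * Λ h θ₂)) + θ₁ * lw ω β h 0 0 n x := by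
      have : θ₂ * p = θ₁ := by rw [hp]; field_simp
      rw [← this]; ring
    rw [e, Real.exp_add, Real.exp_add] at h4
    linarith
  have h5 : Real.exp (-(n * (p * Λ h θ₂))) * em P ω β h θ₁ n ≤ 1 := by
    unfold em
    rw [← integral_const_mul]
    refine (integral_mono (hi1.const_mul _) ((hi2.const_mul _).add (integrable_const _)) key).trans
      ?_
    have e := integral_add (hi2.const_mul (p * Real.exp (-(n * Λ h θ₂))))
      (integrable_const (μ := P) (1 - p))
    simp only [Pi.add_apply]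
    rw [e, integral_const_mul]
    simp only [integral_const, probReal_univ, one_smul]
    have f1 : Real.exp (-(n * Λ h θ₂)) * em P ω β h θ₂ n ≤ 1 := by
      calc _ ≤ Real.exp (-(n * Λ h θ₂)) * Real.exp (n * Λ h θ₂) :=
            mul_le_mul_of_nonneg_left (hR.em_le h θ₂ h2.le h3 n) (Real.exp_pos _).le
        _ = 1 := by rw [← Real.exp_add]; simp
    unfold em at f1
    have f2 := mul_le_mul_of_nonneg_left f1 hp0
    linarith
  rw [Real.exp_neg, inv_mul_le_iff₀ (Real.exp_pos _), mul_one] at h5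
  exact h5

lemma part_sq_le (h : Fin 1 → ℝ) (s : ℝ) (η : ℕ → (Fin 1 → ℤ) → ℝ) (n : ℕ) :
    part β h η n Set.univ ^ 2 ≤ part β (h + Pi.single 0 s) η n Set.univ *
      part β (h + Pi.single 0 (-s)) η n Set.univ := by
  rw [part_eq, part_eq, part_eq]
  have h1 := Finset.sum_mul_sq_le_sq_mul_sq (Finset.univ : Finset (Fin n → Step 1))
    (fun w => Real.exp ((β * energy η w + (h 0 + s) * (pos w n 0 : ℝ)) / 2))
    (fun w => Real.exp ((β * energy η w + (h 0 + -s) * (pos w n 0 : ℝ)) / 2))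
  have e1 : ∀ w : Fin n → Step 1, Real.exp ((β * energy η w + (h 0 + s) * (pos w n 0 : ℝ)) / 2) *
      Real.exp ((β * energy η w + (h 0 + -s) * (pos w n 0 : ℝ)) / 2) = wt β h η w := by
    intro w
    unfold wt
    rw [← Real.exp_add, Fin.sum_univ_one]
    congr 1
    ring
  have e2 : ∀ (t : ℝ) (w : Fin n → Step 1),
      Real.exp ((β * energy η w + (h 0 + t) * (pos w n 0 : ℝ)) / 2) ^ 2 =
      wt β (h + Pi.single 0 t) η w := by
    intro t w
    unfold wt
    rw [← Real.exp_nat_mul, Fin.sum_univ_one, Pi.add_apply, Pi.single_eq_same]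
    congr 1
    push_cast
    ring
  simp only [e1, e2] at h1
  exact h1

lemma lw_mid (h : Fin 1 → ℝ) (s : ℝ) (n : ℕ) (x : Ω) : 2 * lw ω β h 0 0 n x ≤
    lw ω β (h + Pi.single 0 s) 0 0 n x + lw ω β (h + Pi.single 0 (-s)) 0 0 n x := by
  unfold lw
  rw [← Real.log_mul (part_pos le_rfl _ _ _ _).ne' (part_pos le_rfl _ _ _ _).ne']
  have e : 2 * Real.log (part β h (fun i y => ω (0 + i) (0 + y) x) n Set.univ) =
      Real.log (part β h (fun i y => ω (0 + i) (0 + y) x) n Set.univ ^ 2) := by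
    rw [Real.log_pow]; norm_num
  rw [e]
  exact Real.log_le_log (pow_pos (part_pos le_rfl _ _ _ _) 2) (part_sq_le h s _ n)

include hω hexp hR in
/-- midpoint convexity in the drift -/
lemma mid (h : Fin 1 → ℝ) (s : ℝ) {θ : ℝ} (h0 : 0 ≤ θ) (h1 : θ ≤ 1 / 4) :
    2 * Λ h θ ≤ Λ (h + Pi.single 0 s) θ + Λ (h + Pi.single 0 (-s)) θ := by
  set L1 := Λ (h + Pi.single 0 s) θ with hL1
  set L2 := Λ (h + Pi.single 0 (-s)) θ with hL2
  have habs : |θ| ≤ 1 / 4 := by rwa [abs_of_nonneg h0]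
  have : Λ h θ ≤ (L1 + L2) / 2 := by
    apply le_of_em hω hexp hR h0 h1
    intro n
    have hi1 := int_exp le_rfl hω hexp β (h + Pi.single 0 s) 0 0 n habs
    have hi2 := int_exp le_rfl hω hexp β (h + Pi.single 0 (-s)) 0 0 n habs
    have hi := int_exp le_rfl hω hexp β h 0 0 n habs
    have key : ∀ x, Real.exp (-(n * ((L1 + L2) / 2))) * Real.exp (θ * lw ω β h 0 0 n x) ≤
        1 / 2 * Real.exp (-(n * L1)) * Real.exp (θ * lw ω β (h + Pi.single 0 s) 0 0 n x) +
        1 / 2 * Real.exp (-(n * L2)) * Real.exp (θ * lw ω β (h + Pi.single 0 (-s)) 0 0 n x) := by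
      intro x
      set a := lw ω β (h + Pi.single 0 s) 0 0 n x with ha
      set b := lw ω β (h + Pi.single 0 (-s)) 0 0 n x with hb
      have h2 := lw_mid (ω := ω) (β := β) h s n x
      rw [← ha, ← hb] at h2
      have h3 : θ * lw ω β h 0 0 n x ≤ θ * ((a + b) / 2) := by
        apply mul_le_mul_of_nonneg_left _ h0
        linarith
      set u := (-(n * L1) + θ * a) / 2 with hu
      set v := (-(n * L2) + θ * b) / 2 with hv
      have h4 : Real.exp (-(n * ((L1 + L2) / 2))) * Real.exp (θ * lw ω β h 0 0 n x) ≤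
          Real.exp u * Real.exp v := by
        rw [← Real.exp_add, ← Real.exp_add]
        apply Real.exp_le_exp.2
        rw [hu, hv]
        linarith
      have h5 : Real.exp (-(n * L1)) * Real.exp (θ * a) = Real.exp u ^ 2 := by
        rw [← Real.exp_add, ← Real.exp_nat_mul]
        congr 1
        rw [hu]; push_cast; ring
      have h6 : Real.exp (-(n * L2)) * Real.exp (θ * b) = Real.exp v ^ 2 := by
        rw [← Real.exp_add, ← Real.exp_nat_mul]
        congr 1
        rw [hv]; push_cast; ring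
      have h7 := sq_nonneg (Real.exp u - Real.exp v)
      nlinarith
    have h5 : Real.exp (-(n * ((L1 + L2) / 2))) * em P ω β h θ n ≤ 1 := by
      unfold em
      rw [← integral_const_mul]
      refine (integral_mono (hi.const_mul _) ((hi1.const_mul _).add (hi2.const_mul _)) key).trans
        ?_
      have e := integral_add (hi1.const_mul (1 / 2 * Real.exp (-(n * L1))))
        (hi2.const_mul (1 / 2 * Real.exp (-(n * L2))))
      simp only [Pi.add_apply]
      rw [e, integral_const_mul, integral_const_mul]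
      have f : ∀ h' : Fin 1 → ℝ, Real.exp (-(n * Λ h' θ)) * em P ω β h' θ n ≤ 1 := by
        intro h'
        calc _ ≤ Real.exp (-(n * Λ h' θ)) * Real.exp (n * Λ h' θ) :=
              mul_le_mul_of_nonneg_left (hR.em_le h' θ h0 h1 n) (Real.exp_pos _).le
          _ = 1 := by rw [← Real.exp_add]; simp
      have f1 := f (h + Pi.single 0 s)
      have f2 := f (h + Pi.single 0 (-s))
      rw [← hL1] at f1
      rw [← hL2] at f2
      unfold em at f1 f2
      linarith
    rw [Real.exp_neg, inv_mul_le_iff₀ (Real.exp_pos _), mul_one] at h5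
    exact h5
  linarith

lemma lw_lip (h : Fin 1 → ℝ) (s : ℝ) (n : ℕ) (x : Ω) :
    lw ω β (h + Pi.single 0 s) 0 0 n x ≤ lw ω β h 0 0 n x + n * |s| := by
  unfold lw
  have h1 : part β (h + Pi.single 0 s) (fun i y => ω (0 + i) (0 + y) x) n Set.univ ≤
      Real.exp (n * |s|) * part β h (fun i y => ω (0 + i) (0 + y) x) n Set.univ := by
    rw [part_eq, part_eq, Finset.mul_sum]
    apply Finset.sum_le_sum
    intro w _
    unfold wt
    rw [← Real.exp_add, Fin.sum_univ_one, Fin.sum_univ_one, Pi.add_apply, Pi.single_eq_same]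
    apply Real.exp_le_exp.2
    have h2 : |(pos w n 0 : ℝ)| ≤ n := by
      have := abs_pos_le w n 0
      exact_mod_cast this
    have h3 : s * (pos w n 0 : ℝ) ≤ |s| * n := by
      calc s * (pos w n 0 : ℝ) ≤ |s * (pos w n 0 : ℝ)| := le_abs_self _
        _ = |s| * |(pos w n 0 : ℝ)| := abs_mul _ _
        _ ≤ |s| * n := mul_le_mul_of_nonneg_left h2 (abs_nonneg _)
    linarith
  have h2 := Real.log_le_log (part_pos le_rfl _ _ _ _) h1
  rw [Real.log_mul (Real.exp_pos _).ne' (part_pos le_rfl _ _ _ _).ne', Real.log_exp] at h2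
  linarith

include hω hexp hR in
/-- Lipschitz continuity in the drift -/
lemma lip (h : Fin 1 → ℝ) (s : ℝ) {θ : ℝ} (h0 : 0 ≤ θ) (h1 : θ ≤ 1 / 4) :
    Λ (h + Pi.single 0 s) θ ≤ Λ h θ + θ * |s| := by
  have habs : |θ| ≤ 1 / 4 := by rwa [abs_of_nonneg h0]
  apply le_of_em hω hexp hR h0 h1
  intro n
  have e1 : em P ω β (h + Pi.single 0 s) θ n ≤ Real.exp (θ * (n * |s|)) * em P ω β h θ n := by
    unfold em
    rw [← integral_const_mul]
    refine integral_mono (int_exp le_rfl hω hexp β _ 0 0 n habs)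
      ((int_exp le_rfl hω hexp β h 0 0 n habs).const_mul _) fun x => ?_
    have h2 := lw_lip (ω := ω) (β := β) h s n x
    generalize lw ω β (h + Pi.single 0 s) 0 0 n x = a at h2 ⊢
    generalize lw ω β h 0 0 n x = b at h2 ⊢
    rw [← Real.exp_add]
    apply Real.exp_le_exp.2
    have h3 := mul_le_mul_of_nonneg_left h2 h0
    rw [mul_add] at h3
    linarith
  refine e1.trans ?_
  calc Real.exp (θ * (n * |s|)) * em P ω β h θ n ≤
      Real.exp (θ * (n * |s|)) * Real.exp (n * Λ h θ) :=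
        mul_le_mul_of_nonneg_left (hR.em_le h θ h0 h1 n) (Real.exp_pos _).le
    _ = _ := by
        rw [← Real.exp_add]
        congr 1
        ring

/-- the constant of the gain -/
noncomputable def c0 (P : Measure Ω) (ω : ℕ → (Fin 1 → ℤ) → Ω → ℝ) (β a₀ b₀ : ℝ) : ℝ :=
  (1 - Real.exp (-(β * (b₀ - a₀)))) ^ 2 /
    (4 * (1 / (P.map (ω 1 0)).real (Set.Ici b₀) + 1 / (P.map (ω 1 0)).real (Set.Iic a₀)))

include hω hexp hR in
/-- the key estimate -/
lemma key {a₀ b₀ : ℝ} (hab : a₀ < b₀)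
    (hp : 0 < (P.map (ω 1 0)).real (Set.Ici b₀)) (hm : 0 < (P.map (ω 1 0)).real (Set.Iic a₀))
    (hβ : 0 < β) (h : Fin 1 → ℝ) {n : ℕ} (hn : 1 ≤ n) {s r θ : ℝ} (hr : 0 ≤ r)
    (h0 : 0 < θ) (h1 : θ ≤ 1 / 8) (hs : 0 < s)
    (hL : Real.log (4 * (n + 1) * (2 * n + 1) ^ 2) ≤ θ * (s * r) -
      n * ((Λ (h + Pi.single 0 s) θ + Λ (h + Pi.single 0 (-s)) θ - 2 * Λ h θ) / 2)) :
    c0 P ω β a₀ b₀ * θ ^ 2 * (n / (2 * r + 1)) - 2 * Real.log (2 * (2 * n + 1)) ≤
      n * (Λ h (2 * θ) - 2 * Λ h θ) := by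
  set L1 := Λ (h + Pi.single 0 s) θ with hL1
  set L2 := Λ (h + Pi.single 0 (-s)) θ with hL2
  set M := (L1 + L2 - 2 * Λ h θ) / 2 with hM
  have hM0 : 0 ≤ M := by
    have := mid hω hexp hR h s h0.le (by linarith)
    rw [hM]
    linarith
  set v := (L1 - L2) / (2 * (θ * s)) with hv
  have hθs : 0 < θ * s := mul_pos h0 hs
  have hsv : θ * (s * v) = (L1 - L2) / 2 := by
    rw [hv]
    field_simp
  have he := esc hω hexp hR h n (s := s) (r := r) (v := v) (M := M) h0 (by linarith) hs hM0 (by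
    intro t ht
    rcases ht with rfl | rfl
    · rw [hsv, ← hL1, hM]
      linarith
    · rw [← hL2, neg_mul, mul_neg, hsv, hM]
      linarith)
  have hesc : ∫ x, part β h (fun i y => ω i y x) n (tb n v r)ᶜ ^ θ ∂P ≤
      Real.exp (n * Λ h θ) / (2 * (2 * n + 1)) := by
    refine he.trans ?_
    rw [le_div_iff₀ (by positivity)]
    have e1 : 2 * ((n : ℝ) + 1) * (2 * n + 1) * Real.exp (n * Λ h θ - θ * (s * r) + n * M) *
        (2 * (2 * n + 1)) = 4 * (n + 1) * (2 * n + 1) ^ 2 *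
          Real.exp (n * Λ h θ - θ * (s * r) + n * M) := by ring
    have e2 : 4 * ((n : ℝ) + 1) * (2 * n + 1) ^ 2 =
        Real.exp (Real.log (4 * (n + 1) * (2 * n + 1) ^ 2)) := by
      rw [Real.exp_log (by positivity)]
    rw [e1, e2, ← Real.exp_add]
    apply Real.exp_le_exp.2
    linarith
  have hc := core hω hexp hR hab hp hm hβ h hn hr h0 h1 hesc
  refine le_trans (le_of_eq ?_) hc
  unfold c0
  ring

end U874.RG
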