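import Pool.Agent.U874.RG.Tail
import Pool.Agent.U874.RG.Fin

/-!
# Large deviations of the upper tail
-/

set_option autoImplicit false
set_option linter.unusedSectionVars false

open MeasureTheory ProbabilityTheory Filter Topology

namespace U874.RG

open Pool.Agent.N662.SE (IsEnv lw)

variable {Ω : Type} [MeasurableSpace Ω] {P : Measure Ω} [IsProbabilityMeasure P]
  {ω : ℕ → (Fin 1 → ℤ) → Ω → ℝ} (hω : IsEnv P ω)
  (hexp : ∀ b : ℝ, Integrable (fun x => Real.exp (b * ω 1 0 x)) P) {β : ℝ}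
  {φ : (Fin 1 → ℝ) → ℝ} {Λ : (Fin 1 → ℝ) → ℝ → ℝ} {C : ℝ} (hR : IsRate P ω β φ Λ C)

include hω hexp hR in
lemma block (h : Fin 1 → ℝ) {θ ε : ℝ} (h0 : 0 < θ) (h1 : θ ≤ 1 / 8) (hε : 0 < ε)
    (hg : θ * φ h + 4 * θ * ε ≤ Λ h θ) (N₁ : ℕ) : ∃ N : ℕ, N₁ ≤ N ∧
      Real.exp (-(2 * ε * θ * N)) ≤ ut P ω β h N (N * (φ h + ε)) := by
  obtain ⟨m₁, hm₁⟩ := eventually_atTop.1 (ut_typ hω hexp hR h (show 0 < ε / 4 by positivity))
  have a1 : ∀ᶠ n : ℕ in atTop, Real.log (2 * n + 1) ≤ 3 / 8 * (n * ε) := by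
    have h2 := (tendsto_err.const_mul 2).eventually
      (gt_mem_nhds (show (2 : ℝ) * 0 < 3 / 8 * ε by
        have : 0 < 3 / 8 * ε := by positivity
        linarith))
    filter_upwards [h2, eventually_ge_atTop 1] with n hn hn1
    have hn0 : (0 : ℝ) < n := by exact_mod_cast hn1
    refine (log_err n).trans ?_
    have e : 2 * (Real.sqrt n * Real.log (n + 1)) =
        n * (2 * (Real.sqrt n * Real.log (n + 1) / n)) := by field_simp
    rw [e]
    have := mul_le_mul_of_nonneg_left hn.le hn0.le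
    linarith
  have a2 : ∀ᶠ n : ℕ in atTop, 2 * (2 * (n : ℝ) + 1) ≤ Real.exp (θ * ε * (n - 2)) := by
    have hc : 0 < θ * ε := by positivity
    have q : ∀ k : ℕ, Tendsto (fun n : ℕ => (n : ℝ) ^ k * Real.exp (-(θ * ε * n))) atTop
        (𝓝 0) := by
      intro k
      have h2 := (Real.tendsto_pow_mul_exp_neg_atTop_nhds_zero k).comp
        (tendsto_natCast_atTop_atTop.const_mul_atTop hc)
      have h3 := h2.const_mul ((1 / (θ * ε)) ^ k)
      rw [mul_zero] at h3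
      refine h3.congr fun n => ?_
      simp only [Function.comp_apply]
      rw [mul_pow (θ * ε), one_div, inv_pow]
      field_simp
    have t := ((q 1).const_mul (4 * Real.exp (2 * (θ * ε)))).add
      ((q 0).const_mul (2 * Real.exp (2 * (θ * ε))))
    simp only [mul_zero, add_zero] at t
    filter_upwards [t.eventually (gt_mem_nhds one_pos)] with n hn
    have e1 : 4 * Real.exp (2 * (θ * ε)) * ((n : ℝ) ^ 1 * Real.exp (-(θ * ε * n))) +
        2 * Real.exp (2 * (θ * ε)) * ((n : ℝ) ^ 0 * Real.exp (-(θ * ε * n))) =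
        2 * (2 * n + 1) * Real.exp (-(θ * ε * (n - 2))) := by
      have : Real.exp (-(θ * ε * (n - 2))) = Real.exp (2 * (θ * ε)) * Real.exp (-(θ * ε * n)) := by
        rw [← Real.exp_add]
        congr 1
        ring
      rw [this]
      ring
    rw [e1] at hn
    have h5 := mul_lt_mul_of_pos_right hn (Real.exp_pos (θ * ε * (n - 2)))
    rw [one_mul, mul_assoc, ← Real.exp_add, neg_add_cancel, Real.exp_zero, mul_one] at h5
    exact h5.le
  obtain ⟨n, ht, hn1, hn2, hn3, hn4, hn5⟩ := ((ut_tilt hω hexp hR h h0 h1 hε hg).and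
    (a1.and (a2.and ((eventually_ge_atTop N₁).and ((eventually_ge_atTop (2 * m₁ + 2)).and
      (eventually_ge_atTop 1)))))).exists
  obtain ⟨t, ht1, ht2⟩ := ht
  have hn0 : (0 : ℝ) < n := by exact_mod_cast hn5
  set m := ⌊(n : ℝ) * (t - ε) / (2 * ε)⌋₊ with hm
  have hx0 : 0 ≤ (n : ℝ) * (t - ε) / (2 * ε) := by
    have : 0 ≤ t - ε := by linarith
    positivity
  have hmle : (m : ℝ) ≤ n * (t - ε) / (2 * ε) := Nat.floor_le hx0
  have hmlt : (n : ℝ) * (t - ε) / (2 * ε) < m + 1 := Nat.lt_floor_add_one _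
  have hmle' : m * (2 * ε) ≤ n * (t - ε) := by
    rwa [le_div_iff₀ (by positivity)] at hmle
  have hmlt' : n * (t - ε) < (m + 1) * (2 * ε) := by
    rwa [div_lt_iff₀ (by positivity)] at hmlt
  have hmm : m₁ ≤ m := by
    have h2 : (n : ℝ) / 2 ≤ n * (t - ε) / (2 * ε) := by
      rw [div_le_div_iff₀ (by norm_num) (by positivity)]
      have : (n : ℝ) * ε ≤ n * (t - ε) := mul_le_mul_of_nonneg_left (by linarith) hn0.le
      linarith
    have h3 : (2 * m₁ + 2 : ℝ) ≤ n := by exact_mod_cast hn4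
    have h4 : (m₁ : ℝ) < m + 1 := by linarith
    have h5 : m₁ < m + 1 := by exact_mod_cast h4
    omega
  have hmul := ut_mul hω (β := β) h n m (n * (φ h + t)) (m * (φ h - ε / 4))
  have hthr : ((n + m : ℕ) : ℝ) * (φ h + ε) ≤
      n * (φ h + t) + m * (φ h - ε / 4) - Real.log (2 * n + 1) := by
    push_cast
    have h2 : (n : ℝ) * ε ≤ n * (t - ε) := mul_le_mul_of_nonneg_left (by linarith) hn0.le
    nlinarith
  refine ⟨n + m, by omega, ?_⟩
  have hanti := ut_anti (P := P) (ω := ω) (β := β) h (n + m) hthr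
  have h6 : Real.exp (-(n * θ * t)) * (1 / 2) ≤
      (2 * n + 1) * ut P ω β h (n + m) (((n + m : ℕ) : ℝ) * (φ h + ε)) := by
    calc Real.exp (-(n * θ * t)) * (1 / 2) ≤ ut P ω β h n (n * (φ h + t)) *
          ut P ω β h m (m * (φ h - ε / 4)) :=
          mul_le_mul ht2 (hm₁ m hmm) (by norm_num) measureReal_nonneg
      _ ≤ _ := hmul
      _ ≤ _ := mul_le_mul_of_nonneg_left hanti (by positivity)
  have h7 : Real.exp (-(2 * ε * θ * ((n + m : ℕ) : ℝ))) * (2 * (2 * n + 1)) ≤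
      Real.exp (-(n * θ * t)) := by
    calc Real.exp (-(2 * ε * θ * ((n + m : ℕ) : ℝ))) * (2 * (2 * n + 1)) ≤
        Real.exp (-(2 * ε * θ * ((n + m : ℕ) : ℝ))) * Real.exp (θ * ε * (n - 2)) :=
          mul_le_mul_of_nonneg_left hn2 (Real.exp_pos _).le
      _ = Real.exp (-(2 * ε * θ * ((n + m : ℕ) : ℝ)) + θ * ε * (n - 2)) := (Real.exp_add _ _).symm
      _ ≤ _ := by
          apply Real.exp_le_exp.2
          push_cast
          have h8 := mul_lt_mul_of_pos_left hmlt' h0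
          nlinarith
  have h9 : (2 * (2 * (n : ℝ) + 1)) * Real.exp (-(2 * ε * θ * ((n + m : ℕ) : ℝ))) ≤
      (2 * (2 * (n : ℝ) + 1)) * ut P ω β h (n + m) (((n + m : ℕ) : ℝ) * (φ h + ε)) := by
    linarith
  exact le_of_mul_le_mul_left h9 (by positivity)

include hω in
lemma iter (h : Fin 1 → ℝ) {N₀ : ℕ} {x ρ : ℝ} (hN : Real.exp (-ρ) ≤ ut P ω β h N₀ x) (k j : ℕ)
    (b : ℝ) : Real.exp (-(k * (ρ + Real.log (2 * N₀ + 1)))) * ut P ω β h j b ≤
      ut P ω β h (k * N₀ + j) (k * (x - Real.log (2 * N₀ + 1)) + b) := by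
  have hN0 : (0 : ℝ) < 2 * N₀ + 1 := by positivity
  induction k with
  | zero => simp
  | succ k ih =>
    have h1 := ut_mul hω (β := β) h N₀ (k * N₀ + j) x (k * (x - Real.log (2 * N₀ + 1)) + b)
    have e1 : N₀ + (k * N₀ + j) = (k + 1) * N₀ + j := by ring
    have e2 : x + (k * (x - Real.log (2 * N₀ + 1)) + b) - Real.log (2 * N₀ + 1) =
        ((k + 1 : ℕ) : ℝ) * (x - Real.log (2 * N₀ + 1)) + b := by
      push_cast
      ring
    rw [e1, e2] at h1
    have h2 : Real.exp (-ρ) * (Real.exp (-(k * (ρ + Real.log (2 * N₀ + 1)))) * ut P ω β h j b) ≤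
        (2 * N₀ + 1) * ut P ω β h ((k + 1) * N₀ + j)
          (((k + 1 : ℕ) : ℝ) * (x - Real.log (2 * N₀ + 1)) + b) :=
      (mul_le_mul hN ih (mul_nonneg (Real.exp_pos _).le measureReal_nonneg)
        measureReal_nonneg).trans h1
    have e3 : Real.exp (-(((k + 1 : ℕ) : ℝ) * (ρ + Real.log (2 * N₀ + 1)))) * (2 * N₀ + 1) =
        Real.exp (-ρ) * Real.exp (-(k * (ρ + Real.log (2 * N₀ + 1)))) := by
      nth_rewrite 2 [← Real.exp_log hN0]
      rw [← Real.exp_add, ← Real.exp_add]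
      congr 1
      push_cast
      ring
    have h3 : (2 * (N₀ : ℝ) + 1) * (Real.exp (-(((k + 1 : ℕ) : ℝ) *
        (ρ + Real.log (2 * N₀ + 1)))) * ut P ω β h j b) ≤
        (2 * N₀ + 1) * ut P ω β h ((k + 1) * N₀ + j)
          (((k + 1 : ℕ) : ℝ) * (x - Real.log (2 * N₀ + 1)) + b) := by
      calc _ = (Real.exp (-(((k + 1 : ℕ) : ℝ) * (ρ + Real.log (2 * N₀ + 1)))) * (2 * N₀ + 1)) *
            ut P ω β h j b := by ring
        _ = _ := by rw [e3, mul_assoc]
        _ ≤ _ := h2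
    exact le_of_mul_le_mul_left h3 hN0

include hω hexp hR in
/-- the lower bound of the upper tail -/
lemma ld_lower (h : Fin 1 → ℝ) {θ ε : ℝ} (h0 : 0 < θ) (h1 : θ ≤ 1 / 8) (hε : 0 < ε)
    (hg : θ * φ h + 8 * θ * ε ≤ Λ h θ) : ∀ᶠ N : ℕ in atTop,
      Real.exp (-(6 * θ * ε * N)) ≤ ut P ω β h N (N * (φ h + ε)) := by
  -- the block
  have a1 : ∀ c : ℝ, 0 < c → ∀ᶠ n : ℕ in atTop, Real.log (2 * n + 1) ≤ c * n := by
    intro c hc
    have h2 := (tendsto_err.const_mul 2).eventually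
      (gt_mem_nhds (show (2 : ℝ) * 0 < c by linarith))
    filter_upwards [h2, eventually_ge_atTop 1] with n hn hn1
    have hn0 : (0 : ℝ) < n := by exact_mod_cast hn1
    refine (log_err n).trans ?_
    have e : 2 * (Real.sqrt n * Real.log (n + 1)) =
        (2 * (Real.sqrt n * Real.log (n + 1) / n)) * n := by field_simp
    rw [e]
    exact mul_le_mul_of_nonneg_right hn.le hn0.le
  obtain ⟨N₁, hN₁⟩ := eventually_atTop.1 ((a1 (ε / 2) (by positivity)).and
    ((a1 (θ * ε) (by positivity)).and (eventually_ge_atTop 1)))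
  obtain ⟨N₀, hN₀, hblock⟩ := block hω hexp hR h h0 h1 (show 0 < 2 * ε by positivity)
    (by linarith) N₁
  obtain ⟨b1, b2, b3⟩ := hN₁ N₀ hN₀
  have hN₀0 : (0 : ℝ) < N₀ := by exact_mod_cast b3
  obtain ⟨J₀, hJ₀⟩ := eventually_atTop.1 (ut_typ hω hexp hR h hε)
  have a3 : ∀ᶠ N : ℕ in atTop, (2 : ℝ) ≤ Real.exp (θ * ε * N) := by
    have : Tendsto (fun N : ℕ => Real.exp (θ * ε * N)) atTop atTop :=
      Real.tendsto_exp_atTop.comp
        (tendsto_natCast_atTop_atTop.const_mul_atTop (show 0 < θ * ε by positivity))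
    exact this.eventually (eventually_ge_atTop 2)
  filter_upwards [a3, eventually_ge_atTop (5 * (J₀ + N₀))] with N c1 c2
  set k := (N - J₀) / N₀ with hk
  set j := J₀ + (N - J₀) % N₀ with hj
  have hjlt : j < J₀ + N₀ := by
    have := Nat.mod_lt (N - J₀) b3
    omega
  have hNk : k * N₀ + j = N := by
    have h2 := Nat.div_add_mod (N - J₀) N₀
    have h3 : N₀ * ((N - J₀) / N₀) = k * N₀ := by rw [hk, mul_comm]
    omega
  have h4j : 4 * j ≤ k * N₀ := by omega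
  have h4j' : 4 * (j : ℝ) ≤ k * N₀ := by exact_mod_cast h4j
  have hNk' : (k : ℝ) * N₀ + j = N := by exact_mod_cast hNk
  have hit := iter hω h (ρ := 2 * (2 * ε) * θ * N₀) (x := N₀ * (φ h + 2 * ε)) (by
    exact hblock) k j (j * (φ h - ε))
  rw [hNk] at hit
  have hJ := hJ₀ j (by omega)
  have hthr : (N : ℝ) * (φ h + ε) ≤
      k * (N₀ * (φ h + 2 * ε) - Real.log (2 * N₀ + 1)) + j * (φ h - ε) := by
    rw [← hNk']
    have h2 : (k : ℝ) * Real.log (2 * N₀ + 1) ≤ k * (ε / 2 * N₀) :=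
      mul_le_mul_of_nonneg_left b1 (Nat.cast_nonneg _)
    have h3 := mul_le_mul_of_nonneg_left h4j' hε.le
    nlinarith
  have hanti := ut_anti (P := P) (ω := ω) (β := β) h N hthr
  refine le_trans ?_ hanti
  refine le_trans ?_ hit
  have h5 : Real.exp (-(k * (2 * (2 * ε) * θ * N₀ + Real.log (2 * N₀ + 1)))) * (1 / 2) ≤
      Real.exp (-(k * (2 * (2 * ε) * θ * N₀ + Real.log (2 * N₀ + 1)))) *
        ut P ω β h j (j * (φ h - ε)) := mul_le_mul_of_nonneg_left hJ (Real.exp_pos _).le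
  refine le_trans ?_ h5
  have h6 : Real.exp (-(5 * θ * ε * N)) ≤
      Real.exp (-(k * (2 * (2 * ε) * θ * N₀ + Real.log (2 * N₀ + 1)))) := by
    apply Real.exp_le_exp.2
    have h2 : (k : ℝ) * Real.log (2 * N₀ + 1) ≤ k * (θ * ε * N₀) :=
      mul_le_mul_of_nonneg_left b2 (Nat.cast_nonneg _)
    have h3 : (k : ℝ) * N₀ ≤ N := by
      have : (0 : ℝ) ≤ j := Nat.cast_nonneg j
      linarith
    have h7 := mul_le_mul_of_nonneg_left h3 (show 0 ≤ 5 * θ * ε by positivity)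
    nlinarith
  have h7 : Real.exp (-(6 * θ * ε * N)) * 2 ≤ Real.exp (-(5 * θ * ε * N)) := by
    calc Real.exp (-(6 * θ * ε * N)) * 2 ≤ Real.exp (-(6 * θ * ε * N)) * Real.exp (θ * ε * N) :=
          mul_le_mul_of_nonneg_left c1 (Real.exp_pos _).le
      _ = _ := by
          rw [← Real.exp_add]
          congr 1
          ring
  linarith

/-- from the gap to large deviations -/
lemma ld_of_gap {h : Fin 1 → ℝ} (hω : IsEnv P ω)
    (hexp : ∀ b : ℝ, Integrable (fun x => Real.exp (b * ω 1 0 x)) P) (hR : IsRate P ω β φ Λ C)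
    (hgap : ∀ p : ℝ, 5 < p → ∀ᶠ θ : ℝ in 𝓝[>] 0, θ ^ p ≤ Λ h θ - θ * φ h) {κ : ℝ}
    (hκ : κ < 5 / 4) : ∀ᶠ ε : ℝ in 𝓝[>] 0, ∀ᶠ N : ℕ in atTop,
      Real.exp (-(ε ^ κ * N)) ≤ ut P ω β h N (N * (φ h + ε)) := by
  set κ' := max κ (9 / 8) with hκ'
  have hκ1 : κ' < 5 / 4 := max_lt hκ (by norm_num)
  have hκ2 : 9 / 8 ≤ κ' := le_max_right _ _
  have hκ3 : κ ≤ κ' := le_max_left _ _
  have hk0 : 0 < κ' - 1 := by linarith
  have h5 : 4 < 1 / (κ' - 1) := by
    rw [lt_div_iff₀ hk0]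
    linarith
  set p := (5 + (1 + 1 / (κ' - 1))) / 2 with hp
  have hp5 : 5 < p := by rw [hp]; linarith
  have hp1 : 0 < p - 1 := by linarith
  have hpk : κ' - 1 < 1 / (p - 1) := by
    rw [lt_div_iff₀ hp1]
    have h6 : p - 1 < 1 / (κ' - 1) := by rw [hp]; linarith
    calc (κ' - 1) * (p - 1) < (κ' - 1) * (1 / (κ' - 1)) := mul_lt_mul_of_pos_left h6 hk0
      _ = 1 := by field_simp
  set e := 1 / (p - 1) with he
  have he0 : 0 < e := by positivity
  -- θ(ε) = (8 ε)^e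
  have hθt : Tendsto (fun ε : ℝ => (8 * ε) ^ e) (𝓝[>] 0) (𝓝[>] 0) := by
    rw [tendsto_nhdsWithin_iff]
    constructor
    · have h2 : ContinuousAt (fun ε : ℝ => (8 * ε) ^ e) 0 :=
        ContinuousAt.rpow_const (by fun_prop) (Or.inr he0.le)
      have h3 := h2.tendsto
      rw [mul_zero, Real.zero_rpow he0.ne'] at h3
      exact h3.mono_left nhdsWithin_le_nhds
    · filter_upwards [self_mem_nhdsWithin] with ε hε
      have : (0 : ℝ) < ε := hε
      exact Real.rpow_pos_of_pos (by positivity) _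
  have hsm : ∀ᶠ θ : ℝ in 𝓝[>] 0, θ < 1 / 8 :=
    nhdsWithin_le_nhds (gt_mem_nhds (by norm_num))
  have hc : (0 : ℝ) < 1 / (6 * 8 ^ e) := by positivity
  filter_upwards [hθt.eventually (hgap p hp5), hθt.eventually hsm,
    ev_rpow (c := 1 / (6 * 8 ^ e)) (p := e + 1) (p' := κ') hc (by linarith),
    self_mem_nhdsWithin, hsm] with ε g1 g2 g3 g4 g5
  have hε : (0 : ℝ) < ε := g4
  set θ := (8 * ε) ^ e with hθ
  have hθ0 : 0 < θ := Real.rpow_pos_of_pos (by positivity) _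
  have hθp : θ ^ p = 8 * θ * ε := by
    have e1 : θ ^ (p - 1) = 8 * ε := by
      rw [hθ, ← Real.rpow_mul (by positivity), he, one_div, inv_mul_cancel₀ hp1.ne',
        Real.rpow_one]
    calc θ ^ p = θ ^ (p - 1) * θ := by
          nth_rewrite 3 [← Real.rpow_one θ]
          rw [← Real.rpow_add hθ0]
          congr 1
          ring
      _ = _ := by rw [e1]; ring
  have hld := ld_lower hω hexp hR h hθ0 g2.le hε (by linarith)
  filter_upwards [hld] with N hN
  refine le_trans ?_ hN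
  apply Real.exp_le_exp.2
  apply neg_le_neg
  apply mul_le_mul_of_nonneg_right _ (Nat.cast_nonneg N)
  have e2 : 6 * θ * ε = 6 * 8 ^ e * ε ^ (e + 1) := by
    rw [hθ, Real.mul_rpow (by norm_num) hε.le, Real.rpow_add hε, Real.rpow_one]
    ring
  have e3 : 6 * 8 ^ e * ε ^ (e + 1) ≤ ε ^ κ' := by
    calc 6 * 8 ^ e * ε ^ (e + 1) ≤ 6 * 8 ^ e * (1 / (6 * 8 ^ e) * ε ^ κ') :=
          mul_le_mul_of_nonneg_left g3 (by positivity)
      _ = ε ^ κ' := by field_simp
  rw [e2]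
  exact e3.trans (Real.rpow_le_rpow_of_exponent_ge hε (by linarith) hκ3)

include hω hexp hR in
/-- the upper bound of the upper tail -/
lemma ld_upper (h : Fin 1 → ℝ) {ε : ℝ} (hε : 0 < ε) (hε1 : ε ≤ 1 / 2) (n : ℕ) :
    ut P ω β h n (n * (φ h + ε)) ≤ Real.exp (-(ε ^ 2 / (4 * C) * n)) := by
  have hC : 1 ≤ C := hR.C_pos
  set θ := ε / (2 * C) with hθ
  have hθ0 : 0 < θ := by positivity
  have hθ1 : θ ≤ 1 / 4 := by
    rw [hθ, div_le_iff₀ (by positivity)]
    linarith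
  have hi := int_exp le_rfl hω hexp β h 0 0 n (θ := θ) (by rw [abs_of_pos hθ0]; exact hθ1)
  have h1 := mul_meas_ge_le_integral_of_nonneg (μ := P)
    (f := fun x => Real.exp (θ * lw ω β h 0 0 n x))
    (Eventually.of_forall fun x => (Real.exp_pos _).le) hi
    (Real.exp (θ * (n * (φ h + ε))))
  have h2 : {x | Real.exp (θ * (n * (φ h + ε))) ≤ Real.exp (θ * lw ω β h 0 0 n x)} =
      {x | n * (φ h + ε) ≤ lw ω β h 0 0 n x} := by
    ext x
    simp only [Set.mem_ofPred_eq, Real.exp_le_exp]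
    exact mul_le_mul_iff_right₀ hθ0
  rw [h2] at h1
  have h3 := hR.em_le h θ hθ0.le hθ1 n
  unfold em at h3
  have h4 := hR.up h θ hθ0.le hθ1
  have h5 : Real.exp (θ * (n * (φ h + ε))) * ut P ω β h n (n * (φ h + ε)) ≤
      Real.exp (n * (θ * φ h + C * θ ^ 2)) := by
    refine (h1.trans h3).trans (Real.exp_le_exp.2 ?_)
    exact mul_le_mul_of_nonneg_left h4 (Nat.cast_nonneg n)
  have h6 : ut P ω β h n (n * (φ h + ε)) ≤
      Real.exp (n * (θ * φ h + C * θ ^ 2) - θ * (n * (φ h + ε))) := by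
    rw [Real.exp_sub, le_div_iff₀ (Real.exp_pos _)]
    linarith
  refine h6.trans (Real.exp_le_exp.2 (le_of_eq ?_))
  rw [hθ]
  field_simp
  ring

end U874.RG
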