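import Pool.Agent.U874.RG.Osc

/-!
# Assembly
-/

set_option autoImplicit false
set_option linter.unusedSectionVars false

open MeasureTheory ProbabilityTheory Filter Topology

namespace U874.RG

open Pool.Agent.N662.SE (IsEnv lw free logZ logZ_eq integral_logZ)

variable {Ω : Type} [MeasurableSpace Ω] {P : Measure Ω} [IsProbabilityMeasure P]
  {ω : ℕ → (Fin 1 → ℤ) → Ω → ℝ}

lemma tendsto_free {β : ℝ} {φ : (Fin 1 → ℝ) → ℝ} {Λ : (Fin 1 → ℝ) → ℝ → ℝ} {C : ℝ}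
    (hR : IsRate P ω β φ Λ C) (h : Fin 1 → ℝ) :
    Tendsto (fun n : ℕ => free P ω β h n / n) atTop (𝓝 (φ h)) := by
  have h1 : Tendsto (fun n : ℕ => φ h - C * (Real.sqrt n * Real.log (n + 1) / n)) atTop
      (𝓝 (φ h - C * 0)) := (tendsto_err.const_mul C).const_sub _
  rw [mul_zero, sub_zero] at h1
  refine tendsto_of_tendsto_of_tendsto_of_le_of_le' h1 tendsto_const_nhds ?_ ?_
  · filter_upwards [eventually_ge_atTop 1] with n hn
    have hn0 : (0 : ℝ) < n := by exact_mod_cast hn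
    rw [le_div_iff₀ hn0]
    have := hR.le_free h n
    have e : (φ h - C * (Real.sqrt n * Real.log (n + 1) / n)) * n =
        n * φ h - C * Real.sqrt n * Real.log (n + 1) := by field_simp
    rw [e]
    linarith
  · filter_upwards [eventually_ge_atTop 1] with n hn
    have hn0 : (0 : ℝ) < n := by exact_mod_cast hn
    rw [div_le_iff₀ hn0]
    have := hR.free_le h n
    linarith

/-- normalized and unnormalized free energy -/
lemma logZ_lw (β : ℝ) (h : Fin 1 → ℝ) (n : ℕ) (x : Ω) :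
    logZ β h (fun i y => ω i y x) n = lw ω β h 0 0 n x - n * Real.log 2 := by
  rw [logZ_eq le_rfl]
  norm_num

lemma log_em_eq (hω : IsEnv P ω)
    (hexp : ∀ b : ℝ, Integrable (fun x => Real.exp (b * ω 1 0 x)) P) (β : ℝ)
    (h : Fin 1 → ℝ) (θ : ℝ) (h0 : 0 < θ) (h1 : θ ≤ 1 / 4) (n : ℕ) :
    Real.log (∫ x, Real.exp (θ * logZ β h (fun i y => ω i y x) n) ∂P) =
      Real.log (em P ω β h θ n) - n * (θ * Real.log 2) := by
  have hpos := em_pos le_rfl hω hexp β h n (θ := θ) (by rw [abs_of_pos h0]; exact h1)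
  have e : ∫ x, Real.exp (θ * logZ β h (fun i y => ω i y x) n) ∂P =
      Real.exp (-(n * (θ * Real.log 2))) * em P ω β h θ n := by
    unfold em
    rw [← integral_const_mul]
    congr 1
    funext x
    rw [logZ_lw, ← Real.exp_add]
    congr 1
    ring
  rw [e, Real.log_mul (Real.exp_pos _).ne' hpos.ne', Real.log_exp]
  ring

lemma ut_eq (β : ℝ) (φ : ℝ) (h : Fin 1 → ℝ) (n : ℕ) (t : ℝ) :
    P.real {x | n * (φ - Real.log 2) + t ≤ logZ β h (fun i y => ω i y x) n} =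
      ut P ω β h n (n * φ + t) := by
  unfold ut
  congr 1
  ext x
  simp only [Set.mem_ofPred_eq]
  rw [logZ_lw]
  constructor
  · intro h2; linarith
  · intro h2; linarith

lemma tendsto_mean (hω : IsEnv P ω)
    (hexp : ∀ b : ℝ, Integrable (fun x => Real.exp (b * ω 1 0 x)) P) {β : ℝ}
    {φ : (Fin 1 → ℝ) → ℝ} {Λ : (Fin 1 → ℝ) → ℝ → ℝ} {C : ℝ}
    (hR : IsRate P ω β φ Λ C) (h : ℝ) : Tendsto (fun n : ℕ =>
        (∫ x, logZ β (fun _ => h) (fun i y => ω i y x) n ∂P) / n) atTop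
      (𝓝 (φ (fun _ => h) - Real.log 2)) := by
  have h1 := (tendsto_free hR (fun _ => h)).sub_const (Real.log 2)
  refine h1.congr' ?_
  filter_upwards [eventually_ge_atTop 1] with n hn
  have hn0 : (0 : ℝ) < n := by exact_mod_cast hn
  rw [integral_logZ le_rfl (conc 1 le_rfl Ω P ω hω hexp β (fun _ => h) 0 0 n).2.1]
  field_simp
  norm_num

/-- the exponent of the moments -/
theorem main (hω : IsEnv P ω)
    (hexp : ∀ b : ℝ, Integrable (fun x => Real.exp (b * ω 1 0 x)) P)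
    (hnc : ¬ ∃ c : ℝ, ∀ᵐ x ∂P, ω 1 0 x = c) (β : ℝ) (hβ : 0 < β) :
    ∃ (φ : ℝ → ℝ) (Λ : ℝ → ℝ → ℝ) (C : ℝ), 0 < C ∧
      (∀ h : ℝ, Tendsto (fun n : ℕ =>
        (∫ x, logZ β (fun _ => h) (fun i y => ω i y x) n ∂P) / n) atTop (𝓝 (φ h))) ∧
      (∀ h θ : ℝ, 0 < θ → θ ≤ 1 / 4 → ∀ n : ℕ,
        n * Λ h θ - Real.log (2 * n + 1) ≤
          Real.log (∫ x, Real.exp (θ * logZ β (fun _ => h) (fun i y => ω i y x) n) ∂P) ∧
        Real.log (∫ x, Real.exp (θ * logZ β (fun _ => h) (fun i y => ω i y x) n) ∂P) ≤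
          n * Λ h θ) ∧
      (∀ h θ : ℝ, 0 < θ → θ ≤ 1 / 4 →
        0 ≤ Λ h θ - θ * φ h ∧ Λ h θ - θ * φ h ≤ C * θ ^ 2) ∧
      (∀ᵐ h : ℝ, ∀ p : ℝ, 5 < p → ∀ᶠ θ : ℝ in 𝓝[>] 0, θ ^ p ≤ Λ h θ - θ * φ h) ∧
      (∀ a p : ℝ, 0 ≤ a → 5 + a < p → ∀ᶠ θ : ℝ in 𝓝[>] 0, ∀ h : ℝ, ∃ h' : ℝ,
        |h' - h| ≤ θ ^ a ∧ θ ^ p ≤ Λ h' θ - θ * φ h') := by
  obtain ⟨φ, Λ, C, hR⟩ := exists_rate le_rfl hω hexp β
  obtain ⟨a₀, b₀, hab, hp, hm⟩ := Pool.Agent.N662.SD.gap (hω.meas 1 0) hnc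
  have hC : 1 ≤ C := hR.C_pos
  have hgap := ae_gap hω hexp hR hab hp hm hβ
  refine ⟨fun h => φ (fun _ => h) - Real.log 2, fun h θ => Λ (fun _ => h) θ - θ * Real.log 2,
    C, by linarith, tendsto_mean hω hexp hR, ?_, ?_, ?_, ?_⟩
  · intro h θ h0 h1 n
    have hpos := em_pos le_rfl hω hexp β (fun _ => h) n (θ := θ) (by rw [abs_of_pos h0]; exact h1)
    rw [log_em_eq hω hexp β _ θ h0 h1 n]
    have e1 := hR.em_le (fun _ => h) θ h0.le h1 n
    have e2 := hR.le_em (fun _ => h) θ h0.le h1 n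
    rw [pow_one] at e2
    have f1 : Real.log (em P ω β (fun _ => h) θ n) ≤ n * Λ (fun _ => h) θ := by
      rw [Real.log_le_iff_le_exp hpos]
      exact e1
    have f2 : n * Λ (fun _ => h) θ ≤ Real.log (2 * n + 1) +
        Real.log (em P ω β (fun _ => h) θ n) := by
      rw [← Real.log_mul (by positivity) hpos.ne', Real.le_log_iff_exp_le (by positivity)]
      exact e2
    constructor
    · show n * (Λ (fun _ => h) θ - θ * Real.log 2) - Real.log (2 * n + 1) ≤ _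
      linarith
    · show _ ≤ n * (Λ (fun _ => h) θ - θ * Real.log 2)
      linarith
  · intro h θ h0 h1
    have e1 := hR.low (fun _ => h) θ h0.le h1
    have e2 := hR.up (fun _ => h) θ h0.le h1
    constructor
    · show 0 ≤ Λ (fun _ => h) θ - θ * Real.log 2 - θ * (φ (fun _ => h) - Real.log 2)
      linarith
    · show Λ (fun _ => h) θ - θ * Real.log 2 - θ * (φ (fun _ => h) - Real.log 2) ≤ C * θ ^ 2
      linarith
  · filter_upwards [hgap] with h hh p hp5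
    filter_upwards [hh p hp5] with θ hθ
    show θ ^ p ≤ Λ (fun _ => h) θ - θ * Real.log 2 - θ * (φ (fun _ => h) - Real.log 2)
    linarith
  · intro a p ha hpa
    filter_upwards [window_gap hω hexp hR hab hp hm hβ ha hpa] with θ hθ h
    obtain ⟨h', h1, h2⟩ := hθ h
    refine ⟨h', h1, ?_⟩
    show θ ^ p ≤ Λ (fun _ => h') θ - θ * Real.log 2 - θ * (φ (fun _ => h') - Real.log 2)
    linarith

/-- the exponent of the upper tail -/
theorem upper_tail (hω : IsEnv P ω)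
    (hexp : ∀ b : ℝ, Integrable (fun x => Real.exp (b * ω 1 0 x)) P)
    (hnc : ¬ ∃ c : ℝ, ∀ᵐ x ∂P, ω 1 0 x = c) (β : ℝ) (hβ : 0 < β) :
    ∃ (φ : ℝ → ℝ) (C : ℝ), 0 < C ∧
      (∀ h : ℝ, Tendsto (fun n : ℕ =>
        (∫ x, logZ β (fun _ => h) (fun i y => ω i y x) n ∂P) / n) atTop (𝓝 (φ h))) ∧
      (∀ h ε : ℝ, 0 < ε → ε ≤ 1 / 2 → ∀ n : ℕ,
        P.real {x | n * φ h + n * ε ≤ logZ β (fun _ => h) (fun i y => ω i y x) n} ≤
          Real.exp (-(ε ^ 2 / C * n))) ∧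
      (∀ᵐ h : ℝ, ∀ κ : ℝ, κ < 5 / 4 → ∀ᶠ ε : ℝ in 𝓝[>] 0, ∀ᶠ n : ℕ in atTop,
        Real.exp (-(ε ^ κ * n)) ≤
          P.real {x | n * φ h + n * ε ≤ logZ β (fun _ => h) (fun i y => ω i y x) n}) ∧
      (∀ᵐ h : ℝ, ∀ χ : ℝ, χ < 1 / 5 → ∃ K : ℝ, ∃ᶠ n : ℕ in atTop, (n : ℝ) ^ (-K) ≤
        P.real {x | n * φ h + (n : ℝ) ^ χ ≤ logZ β (fun _ => h) (fun i y => ω i y x) n}) := by
  obtain ⟨φ, Λ, C, hR⟩ := exists_rate le_rfl hω hexp β
  obtain ⟨a₀, b₀, hab, hp, hm⟩ := Pool.Agent.N662.SD.gap (hω.meas 1 0) hnc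
  have hC : 1 ≤ C := hR.C_pos
  have hgap := ae_gap hω hexp hR hab hp hm hβ
  refine ⟨fun h => φ (fun _ => h) - Real.log 2, 4 * C, by linarith, tendsto_mean hω hexp hR,
    ?_, ?_, ?_⟩
  · intro h ε hε hε1 n
    show P.real {x | n * (φ (fun _ => h) - Real.log 2) + n * ε ≤
      logZ β (fun _ => h) (fun i y => ω i y x) n} ≤ Real.exp (-(ε ^ 2 / (4 * C) * n))
    rw [ut_eq, ← mul_add]
    exact ld_upper hω hexp hR _ hε hε1 n
  · filter_upwards [hgap] with h hh κ hκ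
    filter_upwards [ld_of_gap hω hexp hR hh hκ] with ε hε
    filter_upwards [hε] with n hn
    show Real.exp (-(ε ^ κ * n)) ≤ P.real {x | n * (φ (fun _ => h) - Real.log 2) + n * ε ≤
      logZ β (fun _ => h) (fun i y => ω i y x) n}
    rw [ut_eq, ← mul_add]
    exact hn
  · filter_upwards [hgap] with h hh χ hχ
    obtain ⟨K, hK⟩ := osc hω hexp hR hh hχ
    refine ⟨K, hK.mono fun n hn => ?_⟩
    show (n : ℝ) ^ (-K) ≤ P.real {x | n * (φ (fun _ => h) - Real.log 2) + (n : ℝ) ^ χ ≤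
      logZ β (fun _ => h) (fun i y => ω i y x) n}
    rw [ut_eq]
    exact hn

end U874.RG
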