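import Pool.Agent.U874.RG.Key

/-!
# The measure of the exceptional drifts
-/

set_option autoImplicit false
set_option linter.unusedSectionVars false

open MeasureTheory ProbabilityTheory Filter Topology

namespace U874.RG

open Pool.Agent.N662.SE (IsEnv)

/-- the drifts at which the second difference is large -/
lemma window {f : ℝ → ℝ} {θ s K A B : ℝ} (hθ : 0 < θ) (hs : 0 < s) (hK : 0 < K) (hAB : A ≤ B)
    (hlip : ∀ t u, |f (t + u) - f t| ≤ θ * |u|)
    (hmid : ∀ t, 0 ≤ f (t + s) + f (t - s) - 2 * f t) :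
    volume {t | t ∈ Set.Icc A B ∧ K * (θ * s ^ 2) ≤ f (t + s) + f (t - s) - 2 * f t} ≤
      ENNReal.ofReal (2 / K) := by
  have hcont : Continuous f := by
    have : LipschitzWith (Real.toNNReal θ) f := by
      apply LipschitzWith.of_dist_le_mul
      intro x y
      rw [Real.dist_eq, Real.dist_eq, Real.coe_toNNReal θ hθ.le]
      have := hlip y (x - y)
      rwa [add_sub_cancel] at this
    exact this.continuous
  set G : ℝ → ℝ := fun t => f (t + s) - f t with hG
  have hGc : Continuous G := (hcont.comp (continuous_id.add continuous_const)).sub hcont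
  have hGb : ∀ t, ‖G t‖ ≤ θ * s := by
    intro t
    have := hlip t s
    rwa [abs_of_pos hs] at this
  set D : ℝ → ℝ := fun t => f (t + s) + f (t - s) - 2 * f t with hD
  have hDc : Continuous D := by
    simp only [hD]
    fun_prop
  have hDG : ∀ t, D t = G t - G (t - s) := by
    intro t
    simp only [hD, hG]
    rw [sub_add_cancel]
    ring
  have hi : ∀ a b : ℝ, IntervalIntegrable G volume a b := fun a b => hGc.intervalIntegrable a b
  have hint : ∫ t in A..B, D t ≤ 2 * (θ * s ^ 2) := by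
    have e1 : ∫ t in A..B, D t = (∫ t in A..B, G t) - ∫ t in (A - s)..(B - s), G t := by
      have hGs : Continuous (fun t => G (t - s)) := hGc.comp (continuous_id.sub continuous_const)
      rw [← intervalIntegral.integral_comp_sub_right, ← intervalIntegral.integral_sub (hi A B)
        (hGs.intervalIntegrable A B)]
      exact intervalIntegral.integral_congr fun t _ => hDG t
    have e2 := intervalIntegral.integral_add_adjacent_intervals (hi (A - s) A) (hi A B)
    have e3 := intervalIntegral.integral_add_adjacent_intervals (hi (A - s) (B - s)) (hi (B - s) B)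
    have e4 : ∫ t in A..B, D t = (∫ t in (B - s)..B, G t) - ∫ t in (A - s)..A, G t := by
      rw [e1]
      linarith
    have b1 := intervalIntegral.norm_integral_le_of_norm_le_const
      (a := B - s) (b := B) (f := G) (C := θ * s) (fun t _ => hGb t)
    have b2 := intervalIntegral.norm_integral_le_of_norm_le_const
      (a := A - s) (b := A) (f := G) (C := θ * s) (fun t _ => hGb t)
    rw [sub_sub_cancel, abs_of_pos hs, Real.norm_eq_abs] at b1 b2
    rw [e4]
    have c1 := (abs_le.1 b1).2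
    have c2 := (abs_le.1 b2).1
    nlinarith
  rw [intervalIntegral.integral_of_le hAB, ← integral_Icc_eq_integral_Ioc] at hint
  have hmk := mul_meas_ge_le_integral_of_nonneg (μ := volume.restrict (Set.Icc A B)) (f := D)
    (Eventually.of_forall fun t => hmid t) (hDc.integrableOn_Icc) (K * (θ * s ^ 2))
  have hms : MeasurableSet {t | K * (θ * s ^ 2) ≤ D t} := measurableSet_le measurable_const
    hDc.measurable
  have hset : {t | t ∈ Set.Icc A B ∧ K * (θ * s ^ 2) ≤ f (t + s) + f (t - s) - 2 * f t} =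
      {t | K * (θ * s ^ 2) ≤ D t} ∩ Set.Icc A B := by
    ext t
    simp only [Set.mem_inter_iff, Set.mem_ofPred_eq, hD]
    tauto
  have h0 : 0 < θ * s ^ 2 := by positivity
  have h1 : (volume.restrict (Set.Icc A B)).real {t | K * (θ * s ^ 2) ≤ D t} ≤ 2 / K := by
    rw [le_div_iff₀ hK]
    have h2 : (θ * s ^ 2) * ((volume.restrict (Set.Icc A B)).real {t | K * (θ * s ^ 2) ≤ D t} * K) ≤
        (θ * s ^ 2) * 2 := by
      calc _ = K * (θ * s ^ 2) *
            (volume.restrict (Set.Icc A B)).real {t | K * (θ * s ^ 2) ≤ D t} := by ring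
        _ ≤ _ := hmk
        _ ≤ _ := hint
        _ = _ := by ring
    exact le_of_mul_le_mul_left h2 h0
  rw [hset, ← Measure.restrict_apply hms]
  rw [measureReal_def] at h1
  exact (ENNReal.le_ofReal_iff_toReal_le (measure_ne_top _ _) (by positivity)).2 h1

/-- the logarithmic errors -/
lemma ev_err {c e : ℝ} (hc : 0 < c) (he : 0 < e) : ∀ᶠ n : ℕ in atTop,
    18 * Real.log (4 * (n + 1) * (2 * n + 1) ^ 2) * (1 + 2 * Real.log (2 * (2 * n + 1))) ^ 2 ≤
      c * (n : ℝ) ^ e := by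
  filter_upwards [Pool.Agent.N700.SE.UPD.ev_log 4 (e / 4) (by norm_num) (by positivity),
    Pool.Agent.N700.SE.UPD.ev_pow (486 / c) (3 * (e / 4)) e (by linarith),
    eventually_ge_atTop 1] with n h1 h2 hn
  have hn1 : (1 : ℝ) ≤ n := by exact_mod_cast hn
  have hn0 : (0 : ℝ) < n := by linarith
  set ℓ := Real.log (4 * ((n : ℝ) + 1)) with hℓ
  have hℓ1 : 1 ≤ ℓ := by
    rw [hℓ, Real.le_log_iff_exp_le (by positivity)]
    have := Real.exp_one_lt_d9
    linarith
  have a1 : Real.log (4 * (n + 1) * (2 * n + 1) ^ 2) ≤ 3 * ℓ := by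
    have e1 : 3 * ℓ = Real.log ((4 * ((n : ℝ) + 1)) ^ 3) := by
      rw [Real.log_pow, hℓ]; norm_num
    rw [e1]
    apply Real.log_le_log (by positivity)
    calc 4 * ((n : ℝ) + 1) * (2 * n + 1) ^ 2 ≤ 4 * ((n : ℝ) + 1) * (4 * (n + 1)) ^ 2 := by
          apply mul_le_mul_of_nonneg_left _ (by positivity)
          apply pow_le_pow_left₀ (by positivity)
          linarith
      _ = _ := by ring
  have a2 : 1 + 2 * Real.log (2 * (2 * n + 1)) ≤ 3 * ℓ := by
    have : Real.log (2 * (2 * n + 1)) ≤ ℓ := by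
      rw [hℓ]
      apply Real.log_le_log (by positivity)
      linarith
    linarith
  have a3 : 0 ≤ 1 + 2 * Real.log (2 * (2 * n + 1)) := by
    have : 0 ≤ Real.log (2 * (2 * (n : ℝ) + 1)) := Real.log_nonneg (by linarith)
    linarith
  have a4 : ℓ ^ 3 ≤ (n : ℝ) ^ (3 * (e / 4)) := by
    have : ((n : ℝ) ^ (e / 4)) ^ 3 = (n : ℝ) ^ (3 * (e / 4)) := by
      rw [← Real.rpow_natCast, ← Real.rpow_mul hn0.le]
      congr 1
      push_cast
      ring
    rw [← this]
    exact pow_le_pow_left₀ (by linarith) h1 3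
  calc 18 * Real.log (4 * (n + 1) * (2 * n + 1) ^ 2) *
        (1 + 2 * Real.log (2 * (2 * n + 1))) ^ 2 ≤ 18 * (3 * ℓ) * (3 * ℓ) ^ 2 := by
        apply mul_le_mul _ (pow_le_pow_left₀ a3 a2 2) (by positivity) (by positivity)
        linarith
    _ = 486 * ℓ ^ 3 := by ring
    _ ≤ 486 * (n : ℝ) ^ (3 * (e / 4)) := by linarith
    _ = c * (486 / c * (n : ℝ) ^ (3 * (e / 4))) := by field_simp
    _ ≤ c * (n : ℝ) ^ e := mul_le_mul_of_nonneg_left h2 hc.le

section

variable {Ω : Type} [MeasurableSpace Ω] {P : Measure Ω} [IsProbabilityMeasure P]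
  {ω : ℕ → (Fin 1 → ℤ) → Ω → ℝ} (hω : IsEnv P ω)
  (hexp : ∀ b : ℝ, Integrable (fun x => Real.exp (b * ω 1 0 x)) P) {β : ℝ}
  {φ : (Fin 1 → ℝ) → ℝ} {Λ : (Fin 1 → ℝ) → ℝ → ℝ} {C : ℝ} (hR : IsRate P ω β φ Λ C)

lemma add_single (t s : ℝ) : (fun _ : Fin 1 => t) + Pi.single 0 s = fun _ => t + s := by
  funext k
  rw [Subsingleton.elim k 0, Pi.add_apply, Pi.single_eq_same]

include hω hexp hR in
/-- the gap at a good drift -/
lemma gap_good {a₀ b₀ : ℝ} (hab : a₀ < b₀)
    (hp : 0 < (P.map (ω 1 0)).real (Set.Ici b₀)) (hm : 0 < (P.map (ω 1 0)).real (Set.Iic a₀))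
    (hβ : 0 < β) (h : Fin 1 → ℝ) {n : ℕ} (hn : 1 ≤ n) {θ K : ℝ}
    (h0 : 0 < θ) (h1 : θ ≤ 1 / 8) (hK : 1 ≤ K)
    (herr : 18 * Real.log (4 * (n + 1) * (2 * n + 1) ^ 2) *
      (1 + 2 * Real.log (2 * (2 * n + 1))) ^ 2 ≤ c0 P ω β a₀ b₀ ^ 2 * (θ ^ 5 * n / K))
    (hΔ : Λ (h + Pi.single 0 (Real.sqrt (2 * Real.log (4 * (n + 1) * (2 * n + 1) ^ 2) /
        (n * K * θ)))) θ + Λ (h + Pi.single 0 (-Real.sqrt (2 * Real.log (4 * (n + 1) *
        (2 * n + 1) ^ 2) / (n * K * θ)))) θ - 2 * Λ h θ ≤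
      K * (θ * Real.sqrt (2 * Real.log (4 * (n + 1) * (2 * n + 1) ^ 2) / (n * K * θ)) ^ 2)) :
    1 / (n : ℝ) ≤ Λ h (2 * θ) - 2 * Λ h θ := by
  have hn1 : (1 : ℝ) ≤ n := by exact_mod_cast hn
  have hn0 : (0 : ℝ) < n := by linarith
  have hK0 : 0 < K := by linarith
  set L := Real.log (4 * ((n : ℝ) + 1) * (2 * n + 1) ^ 2) with hL
  have hL1 : 1 ≤ L := by
    rw [hL, Real.le_log_iff_exp_le (by positivity)]
    have h2 := Real.exp_one_lt_d9
    have h3 : (1 : ℝ) ≤ (2 * n + 1) ^ 2 := one_le_pow₀ (by linarith)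
    nlinarith
  set s := Real.sqrt (2 * L / (n * K * θ)) with hs
  have hs2 : s ^ 2 = 2 * L / (n * K * θ) := Real.sq_sqrt (by positivity)
  have hs0 : 0 < s := Real.sqrt_pos.2 (by positivity)
  set r := 2 * L / (θ * s) with hr
  have hr0 : 0 < r := by positivity
  have hsr : θ * (s * r) = 2 * L := by
    rw [hr]
    field_simp
  have hr2 : r ^ 2 = 2 * L * n * K / θ := by
    rw [hr, div_pow, mul_pow, mul_pow, hs2]
    field_simp
  have hr1 : 1 ≤ r := by
    have h2 : 1 ≤ r ^ 2 := by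
      rw [hr2, le_div_iff₀ h0, one_mul]
      have h3 : (1 : ℝ) ≤ L * n := one_le_mul_of_one_le_of_one_le hL1 hn1
      have h4 : (1 : ℝ) ≤ L * n * K := one_le_mul_of_one_le_of_one_le h3 hK
      nlinarith
    by_contra hcon
    push Not at hcon
    nlinarith
  have hkey := key hω hexp hR hab hp hm hβ h hn (s := s) (r := r) (θ := θ) hr0.le h0 h1 hs0 (by
    rw [hsr]
    have h2 : (n : ℝ) * ((Λ (h + Pi.single 0 s) θ + Λ (h + Pi.single 0 (-s)) θ - 2 * Λ h θ) / 2) ≤
        n * (K * (θ * s ^ 2) / 2) := by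
      apply mul_le_mul_of_nonneg_left _ hn0.le
      linarith
    have h3 : (n : ℝ) * (K * (θ * s ^ 2) / 2) = L := by
      rw [hs2]
      field_simp
    rw [h3] at h2
    linarith)
  have hc0 : 0 < c0 P ω β a₀ b₀ := by
    unfold c0
    have : Real.exp (-(β * (b₀ - a₀))) < 1 := by
      rw [← Real.exp_zero]
      apply Real.exp_lt_exp.2
      have := mul_pos hβ (sub_pos.2 hab)
      linarith
    have h2 : 0 < 1 - Real.exp (-(β * (b₀ - a₀))) := by linarith
    positivity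
  set E := 1 + 2 * Real.log (2 * (2 * (n : ℝ) + 1)) with hE
  have hE0 : 0 ≤ E := by
    have : 0 ≤ Real.log (2 * (2 * (n : ℝ) + 1)) := Real.log_nonneg (by linarith)
    rw [hE]
    linarith
  -- the gain
  have hgain : E ≤ c0 P ω β a₀ b₀ * θ ^ 2 * (n / (2 * r + 1)) := by
    have h2 : c0 P ω β a₀ b₀ * θ ^ 2 * (n / (3 * r)) ≤
        c0 P ω β a₀ b₀ * θ ^ 2 * (n / (2 * r + 1)) := by
      apply mul_le_mul_of_nonneg_left _ (by positivity)
      apply div_le_div_of_nonneg_left hn0.le (by positivity)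
      linarith
    refine le_trans ?_ h2
    apply le_of_sq_le_sq _ (by positivity)
    have h3 : (c0 P ω β a₀ b₀ * θ ^ 2 * (n / (3 * r))) ^ 2 =
        c0 P ω β a₀ b₀ ^ 2 * (θ ^ 5 * n / K) / (18 * L) := by
      have h4 : (c0 P ω β a₀ b₀ * θ ^ 2 * (n / (3 * r))) ^ 2 =
          c0 P ω β a₀ b₀ ^ 2 * θ ^ 4 * n ^ 2 / (9 * r ^ 2) := by
        field_simp
        ring
      rw [h4, hr2]
      field_simp
      ring
    rw [h3, le_div_iff₀ (by positivity)]
    linarith
  have hfin : 1 ≤ n * (Λ h (2 * θ) - 2 * Λ h θ) := by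
    rw [hE] at hgain
    linarith
  rw [div_le_iff₀ hn0]
  linarith

include hω hexp hR in
/-- the exceptional drifts -/
lemma meas_exc {a₀ b₀ : ℝ} (hab : a₀ < b₀)
    (hp : 0 < (P.map (ω 1 0)).real (Set.Ici b₀)) (hm : 0 < (P.map (ω 1 0)).real (Set.Iic a₀))
    (hβ : 0 < β) {p a : ℝ} (ha : 0 ≤ a) (hpa : 5 + a < p) :
    ∃ θ₀ : ℝ, 0 < θ₀ ∧ θ₀ ≤ 1 / 8 ∧ ∀ θ : ℝ, 0 < θ → θ < θ₀ → ∀ A B : ℝ, A ≤ B →
      volume {t : ℝ | t ∈ Set.Icc A B ∧
        Λ (fun _ => t) (2 * θ) - 2 * Λ (fun _ => t) θ < θ ^ p / 2} ≤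
        ENNReal.ofReal (2 * θ ^ a) := by
  have hp0 : 0 < p := by linarith
  have hc0 : 0 < c0 P ω β a₀ b₀ := by
    unfold c0
    have : Real.exp (-(β * (b₀ - a₀))) < 1 := by
      rw [← Real.exp_zero]
      apply Real.exp_lt_exp.2
      have := mul_pos hβ (sub_pos.2 hab)
      linarith
    have h2 : 0 < 1 - Real.exp (-(β * (b₀ - a₀))) := by linarith
    positivity
  set e := 1 - (5 + a) / p with he
  have he0 : 0 < e := by
    rw [he, sub_pos, div_lt_one hp0]
    exact hpa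
  obtain ⟨N, hN⟩ := eventually_atTop.1 (ev_err (c := c0 P ω β a₀ b₀ ^ 2) (by positivity) he0)
  -- θ small
  have ht : Tendsto (fun θ : ℝ => θ ^ (-p)) (𝓝[>] 0) atTop := tendsto_rpow_neg_nhdsGT_zero
    (by linarith)
  have hev := (ht.eventually (eventually_ge_atTop (N : ℝ)))
  obtain ⟨θ₁, hθ₁, hθ₁'⟩ := (mem_nhdsGT_iff_exists_Ioo_subset).1 hev
  have hθ₁0 : (0 : ℝ) < θ₁ := hθ₁
  refine ⟨min θ₁ (1 / 8), by positivity, min_le_right _ _, ?_⟩
  intro θ h0 hθ A B hAB
  have hθ1 : θ ≤ 1 / 8 := hθ.le.trans (min_le_right _ _)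
  have hNθ : (N : ℝ) ≤ θ ^ (-p) := hθ₁' ⟨h0, hθ.trans_le (min_le_left _ _)⟩
  set n := ⌈θ ^ (-p)⌉₊ with hn
  have hpow1 : 1 ≤ θ ^ (-p) := Real.one_le_rpow_of_pos_of_le_one_of_nonpos h0 (by linarith)
    (by linarith)
  have hnθ : θ ^ (-p) ≤ n := Nat.le_ceil _
  have hnN : N ≤ n := by
    have : (N : ℝ) ≤ n := hNθ.trans hnθ
    exact_mod_cast this
  have hn1' : (1 : ℝ) ≤ n := hpow1.trans hnθ
  have hn1 : 1 ≤ n := by exact_mod_cast hn1'
  have hn0 : (0 : ℝ) < n := by linarith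
  have hnup : (n : ℝ) ≤ 2 * θ ^ (-p) := by
    have := Nat.ceil_lt_add_one (show 0 ≤ θ ^ (-p) by positivity)
    rw [← hn] at this
    linarith
  set K := θ ^ (-a) with hK
  have hK1 : 1 ≤ K := Real.one_le_rpow_of_pos_of_le_one_of_nonpos h0 (by linarith) (by linarith)
  have hK0 : 0 < K := by linarith
  -- the error condition
  have herr : 18 * Real.log (4 * (n + 1) * (2 * n + 1) ^ 2) *
      (1 + 2 * Real.log (2 * (2 * n + 1))) ^ 2 ≤ c0 P ω β a₀ b₀ ^ 2 * (θ ^ 5 * n / K) := by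
    refine (hN n hnN).trans ?_
    apply mul_le_mul_of_nonneg_left _ (by positivity)
    have e1 : θ ^ 5 * n / K = θ ^ (5 + a) * n := by
      rw [hK, Real.rpow_neg h0.le, Real.rpow_add h0, div_inv_eq_mul]
      norm_cast
      ring
    rw [e1]
    have e2 : (n : ℝ) ^ (-(5 + a) / p) ≤ θ ^ (5 + a) := by
      have e3 : θ ^ (5 + a) = (θ ^ (-p)) ^ (-(5 + a) / p) := by
        rw [← Real.rpow_mul h0.le]
        congr 1
        field_simp
      rw [e3]
      apply Real.rpow_le_rpow_of_nonpos (by positivity) hnθ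
      apply div_nonpos_of_nonpos_of_nonneg _ hp0.le
      linarith
    calc (n : ℝ) ^ e = (n : ℝ) ^ (-(5 + a) / p) * n := by
          nth_rewrite 3 [← Real.rpow_one (n : ℝ)]
          rw [← Real.rpow_add hn0, he]
          congr 1
          ring
      _ ≤ _ := mul_le_mul_of_nonneg_right e2 hn0.le
  set s := Real.sqrt (2 * Real.log (4 * (n + 1) * (2 * n + 1) ^ 2) / (n * K * θ)) with hs
  have hs0 : 0 < s := by
    rw [hs]
    apply Real.sqrt_pos.2
    have : 0 < Real.log (4 * ((n : ℝ) + 1) * (2 * n + 1) ^ 2) := by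
      apply Real.log_pos
      have h3 : (1 : ℝ) ≤ (2 * n + 1) ^ 2 := one_le_pow₀ (by linarith)
      nlinarith
    positivity
  set f : ℝ → ℝ := fun t => Λ (fun _ => t) θ with hf
  have hlip : ∀ t u, |f (t + u) - f t| ≤ θ * |u| := by
    intro t u
    have l1 := lip hω hexp hR (fun _ => t) u h0.le (by linarith : θ ≤ 1 / 4)
    have l2 := lip hω hexp hR (fun _ => t + u) (-u) h0.le (by linarith : θ ≤ 1 / 4)
    rw [add_single] at l1 l2
    rw [add_neg_cancel_right, abs_neg] at l2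
    rw [abs_le]
    constructor
    · show -(θ * |u|) ≤ Λ (fun _ => t + u) θ - Λ (fun _ => t) θ
      linarith
    · show Λ (fun _ => t + u) θ - Λ (fun _ => t) θ ≤ θ * |u|
      linarith
  have hmid : ∀ t, 0 ≤ f (t + s) + f (t - s) - 2 * f t := by
    intro t
    have l1 := mid hω hexp hR (fun _ => t) s h0.le (by linarith : θ ≤ 1 / 4)
    rw [add_single, add_single] at l1
    show 0 ≤ Λ (fun _ => t + s) θ + Λ (fun _ => t - s) θ - 2 * Λ (fun _ => t) θ
    rw [← sub_eq_add_neg] at l1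
    linarith
  have hw := window (K := K) (A := A) (B := B) h0 hs0 hK0 hAB hlip hmid
  have e5 : 2 / K = 2 * θ ^ a := by
    rw [hK, Real.rpow_neg h0.le, div_inv_eq_mul]
  rw [e5] at hw
  refine (measure_mono ?_).trans hw
  rintro t ⟨htI, htD⟩
  refine ⟨htI, ?_⟩
  by_contra hcon
  push Not at hcon
  have hgood := gap_good hω hexp hR hab hp hm hβ (fun _ => t) hn1 (θ := θ) (K := K) h0 hθ1 hK1
    herr (by
      rw [← hs, add_single, add_single, ← sub_eq_add_neg]
      exact hcon.le)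
  have h5 : θ ^ p / 2 ≤ 1 / (n : ℝ) := by
    rw [div_le_div_iff₀ (by norm_num) hn0, one_mul]
    calc θ ^ p * n ≤ θ ^ p * (2 * θ ^ (-p)) := mul_le_mul_of_nonneg_left hnup (by positivity)
      _ = 2 * (θ ^ p * θ ^ (-p)) := by ring
      _ = 2 := by rw [← Real.rpow_add h0, add_neg_cancel, Real.rpow_zero, mul_one]
  linarith

end

end U874.RG
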