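import Pool.Agent.N662.SE.All
import Pool.Agent.N523.SE.MGF

/-!
# Fractional moments of the partition function: super- and submultiplicativity
-/

set_option autoImplicit false
set_option linter.unusedSectionVars false

open MeasureTheory ProbabilityTheory Filter Topology

namespace U874.RG

open TH967.DP (Step pos energy abs_pos_le)
open Pool.Agent.N662.SE
open Pool.Agent.N50.SE.SUP (wt part_eq wt_pos part_pos part_add meas_wt meas_part)

theorem conc : S_CONC := Pool.Agent.N523.SE.CONC.main Pool.Agent.N523.SE.MGF.main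

theorem rate : S_RATE := Pool.Agent.N353.SE.Rate.main (Pool.Agent.N50.SE.SUP.main conc)
  (Pool.Agent.N97.SE.DBL.main conc) (Pool.Agent.N50.SE.CVX.main conc)

variable {d : ℕ} {Ω : Type} [MeasurableSpace Ω]

/-- the past -/
@[instance_reducible] def pst (ω : ℕ → (Fin d → ℤ) → Ω → ℝ) (m : ℕ) : MeasurableSpace Ω :=
  ⨆ s ∈ {s : ℕ × (Fin d → ℤ) | s.1 ≤ m}, MeasurableSpace.comap (ω s.1 s.2) inferInstance

/-- the future -/
@[instance_reducible] def fut (ω : ℕ → (Fin d → ℤ) → Ω → ℝ) (m : ℕ) : MeasurableSpace Ω :=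
  ⨆ s ∈ {s : ℕ × (Fin d → ℤ) | m < s.1}, MeasurableSpace.comap (ω s.1 s.2) inferInstance

lemma indep_pf {P : Measure Ω} [IsProbabilityMeasure P] {ω : ℕ → (Fin d → ℤ) → Ω → ℝ}
    (hω : IsEnv P ω) (m : ℕ) {f g : Ω → ℝ} (hf : Measurable[pst ω m] f)
    (hg : Measurable[fut ω m] g) : IndepFun f g P := by
  have hle : ∀ s : ℕ × (Fin d → ℤ), MeasurableSpace.comap (ω s.1 s.2) inferInstance ≤
      (inferInstance : MeasurableSpace Ω) := fun s => (hω.meas s.1 s.2).comap_le
  have hI := indep_iSup_of_disjoint hle hω.indep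
    (S := {s : ℕ × (Fin d → ℤ) | s.1 ≤ m}) (T := {s : ℕ × (Fin d → ℤ) | m < s.1})
    (by
      rw [Set.disjoint_left]
      intro s hs ht
      simp only [Set.mem_ofPred_eq] at hs ht
      omega)
  rw [IndepFun_iff_Indep]
  exact indep_of_indep_of_le_left (indep_of_indep_of_le_right hI hg.comap_le) hf.comap_le

lemma meas_pst (ω : ℕ → (Fin d → ℤ) → Ω → ℝ) {m i : ℕ} (hi : i ≤ m) (y : Fin d → ℤ) :
    Measurable[pst ω m] (ω i y) := by
  have h1 : MeasurableSpace.comap (ω i y) inferInstance ≤ pst ω m := by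
    unfold pst
    exact le_iSup₂_of_le (i, y) (by simp only [Set.mem_ofPred_eq]; omega) le_rfl
  exact (comap_measurable (ω i y)).mono h1 le_rfl

lemma meas_fut (ω : ℕ → (Fin d → ℤ) → Ω → ℝ) {m i : ℕ} (hi : m < i) (y : Fin d → ℤ) :
    Measurable[fut ω m] (ω i y) := by
  have h1 : MeasurableSpace.comap (ω i y) inferInstance ≤ fut ω m := by
    unfold fut
    exact le_iSup₂_of_le (i, y) (by simp only [Set.mem_ofPred_eq]; omega) le_rfl
  exact (comap_measurable (ω i y)).mono h1 le_rfl

lemma meas_wt_pst (ω : ℕ → (Fin d → ℤ) → Ω → ℝ) (β : ℝ) (h : Fin d → ℝ) {m : ℕ}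
    (u : Fin m → Step d) : Measurable[pst ω m] (fun x => wt β h (fun i y => ω i y x) u) :=
  @meas_wt d Ω (pst ω m) (fun i y => ω i y) β h m (fun i _ hi y => meas_pst ω hi y) u

lemma meas_part_pst (ω : ℕ → (Fin d → ℤ) → Ω → ℝ) (β : ℝ) (h : Fin d → ℝ) {i m : ℕ}
    (hi : i ≤ m) : Measurable[pst ω m] (fun x => part β h (fun i y => ω i y x) i Set.univ) :=
  @meas_part d Ω (pst ω m) (fun i y => ω i y) β h i (fun j _ hj y => meas_pst ω (hj.trans hi) y)

lemma meas_lw_pst (ω : ℕ → (Fin d → ℤ) → Ω → ℝ) (β : ℝ) (h : Fin d → ℝ) {i m : ℕ}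
    (hi : i ≤ m) : Measurable[pst ω m] (lw ω β h 0 0 i) := by
  unfold lw
  simp only [zero_add]
  exact Real.measurable_log.comp (meas_part_pst ω β h hi)

lemma meas_lw_fut (ω : ℕ → (Fin d → ℤ) → Ω → ℝ) (β : ℝ) (h : Fin d → ℝ) (m : ℕ)
    (z : Fin d → ℤ) (n : ℕ) : Measurable[fut ω m] (lw ω β h m z n) := by
  unfold lw
  have h2 := @meas_part d Ω (fut ω m) (fun i y => ω (m + i) (z + y)) β h n
    (fun i hi _ y => meas_fut ω (by omega) _)
  exact Real.measurable_log.comp h2

/-- `E exp (θ log W_n(h))` -/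
noncomputable def em (P : Measure Ω) (ω : ℕ → (Fin d → ℤ) → Ω → ℝ) (β : ℝ) (h : Fin d → ℝ)
    (θ : ℝ) (n : ℕ) : ℝ := ∫ x, Real.exp (θ * lw ω β h 0 0 n x) ∂P

section

variable (hd : 1 ≤ d) {P : Measure Ω} [IsProbabilityMeasure P]
  {ω : ℕ → (Fin d → ℤ) → Ω → ℝ} (hω : IsEnv P ω)
  (hexp : ∀ b : ℝ, Integrable (fun x => Real.exp (b * ω 1 0 x)) P) (β : ℝ)

include hd hω hexp in
lemma int_exp (h : Fin d → ℝ) (m : ℕ) (z : Fin d → ℤ) (n : ℕ) {θ : ℝ} (hθ : |θ| ≤ 1 / 4) :
    Integrable (fun x => Real.exp (θ * lw ω β h m z n x)) P := by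
  obtain ⟨hm, -, -, hl⟩ := conc d hd Ω P ω hω hexp β h m z n
  have h1 : Integrable (fun x => Real.exp (θ * (lw ω β h m z n x - free P ω β h n))) P := by
    refine ⟨(Real.measurable_exp.comp ((hm.sub measurable_const).const_mul θ)).aestronglyMeasurable,
      ?_⟩
    rw [hasFiniteIntegral_iff_ofReal (Eventually.of_forall fun x => (Real.exp_pos _).le)]
    exact (hl θ hθ).trans_lt ENNReal.ofReal_lt_top
  have h2 := h1.const_mul (Real.exp (θ * free P ω β h n))
  refine h2.congr (Eventually.of_forall fun x => ?_)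
  show Real.exp (θ * free P ω β h n) * Real.exp (θ * (lw ω β h m z n x - free P ω β h n)) =
    Real.exp (θ * lw ω β h m z n x)
  rw [← Real.exp_add]
  congr 1
  ring

include hd hω in
lemma em_shift (h : Fin d → ℝ) (m : ℕ) (z : Fin d → ℤ) (n : ℕ) (θ : ℝ) :
    ∫ x, Real.exp (θ * lw ω β h m z n x) ∂P = em P ω β h θ n := by
  have h1 := Pool.Agent.N951.SE.t d hd Ω P ω hω β h m z n
  have hg : Measurable fun y : ℝ => Real.exp (θ * y) := by fun_prop
  exact (h1.comp hg).integral_eq

include hd hω hexp in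
lemma em_pos (h : Fin d → ℝ) (n : ℕ) {θ : ℝ} (hθ : |θ| ≤ 1 / 4) : 0 < em P ω β h θ n := by
  unfold em
  rw [integral_pos_iff_support_of_nonneg (fun x => (Real.exp_pos _).le)
    (int_exp hd hω hexp β h 0 0 n hθ)]
  have : Function.support (fun x => Real.exp (θ * lw ω β h 0 0 n x)) = Set.univ := by
    ext x
    simp [Real.exp_ne_zero]
  rw [this]
  simp

include hd in
lemma exp_lw (h : Fin d → ℝ) (m : ℕ) (z : Fin d → ℤ) (n : ℕ) (θ : ℝ) (x : Ω) :
    Real.exp (θ * lw ω β h m z n x) =
      (part β h (fun i y => ω (m + i) (z + y) x) n Set.univ) ^ θ := by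
  rw [Real.rpow_def_of_pos (part_pos hd _ _ _ _), mul_comm]
  rfl

include hd hω hexp in
lemma em_super (h : Fin d → ℝ) {θ : ℝ} (h0 : 0 ≤ θ) (h1 : θ ≤ 1 / 4) (m n : ℕ) :
    em P ω β h θ m * em P ω β h θ n ≤ em P ω β h θ (m + n) := by
  have habs : |θ| ≤ 1 / 4 := by rwa [abs_of_nonneg h0]
  set p : (Fin m → Step d) → Ω → ℝ := fun u x =>
    wt β h (fun i y => ω i y x) u / part β h (fun i y => ω i y x) m Set.univ with hp
  have hp0 : ∀ u x, 0 ≤ p u x := fun u x => (div_pos (wt_pos _ _ _ _) (part_pos hd _ _ _ _)).le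
  have hp1 : ∀ x, ∑ u, p u x = 1 := by
    intro x
    simp only [hp]
    rw [← Finset.sum_div, ← part_eq, div_self (part_pos hd _ _ _ _).ne']
  have hple : ∀ u x, p u x ≤ 1 := by
    intro u x
    rw [← hp1 x]
    exact Finset.single_le_sum (f := fun u => p u x) (fun v _ => hp0 v x) (Finset.mem_univ u)
  have hpm : ∀ u, Measurable[pst ω m] (p u) := fun u =>
    (meas_wt_pst ω β h u).div (meas_part_pst ω β h le_rfl)
  have hpm' : ∀ u, Measurable (p u) := fun u =>
    (meas_wt ω β h m (fun i _ _ y => hω.meas i y) u).div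
      (meas_part ω β h m (fun i _ _ y => hω.meas i y))
  set f : (Fin m → Step d) → Ω → ℝ := fun u x => p u x * Real.exp (θ * lw ω β h 0 0 m x) with hf
  have hfm : ∀ u, Measurable[pst ω m] (f u) := fun u =>
    (hpm u).mul (Real.measurable_exp.comp ((meas_lw_pst ω β h le_rfl).const_mul θ))
  have hfi : ∀ u, Integrable (f u) P := by
    intro u
    refine (int_exp hd hω hexp β h 0 0 m habs).bdd_mul (c := 1) (hpm' u).aestronglyMeasurable ?_
    refine Eventually.of_forall fun x => ?_
    rw [Real.norm_of_nonneg (hp0 u x)]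
    exact hple u x
  set g : (Fin m → Step d) → Ω → ℝ := fun u x => Real.exp (θ * lw ω β h m (pos u m) n x) with hg
  have hgm : ∀ u, Measurable[fut ω m] (g u) := fun u =>
    Real.measurable_exp.comp ((meas_lw_fut ω β h m (pos u m) n).const_mul θ)
  have hgi : ∀ u, Integrable (g u) P := fun u => int_exp hd hω hexp β h m (pos u m) n habs
  have hind : ∀ u, IndepFun (f u) (g u) P := fun u => indep_pf hω m (hfm u) (hgm u)
  have hprod : ∀ u, Integrable (fun x => f u x * g u x) P := fun u =>
    (hind u).integrable_mul (hfi u) (hgi u)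
  have hval : ∀ u, ∫ x, f u x * g u x ∂P = (∫ x, f u x ∂P) * em P ω β h θ n := by
    intro u
    rw [← em_shift hd hω β h m (pos u m) n θ]
    exact (hind u).integral_fun_mul_eq_mul_integral (hfi u).aestronglyMeasurable
      (hgi u).aestronglyMeasurable
  have hsum : ∑ u, ∫ x, f u x ∂P = em P ω β h θ m := by
    rw [← integral_finsetSum _ (fun u _ => hfi u)]
    unfold em
    congr 1
    funext x
    simp only [hf]
    rw [← Finset.sum_mul, hp1, one_mul]
  calc em P ω β h θ m * em P ω β h θ n = ∑ u, ∫ x, f u x * g u x ∂P := by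
        simp only [hval]
        rw [← Finset.sum_mul, hsum]
    _ = ∫ x, ∑ u, f u x * g u x ∂P := (integral_finsetSum _ (fun u _ => hprod u)).symm
    _ ≤ em P ω β h θ (m + n) := by
        unfold em
        refine integral_mono (integrable_finsetSum _ fun u _ => hprod u)
          (int_exp hd hω hexp β h 0 0 (m + n) habs) ?_
        intro x
        show ∑ u, f u x * g u x ≤ Real.exp (θ * lw ω β h 0 0 (m + n) x)
        simp only [hf, hg]
        rw [exp_lw hd β h 0 0 (m + n) θ x]
        simp only [zero_add]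
        set A := part β h (fun i y => ω i y x) m Set.univ with hA
        have hA0 : 0 < A := part_pos hd _ _ _ _
        have e0 : Real.exp (θ * lw ω β h 0 0 m x) = A ^ θ := by
          rw [exp_lw hd β h 0 0 m θ x]
          simp only [zero_add, hA]
        have e1 : part β h (fun i y => ω i y x) (m + n) Set.univ = A * ∑ u, p u x *
            part β h (fun i y => ω (m + i) (pos u m + y) x) n Set.univ := by
          rw [part_add, Finset.mul_sum]
          apply Finset.sum_congr rfl
          intro u _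
          simp only [hp]
          rw [← hA]
          field_simp
        have hJ := (Real.concaveOn_rpow h0 (by linarith : θ ≤ 1)).le_map_sum
          (t := (Finset.univ : Finset (Fin m → Step d)))
          (w := fun u => p u x)
          (p := fun u => part β h (fun i y => ω (m + i) (pos u m + y) x) n Set.univ)
          (fun u _ => hp0 u x) (hp1 x) (fun u _ => (part_pos hd _ _ _ _).le)
        simp only [smul_eq_mul] at hJ
        have hS0 : 0 ≤ ∑ u, p u x *
            part β h (fun i y => ω (m + i) (pos u m + y) x) n Set.univ :=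
          Finset.sum_nonneg fun u _ => mul_nonneg (hp0 u x) (part_pos hd _ _ _ _).le
        rw [e1, Real.mul_rpow hA0.le hS0]
        calc ∑ u, p u x * Real.exp (θ * lw ω β h 0 0 m x) *
              Real.exp (θ * lw ω β h m (pos u m) n x) =
              A ^ θ * ∑ u, p u x *
                (part β h (fun i y => ω (m + i) (pos u m + y) x) n Set.univ) ^ θ := by
              rw [Finset.mul_sum]
              apply Finset.sum_congr rfl
              intro u _
              rw [e0, exp_lw hd β h m (pos u m) n θ x]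
              ring
          _ ≤ _ := mul_le_mul_of_nonneg_left hJ (Real.rpow_nonneg hA0.le _)

/-- the box -/
noncomputable def box (d m : ℕ) : Finset (Fin d → ℤ) := Finset.Icc (fun _ => -(m : ℤ)) (fun _ => (m : ℤ))

lemma card_box (d m : ℕ) : ((box d m).card : ℝ) = (2 * m + 1) ^ d := by
  have h1 : (box d m).card = (2 * m + 1) ^ d := by
    show (Finset.Icc (fun _ : Fin d => -(m : ℤ)) (fun _ => (m : ℤ))).card = _
    rw [Pi.card_Icc]
    simp only [Int.card_Icc, Finset.prod_const, Finset.card_univ, Fintype.card_fin]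
    congr 1
    omega
  rw [h1]
  push_cast
  ring

lemma mem_box {m : ℕ} {y : Fin d → ℤ} (hy : ∀ k, |y k| ≤ m) : y ∈ box d m := by
  show y ∈ Finset.Icc (fun _ : Fin d => -(m : ℤ)) (fun _ => (m : ℤ))
  rw [Finset.mem_Icc]
  exact ⟨fun j => (abs_le.1 (hy j)).1, fun j => (abs_le.1 (hy j)).2⟩

include hd hω hexp in
lemma em_sub (h : Fin d → ℝ) {θ : ℝ} (h0 : 0 ≤ θ) (h1 : θ ≤ 1 / 4) (m n : ℕ) :
    em P ω β h θ (m + n) ≤ (2 * m + 1) ^ d * (em P ω β h θ m * em P ω β h θ n) := by
  have habs : |θ| ≤ 1 / 4 := by rwa [abs_of_nonneg h0]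
  have hind : ∀ y, IndepFun (fun x => Real.exp (θ * lw ω β h 0 0 m x))
      (fun x => Real.exp (θ * lw ω β h m y n x)) P := fun y =>
    indep_pf hω m (Real.measurable_exp.comp ((meas_lw_pst ω β h le_rfl).const_mul θ))
      (Real.measurable_exp.comp ((meas_lw_fut ω β h m y n).const_mul θ))
  have hi1 := int_exp hd hω hexp β h 0 0 m habs
  have hi2 : ∀ y, Integrable (fun x => Real.exp (θ * lw ω β h m y n x)) P := fun y =>
    int_exp hd hω hexp β h m y n habs
  have hprod : ∀ y, Integrable (fun x => Real.exp (θ * lw ω β h 0 0 m x) *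
      Real.exp (θ * lw ω β h m y n x)) P := fun y => (hind y).integrable_mul hi1 (hi2 y)
  have hval : ∀ y, ∫ x, Real.exp (θ * lw ω β h 0 0 m x) * Real.exp (θ * lw ω β h m y n x) ∂P =
      em P ω β h θ m * em P ω β h θ n := by
    intro y
    rw [← em_shift hd hω β h m y n θ]
    exact (hind y).integral_fun_mul_eq_mul_integral hi1.aestronglyMeasurable
      (hi2 y).aestronglyMeasurable
  calc em P ω β h θ (m + n) ≤ ∫ x, ∑ y ∈ box d m, Real.exp (θ * lw ω β h 0 0 m x) *
      Real.exp (θ * lw ω β h m y n x) ∂P := by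
        unfold em
        refine integral_mono (int_exp hd hω hexp β h 0 0 (m + n) habs)
          (integrable_finsetSum _ fun y _ => hprod y) ?_
        intro x
        show Real.exp (θ * lw ω β h 0 0 (m + n) x) ≤ ∑ y ∈ box d m,
          Real.exp (θ * lw ω β h 0 0 m x) * Real.exp (θ * lw ω β h m y n x)
        haveI : Nonempty (Fin m → Step d) := ⟨fun _ => (⟨0, hd⟩, true)⟩
        obtain ⟨u0, -, hu0⟩ := Finset.exists_max_image (Finset.univ : Finset (Fin m → Step d))
          (fun u => part β h (fun i y => ω (m + i) (pos u m + y) x) n Set.univ)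
          Finset.univ_nonempty
        have hle : part β h (fun i y => ω i y x) (m + n) Set.univ ≤
            part β h (fun i y => ω i y x) m Set.univ *
              part β h (fun i y => ω (m + i) (pos u0 m + y) x) n Set.univ := by
          rw [part_add, part_eq β h _ m, Finset.sum_mul]
          apply Finset.sum_le_sum
          intro u _
          exact mul_le_mul_of_nonneg_left (hu0 u (Finset.mem_univ _)) (wt_pos _ _ _ _).le
        have hlw : Real.exp (θ * lw ω β h 0 0 (m + n) x) ≤
            Real.exp (θ * lw ω β h 0 0 m x) * Real.exp (θ * lw ω β h m (pos u0 m) n x) := by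
          rw [exp_lw hd, exp_lw hd, exp_lw hd, ← Real.mul_rpow (part_pos hd _ _ _ _).le
            (part_pos hd _ _ _ _).le]
          simp only [zero_add]
          exact Real.rpow_le_rpow (part_pos hd _ _ _ _).le hle h0
        refine hlw.trans ?_
        exact Finset.single_le_sum (f := fun y => Real.exp (θ * lw ω β h 0 0 m x) *
          Real.exp (θ * lw ω β h m y n x)) (fun y _ => by positivity)
          (mem_box fun k => abs_pos_le u0 m k)
    _ = ∑ y ∈ box d m, ∫ x, Real.exp (θ * lw ω β h 0 0 m x) *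
      Real.exp (θ * lw ω β h m y n x) ∂P := integral_finsetSum _ (fun y _ => hprod y)
    _ = (2 * m + 1) ^ d * (em P ω β h θ m * em P ω β h θ n) := by
        simp only [hval]
        rw [Finset.sum_const, nsmul_eq_mul, card_box]

end

/-- the limit of a sequence which is superadditive, and subadditive up to an error -/
lemma exists_lim (a c : ℕ → ℝ) (h0 : a 0 = 0) (hsup : ∀ m n, a m + a n ≤ a (m + n))
    (hsub : ∀ m n, a (m + n) ≤ a m + a n + c m) (hc : 0 ≤ c 0) :
    ∃ L : ℝ, ∀ n : ℕ, a n ≤ n * L ∧ n * L ≤ a n + c n := by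
  have h1 : ∀ n k : ℕ, (k : ℝ) * a n ≤ a (k * n) := by
    intro n k
    induction k with
    | zero => simp [h0]
    | succ k ih =>
      have := hsup (k * n) n
      rw [show (k + 1) * n = k * n + n by ring]
      push_cast
      linarith
  have h2 : ∀ n k : ℕ, a (k * n) ≤ k * (a n + c n) := by
    intro n k
    induction k with
    | zero => simp [h0]
    | succ k ih =>
      have := hsub n (k * n)
      rw [show (k + 1) * n = n + k * n by ring]
      push_cast
      linarith
  have h3 : ∀ n k : ℕ, (n : ℝ) * a k ≤ k * (a n + c n) := by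
    intro n k
    have e1 := h1 k n
    have e2 := h2 n k
    rw [mul_comm k n] at e2
    linarith
  have hbdd : BddAbove (Set.range fun k : ℕ => a (k + 1) / ((k : ℝ) + 1)) := by
    refine ⟨a 1 + c 1, ?_⟩
    rintro _ ⟨k, rfl⟩
    simp only
    rw [div_le_iff₀ (by positivity)]
    have := h3 1 (k + 1)
    push_cast at this
    linarith
  refine ⟨⨆ k : ℕ, a (k + 1) / ((k : ℝ) + 1), ?_⟩
  intro n
  rcases Nat.eq_zero_or_pos n with rfl | hn
  · simp [h0, hc]
  · have hn' : (0 : ℝ) < n := by exact_mod_cast hn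
    constructor
    · have h4 := le_ciSup hbdd (n - 1)
      have e : ((n - 1 : ℕ) : ℝ) + 1 = n := by
        rw [Nat.cast_sub hn]; simp
      rw [e, show n - 1 + 1 = n by omega, div_le_iff₀ hn'] at h4
      linarith
    · rw [mul_comm, ← le_div_iff₀ hn']
      apply ciSup_le
      intro k
      rw [div_le_div_iff₀ (by positivity) hn']
      have := h3 n (k + 1)
      push_cast at this
      linarith

end U874.RG
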