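import Pool.Agent.N692.SD.AC

/-!
# One-site inequality for powers of the partition function, under a tilted law
-/

set_option autoImplicit false

open MeasureTheory ProbabilityTheory

namespace U874.RG

open TH967.DP (score measurable_score integrable_bdd abs_score_le integral_score
  integral_score_sq mp_update log_inc_down integral_ind integrable_ind)

/-- one-site comparison under the law with density `1 + l * score` -/
lemma one_site_w (μ : Measure ℝ) [IsProbabilityMeasure μ] {a b : ℝ} (hab : a < b)
    (hp : 0 < μ.real (Set.Ici b)) (hm : 0 < μ.real (Set.Iic a)) {F h : ℝ → ℝ}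
    (iF : Integrable F μ) (ih : Integrable h μ) {l : ℝ} (hl0 : 0 ≤ l)
    (hl : l ≤ μ.real (Set.Iic a))
    (key : ∀ v w u, v ≤ a → b ≤ u → v ≤ w → w ≤ u → h w ≤ F u - F v) :
    ∫ x, h x * (1 + l * score μ a b x) ∂μ ≤ ∫ x, F x * score μ a b x ∂μ := by
  set pp := μ.real (Set.Ici b) with hpp
  set pm := μ.real (Set.Iic a) with hpm
  set Ap := (∫ x in Set.Ici b, F x ∂μ) / pp with hAp
  set Am := (∫ x in Set.Iic a, F x ∂μ) / pm with hAm
  have eAp : ∫ x in Set.Ici b, F x ∂μ = pp * Ap := by rw [hAp]; field_simp
  have eAm : ∫ x in Set.Iic a, F x ∂μ = pm * Am := by rw [hAm]; field_simp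
  have I1 : ∀ x, (Set.Ici b).indicator (fun _ => (1 : ℝ)) x * F x = (Set.Ici b).indicator F x := by
    intro x
    by_cases hx : x ∈ Set.Ici b
    · rw [Set.indicator_of_mem hx, Set.indicator_of_mem hx, one_mul]
    · rw [Set.indicator_of_notMem hx, Set.indicator_of_notMem hx, zero_mul]
  have I2 : ∀ x, (Set.Iic a).indicator (fun _ => (1 : ℝ)) x * F x = (Set.Iic a).indicator F x := by
    intro x
    by_cases hx : x ∈ Set.Iic a
    · rw [Set.indicator_of_mem hx, Set.indicator_of_mem hx, one_mul]
    · rw [Set.indicator_of_notMem hx, Set.indicator_of_notMem hx, zero_mul]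
  have iI1 : Integrable ((Set.Ici b).indicator F) μ := iF.indicator measurableSet_Ici
  have iI2 : Integrable ((Set.Iic a).indicator F) μ := iF.indicator measurableSet_Iic
  have isc : Integrable (score μ a b) μ :=
    integrable_bdd (measurable_score μ a b) (fun x => abs_score_le μ a b x)
  -- right side
  have R : ∫ x, F x * score μ a b x ∂μ = Ap - Am := by
    have e : ∀ x, F x * score μ a b x =
        (Set.Ici b).indicator F x / pp - (Set.Iic a).indicator F x / pm := by
      intro x
      rw [← I1, ← I2]
      unfold score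
      ring
    simp_rw [e]
    rw [integral_sub (iI1.div_const _) (iI2.div_const _), integral_div, integral_div,
      integral_indicator measurableSet_Ici, integral_indicator measurableSet_Iic]
  rw [R]
  have av1 : ∀ (c : ℝ), (∀ u, b ≤ u → c ≤ F u) → c ≤ Ap := by
    intro c hc
    rw [hAp, le_div_iff₀ hp]
    have : ∫ x in Set.Ici b, c ∂μ ≤ ∫ x in Set.Ici b, F x ∂μ := by
      apply setIntegral_mono_on (by simp) iF.integrableOn measurableSet_Ici
      intro x hx
      exact hc x hx
    simp only [setIntegral_const, smul_eq_mul] at this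
    rw [← hpp] at this
    linarith
  have av2 : ∀ (c : ℝ), (∀ v, v ≤ a → F v ≤ c) → Am ≤ c := by
    intro c hc
    rw [hAm, div_le_iff₀ hm]
    have : ∫ x in Set.Iic a, F x ∂μ ≤ ∫ x in Set.Iic a, c ∂μ := by
      apply setIntegral_mono_on iF.integrableOn (by simp) measurableSet_Iic
      intro x hx
      exact hc x hx
    simp only [setIntegral_const, smul_eq_mul] at this
    rw [← hpm] at this
    linarith
  -- pointwise bound
  have P : ∀ w, h w ≤ (Set.Ici b).indicator (fun _ => (1 : ℝ)) w * (F w - Ap)
      + (Set.Iic a).indicator (fun _ => (1 : ℝ)) w * (Am - F w) + (Ap - Am) := by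
    intro w
    by_cases hb : b ≤ w
    · have n1 : w ∈ Set.Ici b := hb
      have n2 : w ∉ Set.Iic a := by simp; linarith
      rw [Set.indicator_of_mem n1, Set.indicator_of_notMem n2]
      have : Am ≤ F w - h w := av2 _ (fun v hv => by
        have := key v w w hv hb (by linarith) le_rfl
        linarith)
      linarith
    · push Not at hb
      have n1 : w ∉ Set.Ici b := by simp [hb]
      by_cases ha : w ≤ a
      · have n2 : w ∈ Set.Iic a := ha
        rw [Set.indicator_of_notMem n1, Set.indicator_of_mem n2]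
        have : h w + F w ≤ Ap := av1 _ (fun u hu => by
          have := key w w u ha hu le_rfl (by linarith)
          linarith)
        linarith
      · push Not at ha
        have n2 : w ∉ Set.Iic a := by simp [ha]
        rw [Set.indicator_of_notMem n1, Set.indicator_of_notMem n2]
        have : h w + Am ≤ Ap := av1 _ (fun u hu => by
          have : Am ≤ F u - h w := av2 _ (fun v hv => by
            have := key v w u hv hu (by linarith) (by linarith)
            linarith)
          linarith)
        linarith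
  -- the weight
  have hD0 : ∀ x, 0 ≤ 1 + l * score μ a b x := by
    intro x
    have h1 : -(1 / pm) ≤ score μ a b x := by
      unfold score
      rw [← hpm, ← hpp]
      have h2 : 0 ≤ (Set.Ici b).indicator (fun _ => (1 : ℝ)) x / pp :=
        div_nonneg (Set.indicator_nonneg (fun _ _ => zero_le_one) _) hp.le
      have h3 : (Set.Iic a).indicator (fun _ => (1 : ℝ)) x / pm ≤ 1 / pm := by
        apply div_le_div_of_nonneg_right _ hm.le
        by_cases h : x ∈ Set.Iic a
        · rw [Set.indicator_of_mem h]
        · rw [Set.indicator_of_notMem h]; exact zero_le_one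
      linarith
    have h2 := mul_le_mul_of_nonneg_left h1 hl0
    have h3 : l * (1 / pm) ≤ 1 := by
      rw [mul_one_div, div_le_one hm]
      exact hl
    linarith
  have Q : ∀ w, ((Set.Ici b).indicator (fun _ => (1 : ℝ)) w * (F w - Ap)
      + (Set.Iic a).indicator (fun _ => (1 : ℝ)) w * (Am - F w) + (Ap - Am)) *
        (1 + l * score μ a b w) =
      (Set.Ici b).indicator (fun _ => (1 : ℝ)) w * (F w - Ap) * (1 + l / pp) +
      (Set.Iic a).indicator (fun _ => (1 : ℝ)) w * (Am - F w) * (1 - l / pm) +
      ((Ap - Am) + (Ap - Am) * l * score μ a b w) := by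
    intro w
    unfold score
    rw [← hpm, ← hpp]
    by_cases hb : w ∈ Set.Ici b
    · have n2 : w ∉ Set.Iic a := by
        have : b ≤ w := hb
        simp only [Set.mem_Iic, not_le]; linarith
      rw [Set.indicator_of_mem hb, Set.indicator_of_notMem n2]
      ring
    · by_cases ha : w ∈ Set.Iic a
      · rw [Set.indicator_of_notMem hb, Set.indicator_of_mem ha]
        ring
      · rw [Set.indicator_of_notMem hb, Set.indicator_of_notMem ha]
        ring
  have iJ1 : Integrable (fun w => (Set.Ici b).indicator (fun _ => (1 : ℝ)) w * (F w - Ap)) μ := by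
    have : (fun w => (Set.Ici b).indicator (fun _ => (1 : ℝ)) w * (F w - Ap)) =
        fun w => (Set.Ici b).indicator F w - (Set.Ici b).indicator (fun _ => (1 : ℝ)) w * Ap := by
      ext w; rw [← I1]; ring
    rw [this]
    exact iI1.sub ((integrable_ind measurableSet_Ici).mul_const _)
  have iJ2 : Integrable (fun w => (Set.Iic a).indicator (fun _ => (1 : ℝ)) w * (Am - F w)) μ := by
    have : (fun w => (Set.Iic a).indicator (fun _ => (1 : ℝ)) w * (Am - F w)) =
        fun w => (Set.Iic a).indicator (fun _ => (1 : ℝ)) w * Am - (Set.Iic a).indicator F w := by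
      ext w; rw [← I2]; ring
    rw [this]
    exact ((integrable_ind measurableSet_Iic).mul_const _).sub iI2
  have E1 : ∫ w, (Set.Ici b).indicator (fun _ => (1 : ℝ)) w * (F w - Ap) ∂μ = 0 := by
    have : (fun w => (Set.Ici b).indicator (fun _ => (1 : ℝ)) w * (F w - Ap)) =
        fun w => (Set.Ici b).indicator F w - (Set.Ici b).indicator (fun _ => (1 : ℝ)) w * Ap := by
      ext w; rw [← I1]; ring
    rw [this, integral_sub iI1 ((integrable_ind measurableSet_Ici).mul_const _),
      integral_mul_const, integral_ind measurableSet_Ici, integral_indicator measurableSet_Ici, eAp]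
    ring
  have E2 : ∫ w, (Set.Iic a).indicator (fun _ => (1 : ℝ)) w * (Am - F w) ∂μ = 0 := by
    have : (fun w => (Set.Iic a).indicator (fun _ => (1 : ℝ)) w * (Am - F w)) =
        fun w => (Set.Iic a).indicator (fun _ => (1 : ℝ)) w * Am - (Set.Iic a).indicator F w := by
      ext w; rw [← I2]; ring
    rw [this, integral_sub ((integrable_ind measurableSet_Iic).mul_const _) iI2,
      integral_mul_const, integral_ind measurableSet_Iic, integral_indicator measurableSet_Iic, eAm]
    ring
  have hbw : ∀ x, |1 + l * score μ a b x| ≤ 1 + l * (1 / pp + 1 / pm) := by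
    intro x
    have h1 := abs_score_le μ a b x
    rw [← hpp, ← hpm] at h1
    calc |1 + l * score μ a b x| ≤ |(1 : ℝ)| + |l * score μ a b x| := abs_add_le _ _
      _ = 1 + l * |score μ a b x| := by rw [abs_one, abs_mul, abs_of_nonneg hl0]
      _ ≤ _ := by
        have := mul_le_mul_of_nonneg_left h1 hl0
        linarith
  have mw : Measurable (fun x => 1 + l * score μ a b x) :=
    ((measurable_score μ a b).const_mul l).const_add 1
  have ihw : Integrable (fun x => h x * (1 + l * score μ a b x)) μ := by
    refine ih.mul_bdd (c := 1 + l * (1 / pp + 1 / pm)) mw.aestronglyMeasurable ?_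
    exact Filter.Eventually.of_forall hbw
  have iR : Integrable (fun w =>
      (Set.Ici b).indicator (fun _ => (1 : ℝ)) w * (F w - Ap) * (1 + l / pp) +
      (Set.Iic a).indicator (fun _ => (1 : ℝ)) w * (Am - F w) * (1 - l / pm) +
      ((Ap - Am) + (Ap - Am) * l * score μ a b w)) μ :=
    ((iJ1.mul_const _).add (iJ2.mul_const _)).add ((integrable_const _).add (isc.const_mul _))
  calc ∫ x, h x * (1 + l * score μ a b x) ∂μ ≤ ∫ w,
      ((Set.Ici b).indicator (fun _ => (1 : ℝ)) w * (F w - Ap) * (1 + l / pp) +
      (Set.Iic a).indicator (fun _ => (1 : ℝ)) w * (Am - F w) * (1 - l / pm) +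
      ((Ap - Am) + (Ap - Am) * l * score μ a b w)) ∂μ := by
        apply integral_mono ihw iR
        intro w
        show _ ≤ (Set.Ici b).indicator (fun _ => (1 : ℝ)) w * (F w - Ap) * (1 + l / pp) +
          (Set.Iic a).indicator (fun _ => (1 : ℝ)) w * (Am - F w) * (1 - l / pm) +
          ((Ap - Am) + (Ap - Am) * l * score μ a b w)
        rw [← Q w]
        exact mul_le_mul_of_nonneg_right (P w) (hD0 w)
    _ = Ap - Am := by
        have e1 := integral_add ((iJ1.mul_const (1 + l / pp)).add (iJ2.mul_const (1 - l / pm)))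
          ((integrable_const (μ := μ) (Ap - Am)).add (isc.const_mul ((Ap - Am) * l)))
        have e2 := integral_add (iJ1.mul_const (1 + l / pp)) (iJ2.mul_const (1 - l / pm))
        have e3 := integral_add (integrable_const (μ := μ) (Ap - Am))
          (isc.const_mul ((Ap - Am) * l))
        simp only [Pi.add_apply] at e1 e2 e3
        rw [e1, e2, e3, integral_mul_const, integral_mul_const, integral_const_mul, E1, E2,
          integral_score μ hp hm]
        simp

/-- the weight is nonnegative -/
lemma weight_nonneg (μ : Measure ℝ) [IsProbabilityMeasure μ] {a b : ℝ}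
    (hm : 0 < μ.real (Set.Iic a)) {l : ℝ} (hl0 : 0 ≤ l)
    (hl : l ≤ μ.real (Set.Iic a)) (x : ℝ) : 0 ≤ 1 + l * score μ a b x := by
  have h1 : -(1 / μ.real (Set.Iic a)) ≤ score μ a b x := by
    unfold score
    have h2 : 0 ≤ (Set.Ici b).indicator (fun _ => (1 : ℝ)) x / μ.real (Set.Ici b) :=
      div_nonneg (Set.indicator_nonneg (fun _ _ => zero_le_one) _) measureReal_nonneg
    have h3 : (Set.Iic a).indicator (fun _ => (1 : ℝ)) x / μ.real (Set.Iic a) ≤
        1 / μ.real (Set.Iic a) := by
      apply div_le_div_of_nonneg_right _ hm.le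
      by_cases h : x ∈ Set.Iic a
      · rw [Set.indicator_of_mem h]
      · rw [Set.indicator_of_notMem h]; exact zero_le_one
    linarith
  have h2 := mul_le_mul_of_nonneg_left h1 hl0
  have h3 : l * (1 / μ.real (Set.Iic a)) ≤ 1 := by
    rw [mul_one_div, div_le_one hm]
    exact hl
  linarith

/-- `exp (-x) ≤ 1 - x / 2` for `0 ≤ x ≤ 1` -/
lemma exp_neg_le {x : ℝ} (h0 : 0 ≤ x) (h1 : x ≤ 1) : Real.exp (-x) ≤ 1 - x / 2 := by
  have h2 := Real.add_one_le_exp x
  have h3 : 0 < Real.exp x := Real.exp_pos x
  rw [Real.exp_neg, inv_le_comm₀ h3 (by linarith)]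
  refine le_trans ?_ h2
  rw [inv_eq_one_div, div_le_iff₀ (by linarith)]
  nlinarith

/-- the key inequality for powers -/
lemma pow_key {A B V X U q α : ℝ} (hA : 0 ≤ A) (hB : 0 ≤ B) (hV : 0 < V) (hVX : V ≤ X)
    (hXU : X ≤ U) (hZ : 0 < A + B * V) (hq0 : 0 ≤ q) (hq1 : q ≤ 1) (hq : q ≤ 1 - V / U)
    (hα : 0 ≤ α) (hα1 : α ≤ 1) :
    α * q / 2 * (B * X / (A + B * X) * (A + B * X) ^ α) ≤ (A + B * U) ^ α - (A + B * V) ^ α := by
  have hX : 0 < X := lt_of_lt_of_le hV hVX
  have hU : 0 < U := lt_of_lt_of_le hX hXU
  have hZX : 0 < A + B * X := lt_of_lt_of_le hZ (by nlinarith)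
  have hZU : 0 < A + B * U := lt_of_lt_of_le hZX (by nlinarith)
  set oX := B * X / (A + B * X) with hoX
  set oU := B * U / (A + B * U) with hoU
  have ho0 : 0 ≤ oX := by positivity
  have hoU1 : oU ≤ 1 := by
    rw [hoU, div_le_one hZU]; linarith
  have hoXU : oX ≤ oU := by
    rw [hoX, hoU, div_le_div_iff₀ hZX hZU]
    have : 0 ≤ A * B * (U - X) := mul_nonneg (mul_nonneg hA hB) (by linarith)
    nlinarith
  have hoU0 : 0 ≤ oU := ho0.trans hoXU
  have h1 := log_inc_down hA hB hV (hVX.trans hXU) hZ
  rw [← hoU] at h1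
  have h2 : q * oU ≤ Real.log (A + B * U) - Real.log (A + B * V) :=
    (mul_le_mul_of_nonneg_right hq hoU0).trans h1
  have h3 : (A + B * V) ^ α ≤ (A + B * U) ^ α * (1 - α * q * oU / 2) := by
    have e1 : (A + B * V) ^ α = Real.exp (Real.log (A + B * V) * α) :=
      Real.rpow_def_of_pos hZ α
    have e2 : (A + B * U) ^ α = Real.exp (Real.log (A + B * U) * α) :=
      Real.rpow_def_of_pos hZU α
    have h4 : Real.exp (-(α * q * oU)) ≤ 1 - α * q * oU / 2 := by
      apply exp_neg_le (by positivity)
      calc α * q * oU ≤ 1 * 1 * 1 := by gcongr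
        _ = 1 := by norm_num
    calc (A + B * V) ^ α = Real.exp (Real.log (A + B * V) * α) := e1
      _ ≤ Real.exp (Real.log (A + B * U) * α + -(α * q * oU)) := by
        apply Real.exp_le_exp.2
        have := mul_le_mul_of_nonneg_left h2 hα
        nlinarith
      _ = (A + B * U) ^ α * Real.exp (-(α * q * oU)) := by rw [Real.exp_add, ← e2]
      _ ≤ (A + B * U) ^ α * (1 - α * q * oU / 2) :=
        mul_le_mul_of_nonneg_left h4 (Real.rpow_nonneg hZU.le _)
  have h5 : (A + B * X) ^ α ≤ (A + B * U) ^ α :=
    Real.rpow_le_rpow hZX.le (by nlinarith) hα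
  calc α * q / 2 * (oX * (A + B * X) ^ α) ≤ α * q / 2 * (oU * (A + B * U) ^ α) := by
        apply mul_le_mul_of_nonneg_left _ (by positivity)
        exact mul_le_mul hoXU h5 (Real.rpow_nonneg hZX.le _) hoU0
    _ = (A + B * U) ^ α - (A + B * U) ^ α * (1 - α * q * oU / 2) := by ring
    _ ≤ _ := by linarith

end U874.RG
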