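import Pool.Agent.U874.RG.LD

/-!
# Fluctuations above the mean at the scale `n^χ`, `χ < 1/5`, for infinitely many `n`
-/

set_option autoImplicit false
set_option linter.unusedSectionVars false

open MeasureTheory ProbabilityTheory Filter Topology

namespace U874.RG

open Pool.Agent.N662.SE (IsEnv lw)

variable {Ω : Type} [MeasurableSpace Ω] {P : Measure Ω} [IsProbabilityMeasure P]
  {ω : ℕ → (Fin 1 → ℤ) → Ω → ℝ} (hω : IsEnv P ω)
  (hexp : ∀ b : ℝ, Integrable (fun x => Real.exp (b * ω 1 0 x)) P) {β : ℝ}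
  {φ : (Fin 1 → ℝ) → ℝ} {Λ : (Fin 1 → ℝ) → ℝ → ℝ} {C : ℝ} (hR : IsRate P ω β φ Λ C)

/-- the second moment method -/
lemma pz {Y : Ω → ℝ} (hY : Measurable Y) (hi : Integrable Y P)
    (hi2 : Integrable (fun x => Y x ^ 2) P) {m M : ℝ} (hm : 0 < m) (hM : 0 < M)
    (h1 : m ≤ ∫ x, Y x ∂P) (h2 : ∫ x, Y x ^ 2 ∂P ≤ M) :
    m ^ 2 / (4 * M) ≤ P.real {x | m / 2 ≤ Y x} := by
  set A := {x | m / 2 ≤ Y x} with hA
  have hAm : MeasurableSet A := measurableSet_le measurable_const hY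
  have hpt : ∀ x, Y x ≤ m / 2 + (m / (4 * M) * Y x ^ 2 +
      M / m * A.indicator (fun _ => (1 : ℝ)) x) := by
    intro x
    by_cases hx : x ∈ A
    · rw [Set.indicator_of_mem hx, mul_one]
      have h3 : 0 ≤ m / (4 * M) * (Y x - 2 * M / m) ^ 2 := by positivity
      have h4 : m / (4 * M) * (Y x - 2 * M / m) ^ 2 = m / (4 * M) * Y x ^ 2 - Y x + M / m := by
        field_simp
        ring
      linarith
    · rw [Set.indicator_of_notMem hx, mul_zero, add_zero]
      have h3 : Y x < m / 2 := by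
        by_contra hcon
        push Not at hcon
        exact hx hcon
      have h4 : 0 ≤ m / (4 * M) * Y x ^ 2 := by positivity
      linarith
  have hind : Integrable (fun x => M / m * A.indicator (fun _ => (1 : ℝ)) x) P :=
    ((integrable_const (1 : ℝ)).indicator hAm).const_mul _
  have hI : Integrable (fun x => m / (4 * M) * Y x ^ 2 +
      M / m * A.indicator (fun _ => (1 : ℝ)) x) P := (hi2.const_mul _).add hind
  have e1 : ∫ x, (m / 2 + (m / (4 * M) * Y x ^ 2 +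
      M / m * A.indicator (fun _ => (1 : ℝ)) x)) ∂P = m / 2 + (m / (4 * M) * ∫ x, Y x ^ 2 ∂P +
      M / m * P.real A) := by
    rw [integral_add (integrable_const _) hI, integral_add (hi2.const_mul _) hind,
      integral_const_mul, integral_const_mul, integral_indicator hAm]
    simp
  have e2 : ∫ x, Y x ∂P ≤ m / 2 + (m / (4 * M) * ∫ x, Y x ^ 2 ∂P + M / m * P.real A) := by
    rw [← e1]
    exact integral_mono hi ((integrable_const _).add hI) hpt
  have h3 : m / (4 * M) * ∫ x, Y x ^ 2 ∂P ≤ m / 4 := by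
    calc m / (4 * M) * ∫ x, Y x ^ 2 ∂P ≤ m / (4 * M) * M :=
          mul_le_mul_of_nonneg_left h2 (by positivity)
      _ = m / 4 := by field_simp
  have h4 : m / 4 ≤ M / m * P.real A := by linarith
  rw [div_le_iff₀ (by positivity)]
  have h5 := mul_le_mul_of_nonneg_left h4 (show 0 ≤ 4 * m by positivity)
  have h6 : 4 * m * (M / m * P.real A) = P.real A * (4 * M) := by field_simp
  nlinarith

/-- doubling scales -/
lemma doubling {g : ℝ → ℝ} (h1 : ∀ᶠ θ : ℝ in 𝓝[>] 0, θ ^ (11 / 2 : ℝ) ≤ g θ) :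
    ∃ᶠ k : ℕ in atTop, g (2 * (1 / 2 : ℝ) ^ k) ≤ 64 * g ((1 / 2 : ℝ) ^ k) := by
  intro hcon
  have ht : Tendsto (fun k : ℕ => (1 / 2 : ℝ) ^ k) atTop (𝓝[>] 0) := by
    rw [tendsto_nhdsWithin_iff]
    refine ⟨tendsto_pow_atTop_nhds_zero_of_lt_one (by norm_num) (by norm_num), ?_⟩
    filter_upwards with k
    show (0 : ℝ) < (1 / 2 : ℝ) ^ k
    positivity
  obtain ⟨k0, hk0⟩ := eventually_atTop.1 (hcon.and (ht.eventually h1))
  have hdec : ∀ j : ℕ, 64 ^ j * g ((1 / 2 : ℝ) ^ (k0 + j)) ≤ g ((1 / 2 : ℝ) ^ k0) := by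
    intro j
    induction j with
    | zero => simp
    | succ j ih =>
      have h2 := (hk0 (k0 + (j + 1)) (by omega)).1
      push Not at h2
      have e : 2 * (1 / 2 : ℝ) ^ (k0 + (j + 1)) = (1 / 2 : ℝ) ^ (k0 + j) := by
        rw [← add_assoc, pow_succ]
        ring
      rw [e] at h2
      calc (64 : ℝ) ^ (j + 1) * g ((1 / 2 : ℝ) ^ (k0 + (j + 1))) =
          64 ^ j * (64 * g ((1 / 2 : ℝ) ^ (k0 + (j + 1)))) := by ring
        _ ≤ 64 ^ j * g ((1 / 2 : ℝ) ^ (k0 + j)) := mul_le_mul_of_nonneg_left h2.le (by positivity)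
        _ ≤ _ := ih
  have hlow : ∀ j : ℕ, 64 ^ j * ((1 / 2 : ℝ) ^ (k0 + j)) ^ (11 / 2 : ℝ) ≤
      g ((1 / 2 : ℝ) ^ k0) := by
    intro j
    exact (mul_le_mul_of_nonneg_left (hk0 (k0 + j) (by omega)).2 (by positivity)).trans (hdec j)
  have e : ∀ j : ℕ, (64 : ℝ) ^ j * ((1 / 2 : ℝ) ^ (k0 + j)) ^ (11 / 2 : ℝ) =
      ((1 / 2 : ℝ) ^ k0) ^ (11 / 2 : ℝ) * (64 * (1 / 2 : ℝ) ^ (11 / 2 : ℝ)) ^ j := by
    intro j
    rw [pow_add, Real.mul_rpow (by positivity) (by positivity), mul_pow]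
    have : ((1 / 2 : ℝ) ^ j) ^ (11 / 2 : ℝ) = ((1 / 2 : ℝ) ^ (11 / 2 : ℝ)) ^ j := by
      rw [← Real.rpow_natCast, ← Real.rpow_natCast, ← Real.rpow_mul (by norm_num),
        ← Real.rpow_mul (by norm_num), mul_comm]
    rw [this]
    ring
  have hbig : (1 : ℝ) < 64 * (1 / 2 : ℝ) ^ (11 / 2 : ℝ) := by
    have h2 : (1 / 2 : ℝ) ^ (6 : ℝ) < (1 / 2 : ℝ) ^ (11 / 2 : ℝ) :=
      Real.rpow_lt_rpow_of_exponent_gt (by norm_num) (by norm_num) (by norm_num)
    have h3 : (1 / 2 : ℝ) ^ (6 : ℝ) = 1 / 64 := by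
      rw [show (6 : ℝ) = ((6 : ℕ) : ℝ) by norm_num, Real.rpow_natCast]
      norm_num
    rw [h3] at h2
    linarith
  have hc : 0 < ((1 / 2 : ℝ) ^ k0) ^ (11 / 2 : ℝ) := by positivity
  have htop := (tendsto_pow_atTop_atTop_of_one_lt hbig).const_mul_atTop hc
  obtain ⟨j, hj⟩ := (htop.eventually (eventually_gt_atTop (g ((1 / 2 : ℝ) ^ k0)))).exists
  have := hlow j
  rw [e] at this
  linarith

/-- the last numerical step -/
lemma num_final {n G K ℓ M₀ L : ℝ} (hn0 : 0 < n) (hn1' : 1 ≤ n) (hK0 : 0 < K)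
    (hM₀' : 36 * Real.exp 62 ≤ M₀) (hn72 : M₀ ≤ n) (h8 : ℓ ≤ Real.log n)
    (hL : L = K * ℓ) (hnG2 : n * G ≤ L + 1) :
    n ^ (-(62 * K + 3)) * (4 * (2 * n + 1) ^ 2) ≤ Real.exp (-(62 * (n * G))) := by
  have h7 : Real.exp (-62) * n ^ (-(62 * K)) ≤ Real.exp (-(62 * (n * G))) := by
    rw [Real.rpow_def_of_pos hn0, ← Real.exp_add]
    apply Real.exp_le_exp.2
    have h9 : 62 * K * ℓ ≤ 62 * K * Real.log n := mul_le_mul_of_nonneg_left h8 (by positivity)
    rw [hL] at hnG2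
    linarith
  refine le_trans ?_ h7
  have h8 : n ^ (-(62 * K + 3)) = n ^ (-(62 * K)) * (n ^ 3)⁻¹ := by
    rw [show -(62 * K + 3) = -(62 * K) + -((3 : ℕ) : ℝ) by push_cast; ring, Real.rpow_add hn0,
      Real.rpow_neg hn0.le ((3 : ℕ) : ℝ), Real.rpow_natCast]
  rw [h8]
  have h9 : (n ^ 3)⁻¹ * (4 * (2 * n + 1) ^ 2) ≤ Real.exp (-62) := by
    rw [inv_mul_le_iff₀ (by positivity), Real.exp_neg]
    have h10 : 4 * (2 * n + 1) ^ 2 ≤ 36 * n ^ 2 := by
      have h13 : (2 * n + 1) ^ 2 ≤ (3 * n) ^ 2 :=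
        pow_le_pow_left₀ (by linarith) (by linarith) 2
      calc 4 * (2 * n + 1) ^ 2 ≤ 4 * (3 * n) ^ 2 :=
            mul_le_mul_of_nonneg_left h13 (by norm_num)
        _ = 36 * n ^ 2 := by ring
    have h11 : 36 * n ^ 2 ≤ n ^ 3 * (Real.exp 62)⁻¹ := by
      rw [← div_eq_mul_inv, le_div_iff₀ (Real.exp_pos _)]
      have h12 : 36 * Real.exp 62 ≤ n := hM₀'.trans hn72
      calc 36 * n ^ 2 * Real.exp 62 = (36 * Real.exp 62) * n ^ 2 := by ring
        _ ≤ n * n ^ 2 := mul_le_mul_of_nonneg_right h12 (by positivity)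
        _ = n ^ 3 := by ring
    exact h10.trans h11
  calc n ^ (-(62 * K)) * (n ^ 3)⁻¹ * (4 * (2 * n + 1) ^ 2) =
      n ^ (-(62 * K)) * ((n ^ 3)⁻¹ * (4 * (2 * n + 1) ^ 2)) := by ring
    _ ≤ n ^ (-(62 * K)) * Real.exp (-62) := mul_le_mul_of_nonneg_left h9 (by positivity)
    _ = _ := by ring

include hω hexp hR in
/-- fluctuations above the mean -/
lemma osc {h : Fin 1 → ℝ}
    (hgap : ∀ p : ℝ, 5 < p → ∀ᶠ θ : ℝ in 𝓝[>] 0, θ ^ p ≤ Λ h θ - θ * φ h) {χ : ℝ}
    (hχ : χ < 1 / 5) : ∃ K : ℝ, ∃ᶠ n : ℕ in atTop,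
      (n : ℝ) ^ (-K) ≤ ut P ω β h n (n * φ h + (n : ℝ) ^ χ) := by
  have hC : 1 ≤ C := hR.C_pos
  set χ' := max χ (1 / 10) with hχ'
  have hχ1 : χ' < 1 / 5 := max_lt hχ (by norm_num)
  have hχ2 : 1 / 10 ≤ χ' := le_max_right _ _
  have hχ3 : χ ≤ χ' := le_max_left _ _
  have hχ0 : 0 < χ' := by linarith
  have h5 : 5 < 1 / χ' := by
    rw [lt_div_iff₀ hχ0]
    linarith
  set p := (5 + 1 / χ') / 2 with hp
  have hp5 : 5 < p := by rw [hp]; linarith
  have hpχ : p * χ' < 1 := by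
    have h6 : p < 1 / χ' := by rw [hp]; linarith
    calc p * χ' < 1 / χ' * χ' := mul_lt_mul_of_pos_right h6 hχ0
      _ = 1 := by field_simp
  set K := p + 3 with hK
  have hK0 : 0 < K := by linarith
  set g : ℝ → ℝ := fun θ => Λ h θ - θ * φ h with hg
  obtain ⟨M₀, hM₀, hM₀'⟩ : ∃ M₀ : ℝ, 0 < M₀ ∧ 36 * Real.exp 62 ≤ M₀ :=
    ⟨36 * Real.exp 62, by positivity, le_rfl⟩
  refine ⟨62 * K + 3, ?_⟩
  rw [frequently_atTop]
  intro N
  have hN0 : (0 : ℝ) ≤ N := Nat.cast_nonneg N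
  -- smallness conditions on θ
  have t0 : Tendsto (fun k : ℕ => (1 / 2 : ℝ) ^ k) atTop (𝓝[>] 0) := by
    rw [tendsto_nhdsWithin_iff]
    refine ⟨tendsto_pow_atTop_nhds_zero_of_lt_one (by norm_num) (by norm_num), ?_⟩
    filter_upwards with k
    show (0 : ℝ) < (1 / 2 : ℝ) ^ k
    positivity
  -- log (1/θ) is smaller than any power
  have tl : ∀ a : ℝ, 0 < a → ∀ c : ℝ, 0 < c → ∀ᶠ θ : ℝ in 𝓝[>] 0,
      Real.log (1 / θ) ≤ c * θ ^ (-a) := by
    intro a ha c hc
    have h6 : Tendsto (fun θ : ℝ => Real.log θ * θ ^ a) (𝓝[>] 0) (𝓝 0) :=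
      tendsto_log_mul_rpow_nhdsGT_zero ha
    filter_upwards [h6.eventually (lt_mem_nhds (show -c < 0 by linarith)),
      self_mem_nhdsWithin] with θ h7 h8
    have h9 : (0 : ℝ) < θ := h8
    have h10 : 0 < θ ^ a := by positivity
    rw [one_div, Real.log_inv, Real.rpow_neg h9.le, ← div_eq_mul_inv, le_div_iff₀ h10]
    linarith
  have tc : ∀ c : ℝ, ∀ᶠ θ : ℝ in 𝓝[>] 0, c ≤ Real.log (1 / θ) := by
    intro c
    have h6 : Tendsto (fun θ : ℝ => Real.log (1 / θ)) (𝓝[>] 0) atTop := by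
      simp only [one_div, Real.log_inv]
      exact tendsto_neg_atBot_atTop.comp Real.tendsto_log_nhdsGT_zero
    exact h6.eventually (eventually_ge_atTop c)
  have hsm : ∀ᶠ θ : ℝ in 𝓝[>] 0, θ < 1 / 8 :=
    nhdsWithin_le_nhds (gt_mem_nhds (by norm_num))
  have hsm2 : ∀ᶠ θ : ℝ in 𝓝[>] 0, θ < 1 / (C * (N + M₀ + 1)) :=
    nhdsWithin_le_nhds (gt_mem_nhds (by positivity))
  have he1 : 0 < 1 - p * χ' := by linarith
  have hexc := (hgap p hp5).and ((tl (1 / 2) (by norm_num) (1 / (4 * K)) (by positivity)).and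
    ((tl ((1 - p * χ') / χ') (by positivity) (1 / (2 * K + 1)) (by positivity)).and
    ((tc (1 + Real.log 6)).and (hsm.and hsm2))))
  obtain ⟨k, hk1, hk2⟩ := ((doubling (g := g) (hgap (11 / 2) (by norm_num))).and_eventually
    (t0.eventually hexc)).exists
  set θ := (1 / 2 : ℝ) ^ k with hθ
  obtain ⟨c1, c2, c3, c4, c5, c6⟩ := hk2
  have hθ0 : 0 < θ := by positivity
  set ℓ := Real.log (1 / θ) with hℓ
  have hℓ1 : 1 ≤ ℓ := by
    have : 0 ≤ Real.log 6 := Real.log_nonneg (by norm_num)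
    linarith
  have hexpℓ : Real.exp ℓ = θ⁻¹ := by rw [hℓ, Real.exp_log (by positivity), one_div]
  set G := g θ with hG
  have hG1 : θ ^ p ≤ G := c1
  have hG0 : 0 < G := lt_of_lt_of_le (by positivity) hG1
  have hG2 : G ≤ C * θ ^ 2 := by
    have := hR.up h θ hθ0.le (by linarith)
    simp only [hG, hg]
    linarith
  set L := K * ℓ with hL
  have hL1 : 1 ≤ L := one_le_mul_of_one_le_of_one_le (by linarith) hℓ1
  set n := ⌈L / G⌉₊ with hn
  have hn1 : L / G ≤ n := Nat.le_ceil _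
  have hn2 : (n : ℝ) < L / G + 1 := Nat.ceil_lt_add_one (by positivity)
  have hnG1 : L ≤ n * G := by rwa [div_le_iff₀ hG0] at hn1
  have hG3 : G ≤ 1 := by
    have h6 : C * θ ^ 2 ≤ 1 := by
      have h7 : θ * (C * (N + M₀ + 1)) < 1 := by
        rwa [lt_div_iff₀ (by positivity)] at c6
      have h8 : C * θ ≤ θ * (C * (N + M₀ + 1)) := by
        have h9 : (1 : ℝ) ≤ N + M₀ + 1 := by linarith
        calc C * θ = θ * (C * 1) := by ring
          _ ≤ θ * (C * (N + M₀ + 1)) := by gcongr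
      calc C * θ ^ 2 = (C * θ) * θ := by ring
        _ ≤ 1 * 1 := by
          apply mul_le_mul _ _ hθ0.le (by norm_num)
          · linarith
          · linarith
        _ = 1 := by norm_num
    linarith
  have hnG2 : n * G ≤ L + 1 := by
    have h6 := mul_le_mul_of_nonneg_right hn2.le hG0.le
    have h7 : (L / G + 1) * G = L + G := by field_simp
    linarith
  -- n is large
  have hnbig : (N + M₀ + 1) * θ⁻¹ ≤ n := by
    have h6 : 1 / (C * θ ^ 2) ≤ L / G :=
      div_le_div₀ (by linarith) hL1 hG0 hG2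
    have h7 : (N + M₀ + 1) * θ⁻¹ ≤ 1 / (C * θ ^ 2) := by
      rw [le_div_iff₀ (by positivity)]
      have h8 : θ * (C * (N + M₀ + 1)) < 1 := by
        rwa [lt_div_iff₀ (by positivity)] at c6
      have h9 : (N + M₀ + 1) * θ⁻¹ * (C * θ ^ 2) =
          θ * (C * (N + M₀ + 1)) := by field_simp
      linarith
    linarith
  have hθinv : 1 ≤ θ⁻¹ := by
    rw [one_le_inv₀ hθ0]
    linarith
  have hnN : N ≤ n := by
    have h6 : (N : ℝ) ≤ (N + M₀ + 1) * θ⁻¹ := by
      calc (N : ℝ) ≤ (N + M₀ + 1) * 1 := by linarith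
        _ ≤ (N + M₀ + 1) * θ⁻¹ := mul_le_mul_of_nonneg_left hθinv (by positivity)
    have : (N : ℝ) ≤ n := by linarith
    exact_mod_cast this
  have hn72 : M₀ ≤ n := by
    have h6 : M₀ ≤ (N + M₀ + 1) * θ⁻¹ := by
      calc M₀ ≤ (N + M₀ + 1) * 1 := by linarith
        _ ≤ (N + M₀ + 1) * θ⁻¹ := mul_le_mul_of_nonneg_left hθinv (by positivity)
    linarith
  have hnθ : θ⁻¹ ≤ n := by
    have h6 : θ⁻¹ ≤ (N + M₀ + 1) * θ⁻¹ := by
      calc θ⁻¹ = 1 * θ⁻¹ := (one_mul _).symm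
        _ ≤ (N + M₀ + 1) * θ⁻¹ := mul_le_mul_of_nonneg_right (by linarith) (by positivity)
    linarith
  have hn0 : (0 : ℝ) < n := by
    have : 0 < θ⁻¹ := by positivity
    linarith
  have hn1' : (1 : ℝ) ≤ n := hθinv.trans hnθ
  refine ⟨n, hnN, ?_⟩
  -- n is at most 2 L θ^{-p}
  have hnup : (n : ℝ) ≤ 2 * L * θ ^ (-p) := by
    have h6 : L / G ≤ L * θ ^ (-p) := by
      rw [Real.rpow_neg hθ0.le, ← div_eq_mul_inv]
      exact div_le_div_of_nonneg_left (by linarith) (by positivity) hG1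
    have h7 : 1 ≤ L * θ ^ (-p) := by
      have : 1 ≤ θ ^ (-p) := Real.one_le_rpow_of_pos_of_le_one_of_nonpos hθ0 (by linarith)
        (by linarith)
      exact one_le_mul_of_one_le_of_one_le hL1 this
    linarith
  -- log n
  have hlogn : Real.log n ≤ (p + 1) * ℓ := by
    have h6 : (n : ℝ) ≤ θ ^ (-(p + 1)) := by
      refine hnup.trans ?_
      have h7 : 2 * L ≤ θ ^ (-(1 : ℝ)) := by
        have h8 : L ≤ 1 / 4 * θ ^ (-(1 / 2) : ℝ) := by
          calc L = K * ℓ := rfl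
            _ ≤ K * (1 / (4 * K) * θ ^ (-(1 / 2) : ℝ)) := mul_le_mul_of_nonneg_left c2 hK0.le
            _ = 1 / 4 * θ ^ (-(1 / 2) : ℝ) := by field_simp
        have h9 : θ ^ (-(1 / 2) : ℝ) ≤ θ ^ (-(1 : ℝ)) :=
          Real.rpow_le_rpow_of_exponent_ge hθ0 (by linarith) (by norm_num)
        have h10 : 0 < θ ^ (-(1 : ℝ)) := by positivity
        linarith
      calc 2 * L * θ ^ (-p) ≤ θ ^ (-(1 : ℝ)) * θ ^ (-p) :=
            mul_le_mul_of_nonneg_right h7 (by positivity)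
        _ = _ := by
            rw [← Real.rpow_add hθ0]
            congr 1
            ring
    have h7 := Real.log_le_log hn0 h6
    rw [Real.log_rpow hθ0] at h7
    have h8 : ℓ = -Real.log θ := by rw [hℓ, one_div, Real.log_inv]
    rw [h8]
    linarith
  -- the random variable
  set Y : Ω → ℝ := fun x => Real.exp (θ * (lw ω β h 0 0 n x - n * φ h)) with hY
  have hmeas : Measurable (lw ω β h 0 0 n) := (conc 1 le_rfl Ω P ω hω hexp β h 0 0 n).1
  have hYm : Measurable Y := by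
    simp only [hY]
    fun_prop
  have hY1 : ∀ x, Y x = Real.exp (-(θ * (n * φ h))) * Real.exp (θ * lw ω β h 0 0 n x) := by
    intro x
    simp only [hY]
    rw [← Real.exp_add]
    congr 1
    ring
  have hY2 : ∀ x, Y x ^ 2 = Real.exp (-(2 * θ * (n * φ h))) *
      Real.exp (2 * θ * lw ω β h 0 0 n x) := by
    intro x
    simp only [hY]
    rw [← Real.exp_nat_mul, ← Real.exp_add]
    congr 1
    push_cast
    ring
  have hi1 : Integrable Y P := by
    have h6 := (int_exp le_rfl hω hexp β h 0 0 n (θ := θ)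
      (by rw [abs_of_pos hθ0]; linarith)).const_mul (Real.exp (-(θ * (n * φ h))))
    exact h6.congr (Eventually.of_forall fun x => (hY1 x).symm)
  have hi2 : Integrable (fun x => Y x ^ 2) P := by
    have h6 := (int_exp le_rfl hω hexp β h 0 0 n (θ := 2 * θ)
      (by rw [abs_of_pos (by linarith)]; linarith)).const_mul (Real.exp (-(2 * θ * (n * φ h))))
    exact h6.congr (Eventually.of_forall fun x => (hY2 x).symm)
  have hE1 : Real.exp (n * G) / (2 * n + 1) ≤ ∫ x, Y x ∂P := by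
    have h6 := hR.le_em h θ hθ0.le (by linarith) n
    rw [pow_one] at h6
    have h7 : ∫ x, Y x ∂P = Real.exp (-(θ * (n * φ h))) * em P ω β h θ n := by
      unfold em
      rw [← integral_const_mul]
      exact integral_congr_ae (Eventually.of_forall hY1)
    rw [h7, div_le_iff₀ (by positivity)]
    calc Real.exp (n * G) = Real.exp (-(θ * (n * φ h))) * Real.exp (n * Λ h θ) := by
          rw [← Real.exp_add]
          congr 1
          simp only [hG, hg]
          ring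
      _ ≤ Real.exp (-(θ * (n * φ h))) * ((2 * n + 1) * em P ω β h θ n) :=
          mul_le_mul_of_nonneg_left h6 (Real.exp_pos _).le
      _ = _ := by ring
  have hE2 : ∫ x, Y x ^ 2 ∂P ≤ Real.exp (64 * (n * G)) := by
    have h6 := hR.em_le h (2 * θ) (by linarith) (by linarith) n
    have h7 : ∫ x, Y x ^ 2 ∂P = Real.exp (-(2 * θ * (n * φ h))) * em P ω β h (2 * θ) n := by
      unfold em
      rw [← integral_const_mul]
      exact integral_congr_ae (Eventually.of_forall hY2)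
    rw [h7]
    calc Real.exp (-(2 * θ * (n * φ h))) * em P ω β h (2 * θ) n ≤
        Real.exp (-(2 * θ * (n * φ h))) * Real.exp (n * Λ h (2 * θ)) :=
          mul_le_mul_of_nonneg_left h6 (Real.exp_pos _).le
      _ = Real.exp (n * g (2 * θ)) := by
          rw [← Real.exp_add]
          congr 1
          simp only [hg]
          ring
      _ ≤ _ := by
          apply Real.exp_le_exp.2
          have := mul_le_mul_of_nonneg_left hk1 hn0.le
          linarith
  have hpz := pz hYm hi1 hi2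
    (m := Real.exp (n * G) / (2 * n + 1)) (M := Real.exp (64 * (n * G))) (by positivity)
    (Real.exp_pos _) hE1 hE2
  -- the level
  have hsub : {x | Real.exp (n * G) / (2 * n + 1) / 2 ≤ Y x} ⊆
      {x | n * φ h + (n : ℝ) ^ χ ≤ lw ω β h 0 0 n x} := by
    intro x hx
    have hx' : Real.exp (n * G) / (2 * n + 1) / 2 ≤ Y x := hx
    have h6 : Real.exp 1 ≤ Real.exp (n * G) / (2 * n + 1) / 2 := by
      rw [div_div, le_div_iff₀ (by positivity)]
      have h7 : (2 * (n : ℝ) + 1) * 2 ≤ 6 * n := by linarith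
      have h8 : 6 * (n : ℝ) = Real.exp (Real.log 6 + Real.log n) := by
        rw [Real.exp_add, Real.exp_log (by norm_num), Real.exp_log hn0]
      calc Real.exp 1 * ((2 * n + 1) * 2) ≤ Real.exp 1 * (6 * n) :=
            mul_le_mul_of_nonneg_left h7 (Real.exp_pos _).le
        _ = Real.exp (1 + (Real.log 6 + Real.log n)) := by rw [h8, ← Real.exp_add]
        _ ≤ Real.exp (n * G) := by
            apply Real.exp_le_exp.2
            have h9 : L = (p + 1) * ℓ + 2 * ℓ := by rw [hL, hK]; ring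
            linarith
    have h7 : 1 ≤ θ * (lw ω β h 0 0 n x - n * φ h) := by
      have := h6.trans hx'
      simp only [hY] at this
      exact Real.exp_le_exp.1 this
    have h8 : θ⁻¹ ≤ lw ω β h 0 0 n x - n * φ h := by
      rw [inv_le_iff_one_le_mul₀ hθ0, mul_comm]
      exact h7
    have h9 : (n : ℝ) ^ χ ≤ θ⁻¹ := by
      have q1 : (n : ℝ) ^ χ ≤ (n : ℝ) ^ χ' := Real.rpow_le_rpow_of_exponent_le hn1' hχ3
      have q2 : (n : ℝ) ^ χ' ≤ (2 * L * θ ^ (-p)) ^ χ' := Real.rpow_le_rpow hn0.le hnup hχ0.le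
      have q3 : 2 * L ≤ θ ^ (-((1 - p * χ') / χ')) := by
        have q4 : 0 < θ ^ (-((1 - p * χ') / χ')) := by positivity
        calc 2 * L = 2 * K * ℓ := by rw [hL]; ring
          _ ≤ (2 * K + 1) * ℓ := mul_le_mul_of_nonneg_right (by linarith) (by linarith)
          _ ≤ (2 * K + 1) * (1 / (2 * K + 1) * θ ^ (-((1 - p * χ') / χ'))) :=
              mul_le_mul_of_nonneg_left c3 (by positivity)
          _ = _ := by field_simp
      have q5 : (2 * L * θ ^ (-p)) ^ χ' ≤ (θ ^ (-((1 - p * χ') / χ')) * θ ^ (-p)) ^ χ' := by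
        apply Real.rpow_le_rpow (by positivity) _ hχ0.le
        exact mul_le_mul_of_nonneg_right q3 (by positivity)
      have q6 : (θ ^ (-((1 - p * χ') / χ')) * θ ^ (-p)) ^ χ' = θ⁻¹ := by
        rw [← Real.rpow_add hθ0, ← Real.rpow_mul hθ0.le, ← Real.rpow_neg_one]
        congr 1
        field_simp
        ring
      rw [q6] at q5
      linarith
    show n * φ h + (n : ℝ) ^ χ ≤ lw ω β h 0 0 n x
    linarith
  have hprob := hpz.trans (measureReal_mono hsub (measure_ne_top _ _))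
  refine le_trans ?_ hprob
  -- the probability
  have h6 : (Real.exp (n * G) / (2 * n + 1)) ^ 2 / (4 * Real.exp (64 * (n * G))) =
      Real.exp (-(62 * (n * G))) / (4 * (2 * n + 1) ^ 2) := by
    have e1 : Real.exp (64 * (n * G)) = Real.exp (n * G) ^ 2 * Real.exp (62 * (n * G)) := by
      rw [← Real.exp_nat_mul, ← Real.exp_add]
      congr 1
      push_cast
      ring
    rw [e1, Real.exp_neg]
    field_simp
  rw [h6, le_div_iff₀ (by positivity)]
  have h8 : ℓ ≤ Real.log n := by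
    rw [hℓ]
    apply Real.log_le_log (by positivity)
    rw [one_div]
    exact hnθ
  exact num_final hn0 hn1' hK0 hM₀' hn72 h8 hL hnG2

end U874.RG
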