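import Pool.Agent.U874.RG.Mom

/-!
# The free energy and the Lyapunov exponents of the fractional moments
-/

set_option autoImplicit false
set_option linter.unusedSectionVars false

open MeasureTheory ProbabilityTheory Filter Topology

namespace U874.RG

open TH967.DP (Step pos energy abs_pos_le)
open Pool.Agent.N662.SE
open Pool.Agent.N50.SE.SUP (wt part_eq wt_pos part_pos part_add meas_wt meas_part)

variable {d : ℕ} {Ω : Type} [MeasurableSpace Ω]

/-- the properties of the free energy and of the Lyapunov exponents -/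
structure IsRate (P : Measure Ω) (ω : ℕ → (Fin d → ℤ) → Ω → ℝ) (β : ℝ)
    (φ : (Fin d → ℝ) → ℝ) (Λ : (Fin d → ℝ) → ℝ → ℝ) (C : ℝ) : Prop where
  cvx : ConvexOn ℝ Set.univ φ
  free_le : ∀ h n, free P ω β h n ≤ n * φ h
  le_free : ∀ h (n : ℕ), n * φ h ≤ free P ω β h n + C * Real.sqrt n * Real.log (n + 1)
  em_le : ∀ h θ, 0 ≤ θ → θ ≤ 1 / 4 → ∀ n : ℕ, em P ω β h θ n ≤ Real.exp (n * Λ h θ)
  le_em : ∀ h θ, 0 ≤ θ → θ ≤ 1 / 4 → ∀ n : ℕ,
    Real.exp (n * Λ h θ) ≤ (2 * n + 1) ^ d * em P ω β h θ n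
  low : ∀ h θ, 0 ≤ θ → θ ≤ 1 / 4 → θ * φ h ≤ Λ h θ
  up : ∀ h θ, 0 ≤ θ → θ ≤ 1 / 4 → Λ h θ ≤ θ * φ h + C * θ ^ 2
  half : ∀ h θ, 0 ≤ θ → θ ≤ 1 / 8 → 2 * Λ h θ ≤ Λ h (2 * θ)
  C_pos : 1 ≤ C

lemma tendsto_err : Tendsto (fun n : ℕ => Real.sqrt n * Real.log (n + 1) / n) atTop (𝓝 0) := by
  have h1 : Tendsto (fun n : ℕ => (n : ℝ) ^ (-(1 / 4) : ℝ)) atTop (𝓝 0) :=
    (tendsto_rpow_neg_atTop (by norm_num)).comp tendsto_natCast_atTop_atTop
  refine squeeze_zero' ?_ ?_ h1
  · filter_upwards with n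
    have : 0 ≤ Real.log ((n : ℝ) + 1) := Real.log_nonneg (by
      have : (0 : ℝ) ≤ n := Nat.cast_nonneg n
      linarith)
    positivity
  · filter_upwards [Pool.Agent.N700.SE.UPD.ev_log 1 (1 / 4) one_pos (by norm_num),
      eventually_ge_atTop 1] with n hn hn1
    have hn0 : (0 : ℝ) < n := by exact_mod_cast hn1
    rw [one_mul] at hn
    rw [div_le_iff₀ hn0, Real.sqrt_eq_rpow]
    calc (n : ℝ) ^ (1 / 2 : ℝ) * Real.log (n + 1) ≤ (n : ℝ) ^ (1 / 2 : ℝ) * (n : ℝ) ^ (1 / 4 : ℝ) :=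
          mul_le_mul_of_nonneg_left hn (Real.rpow_nonneg hn0.le _)
      _ = (n : ℝ) ^ (-(1 / 4) : ℝ) * n := by
          nth_rewrite 4 [← Real.rpow_one (n : ℝ)]
          rw [← Real.rpow_add hn0, ← Real.rpow_add hn0]
          norm_num

lemma le_of_lin {x y K : ℝ}
    (h : ∀ n : ℕ, n * x ≤ n * y + K * (Real.sqrt n * Real.log (n + 1))) : x ≤ y := by
  have h1 : Tendsto (fun n : ℕ => y + K * (Real.sqrt n * Real.log (n + 1) / n)) atTop
      (𝓝 (y + K * 0)) := (tendsto_err.const_mul K).const_add y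
  rw [mul_zero, add_zero] at h1
  refine ge_of_tendsto h1 ?_
  filter_upwards [eventually_ge_atTop 1] with n hn
  have hn0 : (0 : ℝ) < n := by exact_mod_cast hn
  have h2 := h n
  have h3 : y + K * (Real.sqrt n * Real.log (n + 1) / n) =
      (n * y + K * (Real.sqrt n * Real.log (n + 1))) / n := by
    field_simp
  rw [h3, le_div_iff₀ hn0]
  linarith

lemma log_err (n : ℕ) : Real.log (2 * n + 1) ≤ 2 * (Real.sqrt n * Real.log (n + 1)) := by
  rcases Nat.eq_zero_or_pos n with rfl | hn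
  · simp
  · have hn1 : (1 : ℝ) ≤ n := by exact_mod_cast hn
    have h1 : Real.log (2 * n + 1) ≤ 2 * Real.log (n + 1) := by
      have e : 2 * Real.log ((n : ℝ) + 1) = Real.log (((n : ℝ) + 1) ^ 2) := by
        rw [Real.log_pow]; norm_num
      rw [e]
      apply Real.log_le_log (by positivity)
      nlinarith
    have h2 : 1 ≤ Real.sqrt n := by
      rw [show (1 : ℝ) = Real.sqrt 1 by simp]
      exact Real.sqrt_le_sqrt hn1
    have h3 : 0 ≤ Real.log ((n : ℝ) + 1) := Real.log_nonneg (by linarith)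
    nlinarith

section

variable (hd : 1 ≤ d) {P : Measure Ω} [IsProbabilityMeasure P]
  {ω : ℕ → (Fin d → ℤ) → Ω → ℝ} (hω : IsEnv P ω)
  (hexp : ∀ b : ℝ, Integrable (fun x => Real.exp (b * ω 1 0 x)) P) (β : ℝ)

include hd hω hexp in
lemma em_zero (h : Fin d → ℝ) (θ : ℝ) : em P ω β h θ 0 = 1 := by
  unfold em
  have : ∀ x, lw ω β h 0 0 0 x = 0 := fun x => Pool.Agent.N427.SE.UPX.lw_z ω β h 0 0 x
  simp [this]

include hd hω hexp in
lemma exp_free_le (h : Fin d → ℝ) (n : ℕ) {θ : ℝ} (hθ : |θ| ≤ 1 / 4) :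
    Real.exp (θ * free P ω β h n) ≤ em P ω β h θ n := by
  have hi := (conc d hd Ω P ω hω hexp β h 0 0 n).2.1
  have h1 := convexOn_exp.map_integral_le (μ := P) (f := fun x => θ * lw ω β h 0 0 n x)
    Real.continuous_exp.continuousOn isClosed_univ (Eventually.of_forall fun _ => Set.mem_univ _)
    (hi.const_mul θ) (int_exp hd hω hexp β h 0 0 n hθ)
  rw [integral_const_mul] at h1
  exact h1

include hd hω hexp in
lemma em_le_free (h : Fin d → ℝ) (n : ℕ) {θ : ℝ} (hθ : |θ| ≤ 1 / 4) :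
    em P ω β h θ n ≤ Real.exp (θ * free P ω β h n + 16 * mom P ω β * θ ^ 2 * n) := by
  obtain ⟨hm, -, -, hl⟩ := conc d hd Ω P ω hω hexp β h 0 0 n
  have h1 := hl θ hθ
  have h2 : Integrable (fun x => Real.exp (θ * (lw ω β h 0 0 n x - free P ω β h n))) P := by
    refine ⟨(Real.measurable_exp.comp ((hm.sub measurable_const).const_mul θ)).aestronglyMeasurable,
      ?_⟩
    rw [hasFiniteIntegral_iff_ofReal (Eventually.of_forall fun x => (Real.exp_pos _).le)]
    exact (hl θ hθ).trans_lt ENNReal.ofReal_lt_top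
  rw [← ofReal_integral_eq_lintegral_ofReal h2 (Eventually.of_forall fun x =>
    (Real.exp_pos _).le), ENNReal.ofReal_le_ofReal_iff (Real.exp_pos _).le] at h1
  have h3 : em P ω β h θ n = Real.exp (θ * free P ω β h n) *
      ∫ x, Real.exp (θ * (lw ω β h 0 0 n x - free P ω β h n)) ∂P := by
    rw [← integral_const_mul]
    unfold em
    congr 1
    funext x
    rw [← Real.exp_add]
    congr 1
    ring
  rw [h3, Real.exp_add]
  exact mul_le_mul_of_nonneg_left h1 (Real.exp_pos _).le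

include hd hω hexp in
lemma em_sq_le (h : Fin d → ℝ) (n : ℕ) {θ : ℝ} (hθ0 : 0 ≤ θ) (hθ : θ ≤ 1 / 8) :
    em P ω β h θ n ^ 2 ≤ em P ω β h (2 * θ) n := by
  have h1 : Integrable (fun x => Real.exp (θ * lw ω β h 0 0 n x)) P :=
    int_exp hd hω hexp β h 0 0 n (by rw [abs_of_nonneg hθ0]; linarith)
  have h2 : Integrable (fun x => Real.exp (2 * θ * lw ω β h 0 0 n x)) P :=
    int_exp hd hω hexp β h 0 0 n (by rw [abs_of_nonneg (by linarith)]; linarith)
  have e : ∀ x, Real.exp (2 * θ * lw ω β h 0 0 n x) = Real.exp (θ * lw ω β h 0 0 n x) ^ 2 := by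
    intro x
    rw [← Real.exp_nat_mul]
    congr 1
    push_cast
    ring
  unfold em
  simp_rw [e] at h2 ⊢
  set f := fun x => Real.exp (θ * lw ω β h 0 0 n x) with hf
  set m := ∫ x, f x ∂P with hm
  have h3 : 0 ≤ ∫ x, (f x - m) ^ 2 ∂P := integral_nonneg fun x => sq_nonneg _
  have h4 : ∀ x, (f x - m) ^ 2 = (f x ^ 2 - 2 * m * f x) + m ^ 2 := fun x => by ring
  simp_rw [h4] at h3
  have f1 := integral_add (h2.sub (h1.const_mul (2 * m))) (integrable_const (μ := P) (m ^ 2))
  have f2 := integral_sub h2 (h1.const_mul (2 * m))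
  simp only [Pi.sub_apply] at f1 f2
  rw [f1, f2, integral_const_mul, ← hm] at h3
  simp only [integral_const, probReal_univ, one_smul] at h3
  nlinarith

include hd hω hexp in
theorem exists_rate : ∃ (φ : (Fin d → ℝ) → ℝ) (Λ : (Fin d → ℝ) → ℝ → ℝ) (C : ℝ),
    IsRate P ω β φ Λ C := by
  obtain ⟨φ, C1, hφ, hfr⟩ := rate d hd Ω P ω hω hexp β
  have hL : ∀ (h : Fin d → ℝ) (θ : ℝ), ∃ L : ℝ, 0 ≤ θ → θ ≤ 1 / 4 → ∀ n : ℕ,
      Real.log (em P ω β h θ n) ≤ n * L ∧
      n * L ≤ Real.log (em P ω β h θ n) + d * Real.log (2 * n + 1) := by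
    intro h θ
    by_cases hθ : 0 ≤ θ ∧ θ ≤ 1 / 4
    · obtain ⟨h0, h1⟩ := hθ
      have habs : |θ| ≤ 1 / 4 := by rwa [abs_of_nonneg h0]
      have hpos : ∀ n, 0 < em P ω β h θ n := fun n => em_pos hd hω hexp β h n habs
      obtain ⟨L, hL⟩ := exists_lim (fun n => Real.log (em P ω β h θ n))
        (fun n => d * Real.log (2 * n + 1))
        (by simp [em_zero hd hω hexp])
        (by
          intro m n
          rw [← Real.log_mul (hpos m).ne' (hpos n).ne']
          exact Real.log_le_log (mul_pos (hpos m) (hpos n)) (em_super hd hω hexp β h h0 h1 m n))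
        (by
          intro m n
          have h2 := Real.log_le_log (hpos _) (em_sub hd hω hexp β h h0 h1 m n)
          rw [Real.log_mul (by positivity) (mul_pos (hpos m) (hpos n)).ne',
            Real.log_mul (hpos m).ne' (hpos n).ne', Real.log_pow] at h2
          linarith)
        (by simp)
      exact ⟨L, fun _ _ n => hL n⟩
    · exact ⟨0, fun h0 h1 => absurd ⟨h0, h1⟩ hθ⟩
  choose Λ hΛ using hL
  have hmom : 0 ≤ mom P ω β := by
    unfold mom
    exact add_nonneg (integral_nonneg fun _ => (Real.exp_pos _).le)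
      (integral_nonneg fun _ => (Real.exp_pos _).le)
  have hCC : C1 ≤ max (max C1 (16 * mom P ω β)) 1 := (le_max_left _ _).trans (le_max_left _ _)
  have hCm : 16 * mom P ω β ≤ max (max C1 (16 * mom P ω β)) 1 :=
    (le_max_right _ _).trans (le_max_left _ _)
  refine ⟨φ, Λ, max (max C1 (16 * mom P ω β)) 1, hφ, fun h n => (hfr h n).1, ?_, ?_, ?_, ?_, ?_,
    ?_, le_max_right _ _⟩
  · intro h n
    refine (hfr h n).2.trans ?_
    have h2 : 0 ≤ Real.sqrt n * Real.log (n + 1) := by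
      have : 0 ≤ Real.log ((n : ℝ) + 1) := Real.log_nonneg (by
        have : (0 : ℝ) ≤ n := Nat.cast_nonneg n
        linarith)
      positivity
    have := mul_le_mul_of_nonneg_right hCC h2
    rw [mul_assoc, mul_assoc]
    linarith
  · intro h θ h0 h1 n
    have habs : |θ| ≤ 1 / 4 := by rwa [abs_of_nonneg h0]
    have hpos : 0 < em P ω β h θ n := em_pos hd hω hexp β h n habs
    rw [← Real.log_le_iff_le_exp hpos]
    exact (hΛ h θ h0 h1 n).1
  · intro h θ h0 h1 n
    have habs : |θ| ≤ 1 / 4 := by rwa [abs_of_nonneg h0]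
    have hpos : 0 < em P ω β h θ n := em_pos hd hω hexp β h n habs
    have h2 := (hΛ h θ h0 h1 n).2
    calc Real.exp (n * Λ h θ) ≤ Real.exp (Real.log (em P ω β h θ n) + d * Real.log (2 * n + 1)) :=
          Real.exp_le_exp.2 h2
      _ = _ := by
          rw [Real.exp_add, Real.exp_log hpos, Real.exp_nat_mul, Real.exp_log (by positivity)]
          ring
  · intro h θ h0 h1
    have habs : |θ| ≤ 1 / 4 := by rwa [abs_of_nonneg h0]
    apply le_of_lin (K := θ * C1)
    intro n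
    have hpos : 0 < em P ω β h θ n := em_pos hd hω hexp β h n habs
    have h2 := (hΛ h θ h0 h1 n).1
    have h3 := exp_free_le hd hω hexp β h n habs
    have h4 : θ * free P ω β h n ≤ Real.log (em P ω β h θ n) := by
      rw [← Real.log_exp (θ * free P ω β h n)]
      exact Real.log_le_log (Real.exp_pos _) h3
    have h5 := mul_le_mul_of_nonneg_left (hfr h n).2 h0
    linarith
  · intro h θ h0 h1
    have habs : |θ| ≤ 1 / 4 := by rwa [abs_of_nonneg h0]
    have hup : Λ h θ ≤ θ * φ h + 16 * mom P ω β * θ ^ 2 := by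
      apply le_of_lin (K := d * 2)
      intro n
      have hpos : 0 < em P ω β h θ n := em_pos hd hω hexp β h n habs
      have h2 := (hΛ h θ h0 h1 n).2
      have h3 := em_le_free hd hω hexp β h n habs
      have h4 : Real.log (em P ω β h θ n) ≤ θ * free P ω β h n + 16 * mom P ω β * θ ^ 2 * n := by
        rw [Real.log_le_iff_le_exp hpos]
        exact h3
      have h5 := mul_le_mul_of_nonneg_left (hfr h n).1 h0
      have h6 := mul_le_mul_of_nonneg_left (log_err n) (Nat.cast_nonneg (α := ℝ) d)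
      linarith
    have := mul_le_mul_of_nonneg_right hCm (sq_nonneg θ)
    linarith
  · intro h θ h0 h1
    apply le_of_lin (K := 2 * (d * 2))
    intro n
    have habs : |θ| ≤ 1 / 4 := by rw [abs_of_nonneg h0]; linarith
    have habs2 : |2 * θ| ≤ 1 / 4 := by rw [abs_of_nonneg (by linarith)]; linarith
    have hpos : 0 < em P ω β h θ n := em_pos hd hω hexp β h n habs
    have hpos2 : 0 < em P ω β h (2 * θ) n := em_pos hd hω hexp β h n habs2
    have h2 := (hΛ h θ h0 (by linarith) n).2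
    have h3 := (hΛ h (2 * θ) (by linarith) (by linarith) n).1
    have h4 := Real.log_le_log (pow_pos hpos 2) (em_sq_le hd hω hexp β h n h0 h1)
    rw [Real.log_pow] at h4
    push_cast at h4
    have h6 := mul_le_mul_of_nonneg_left (log_err n) (Nat.cast_nonneg (α := ℝ) d)
    linarith

end

end U874.RG
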