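import Pool.Agent.U874.RG.Key

/-!
# The upper tail: supermultiplicativity and tilting
-/

set_option autoImplicit false
set_option linter.unusedSectionVars false

open MeasureTheory ProbabilityTheory Filter Topology

namespace U874.RG

open TH967.DP (Step pos energy abs_pos_le)
open Pool.Agent.N662.SE (IsEnv part free lw mom part_nonneg part_mono)
open Pool.Agent.N50.SE.SUP (wt part_eq wt_pos part_pos part_add meas_wt meas_part)

variable {Ω : Type} [MeasurableSpace Ω]

lemma indep_sigma {P : Measure Ω} [IsProbabilityMeasure P] {ω : ℕ → (Fin 1 → ℤ) → Ω → ℝ}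
    (hω : IsEnv P ω) (m : ℕ) : Indep (pst ω m) (fut ω m) P := by
  have hle : ∀ s : ℕ × (Fin 1 → ℤ), MeasurableSpace.comap (ω s.1 s.2) inferInstance ≤
      (inferInstance : MeasurableSpace Ω) := fun s => (hω.meas s.1 s.2).comap_le
  exact indep_iSup_of_disjoint hle hω.indep
    (S := {s : ℕ × (Fin 1 → ℤ) | s.1 ≤ m}) (T := {s : ℕ × (Fin 1 → ℤ) | m < s.1})
    (by
      rw [Set.disjoint_left]
      intro s hs ht
      simp only [Set.mem_ofPred_eq] at hs ht
      omega)

lemma pst_le {P : Measure Ω} {ω : ℕ → (Fin 1 → ℤ) → Ω → ℝ} (hω : IsEnv P ω) (m : ℕ) :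
    pst ω m ≤ (inferInstance : MeasurableSpace Ω) := by
  unfold pst
  exact iSup₂_le fun s _ => (hω.meas s.1 s.2).comap_le

lemma fut_le {P : Measure Ω} {ω : ℕ → (Fin 1 → ℤ) → Ω → ℝ} (hω : IsEnv P ω) (m : ℕ) :
    fut ω m ≤ (inferInstance : MeasurableSpace Ω) := by
  unfold fut
  exact iSup₂_le fun s _ => (hω.meas s.1 s.2).comap_le

/-- the upper tail -/
noncomputable def ut (P : Measure Ω) (ω : ℕ → (Fin 1 → ℤ) → Ω → ℝ) (β : ℝ) (h : Fin 1 → ℝ)
    (n : ℕ) (a : ℝ) : ℝ := P.real {x | a ≤ lw ω β h 0 0 n x}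

variable {P : Measure Ω} [IsProbabilityMeasure P]
  {ω : ℕ → (Fin 1 → ℤ) → Ω → ℝ} (hω : IsEnv P ω)
  (hexp : ∀ b : ℝ, Integrable (fun x => Real.exp (b * ω 1 0 x)) P) {β : ℝ}
  {φ : (Fin 1 → ℝ) → ℝ} {Λ : (Fin 1 → ℝ) → ℝ → ℝ} {C : ℝ} (hR : IsRate P ω β φ Λ C)

lemma ut_anti (h : Fin 1 → ℝ) (n : ℕ) {a b : ℝ} (hab : a ≤ b) :
    ut P ω β h n b ≤ ut P ω β h n a :=
  measureReal_mono fun _ hx => hab.trans hx

include hω in
/-- supermultiplicativity -/
lemma ut_mul (h : Fin 1 → ℝ) (m n : ℕ) (a b : ℝ) :
    ut P ω β h m a * ut P ω β h n b ≤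
      (2 * m + 1) * ut P ω β h (m + n) (a + b - Real.log (2 * m + 1)) := by
  have hm0 : (0 : ℝ) < 2 * m + 1 := by positivity
  set Zy : (Fin 1 → ℤ) → Ω → ℝ := fun y x =>
    part β h (fun i y => ω i y x) m {w | pos w m = y} with hZy
  have hZm : ∀ y, Measurable[pst ω m] (Zy y) := by
    intro y
    simp only [hZy]
    unfold part
    apply Finset.measurable_sum
    intro w _
    by_cases hw : w ∈ {w : Fin m → Step 1 | pos w m = y}
    · simp only [Set.indicator_of_mem hw]
      exact meas_wt_pst ω β h w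
    · simp only [Set.indicator_of_notMem hw]
      exact measurable_const
  set A : (Fin 1 → ℤ) → Set Ω := fun y => {x | a ≤ lw ω β h 0 0 m x} ∩
    {x | part β h (fun i y => ω i y x) m Set.univ / (2 * m + 1) ≤ Zy y x} with hA
  set B : (Fin 1 → ℤ) → Set Ω := fun y => {x | b ≤ lw ω β h m y n x} with hB
  have hAm : ∀ y, MeasurableSet[pst ω m] (A y) := by
    intro y
    apply MeasurableSet.inter
    · exact meas_lw_pst ω β h le_rfl measurableSet_Ici
    · have h1 : Measurable[pst ω m] (fun x => Zy y x -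
          part β h (fun i y => ω i y x) m Set.univ / (2 * m + 1)) :=
        (hZm y).sub ((meas_part_pst ω β h le_rfl).div_const _)
      have h2 : {x | part β h (fun i y => ω i y x) m Set.univ / (2 * m + 1) ≤ Zy y x} =
          (fun x => Zy y x - part β h (fun i y => ω i y x) m Set.univ / (2 * m + 1)) ⁻¹'
            Set.Ici 0 := by
        ext x
        simp only [Set.mem_ofPred_eq, Set.mem_preimage, Set.mem_Ici, sub_nonneg]
      rw [h2]
      exact h1 measurableSet_Ici
  have hBm : ∀ y, MeasurableSet[fut ω m] (B y) := fun y =>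
    meas_lw_fut ω β h m y n measurableSet_Ici
  have hI : ∀ y, P.real (A y ∩ B y) = P.real (A y) * ut P ω β h n b := by
    intro y
    have h1 := (Indep_iff _ _ P).1 (indep_sigma hω m) (A y) (B y) (hAm y) (hBm y)
    have h2 : P (B y) = P {x | b ≤ lw ω β h 0 0 n x} :=
      (Pool.Agent.N951.SE.t 1 le_rfl Ω P ω hω β h m y n).measure_mem_eq
        (s := Set.Ici b) measurableSet_Ici
    unfold ut
    rw [measureReal_def, h1, h2, ENNReal.toReal_mul]
    rfl
  have hcov : {x | a ≤ lw ω β h 0 0 m x} ⊆ ⋃ y ∈ box 1 m, A y := by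
    intro x hx
    by_contra hcon
    simp only [Set.mem_iUnion, not_exists] at hcon
    have h1 : ∀ y ∈ box 1 m, Zy y x < part β h (fun i y => ω i y x) m Set.univ / (2 * m + 1) := by
      intro y hy
      by_contra h2
      push Not at h2
      exact hcon y hy ⟨hx, h2⟩
    have h2 : part β h (fun i y => ω i y x) m Set.univ ≤ ∑ y ∈ box 1 m, Zy y x := by
      apply Pool.Agent.N700.SE.UPD.part_le
      intro w _
      exact ⟨pos w m, mem_box fun k => abs_pos_le w m k, rfl⟩
    have hne : (box 1 m).Nonempty := ⟨0, mem_box fun k => by simp⟩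
    have h3 : ∑ y ∈ box 1 m, Zy y x <
        ∑ _y ∈ box 1 m, part β h (fun i y => ω i y x) m Set.univ / (2 * m + 1) :=
      Finset.sum_lt_sum_of_nonempty hne h1
    rw [Finset.sum_const, nsmul_eq_mul, card_box, pow_one, mul_div_cancel₀ _ hm0.ne'] at h3
    linarith
  have hsub : ∀ y, A y ∩ B y ⊆ {x | a + b - Real.log (2 * m + 1) ≤ lw ω β h 0 0 (m + n) x} := by
    rintro y x ⟨⟨hx1, hx2⟩, hx3⟩
    have hx1' : a ≤ lw ω β h 0 0 m x := hx1
    have hx2' : part β h (fun i y => ω i y x) m Set.univ / (2 * m + 1) ≤ Zy y x := hx2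
    have hx3' : b ≤ lw ω β h m y n x := hx3
    set Z := part β h (fun i y => ω i y x) m Set.univ with hZ
    set W := part β h (fun i z => ω (m + i) (y + z) x) n Set.univ with hW
    have hZ0 : 0 < Z := part_pos le_rfl _ _ _ _
    have hW0 : 0 < W := part_pos le_rfl _ _ _ _
    have e1 : Z / (2 * m + 1) * W ≤ part β h (fun i y => ω i y x) (m + n) Set.univ := by
      calc Z / (2 * m + 1) * W ≤ Zy y x * W := mul_le_mul_of_nonneg_right hx2' hW0.le
        _ ≤ _ := by
          have hZy' : Zy y x = ∑ u : Fin m → Step 1, ({w | pos w m = y} :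
              Set (Fin m → Step 1)).indicator (fun w => wt β h (fun i y => ω i y x) w) u := rfl
          rw [part_add, hZy', Finset.sum_mul]
          apply Finset.sum_le_sum
          intro u _
          by_cases hu : u ∈ ({w | pos w m = y} : Set (Fin m → Step 1))
          · rw [Set.indicator_of_mem hu]
            have hu' : pos u m = y := hu
            rw [hu']
          · rw [Set.indicator_of_notMem hu, zero_mul]
            exact mul_nonneg (wt_pos _ _ _ _).le (part_nonneg _ _ _ _)
    have e2 : lw ω β h 0 0 m x = Real.log Z := by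
      unfold lw
      simp only [zero_add]
      rfl
    have e3 : lw ω β h m y n x = Real.log W := rfl
    have e4 : lw ω β h 0 0 (m + n) x =
        Real.log (part β h (fun i y => ω i y x) (m + n) Set.univ) := by
      unfold lw
      simp only [zero_add]
    show a + b - Real.log (2 * m + 1) ≤ lw ω β h 0 0 (m + n) x
    rw [e4]
    have e5 := Real.log_le_log (by positivity) e1
    rw [Real.log_mul (by positivity) hW0.ne', Real.log_div hZ0.ne' hm0.ne'] at e5
    linarith
  calc ut P ω β h m a * ut P ω β h n b ≤ (∑ y ∈ box 1 m, P.real (A y)) * ut P ω β h n b := by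
        apply mul_le_mul_of_nonneg_right _ measureReal_nonneg
        exact (measureReal_mono hcov (measure_ne_top _ _)).trans (measureReal_biUnion_finset_le _ _)
    _ = ∑ y ∈ box 1 m, P.real (A y ∩ B y) := by
        rw [Finset.sum_mul]
        exact Finset.sum_congr rfl fun y _ => (hI y).symm
    _ ≤ ∑ _y ∈ box 1 m, ut P ω β h (m + n) (a + b - Real.log (2 * m + 1)) :=
        Finset.sum_le_sum fun y _ => measureReal_mono (hsub y) (measure_ne_top _ _)
    _ = _ := by
        rw [Finset.sum_const, nsmul_eq_mul, card_box, pow_one]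

include hω hexp hR in
/-- the lower bound for typical values -/
lemma ut_typ (h : Fin 1 → ℝ) {η : ℝ} (hη : 0 < η) :
    ∀ᶠ n : ℕ in atTop, 1 / 2 ≤ ut P ω β h n (n * (φ h - η)) := by
  have hmom : 0 ≤ mom P ω β := by
    unfold mom
    exact add_nonneg (integral_nonneg fun _ => (Real.exp_pos _).le)
      (integral_nonneg fun _ => (Real.exp_pos _).le)
  set l := min (1 / 4) (η / (64 * mom P ω β + 64)) with hl
  have hl0 : 0 < l := by positivity
  have hl4 : l ≤ 1 / 4 := min_le_left _ _
  have hl2 : 16 * mom P ω β * l ≤ η / 4 := by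
    have h1 : l ≤ η / (64 * mom P ω β + 64) := min_le_right _ _
    have h2 : l * (64 * mom P ω β + 64) ≤ η := by
      rwa [le_div_iff₀ (by positivity)] at h1
    nlinarith
  have hC : 0 ≤ C := by linarith [hR.C_pos]
  -- asymptotics
  have ht1 : ∀ᶠ n : ℕ in atTop, C * (Real.sqrt n * Real.log (n + 1) / n) < η / 2 := by
    have := tendsto_err.const_mul C
    rw [mul_zero] at this
    exact this.eventually (gt_mem_nhds (by positivity))
  have ht2 : Tendsto (fun n : ℕ => Real.exp (-(l * η / 4) * n)) atTop (𝓝 0) := by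
    apply Real.tendsto_exp_atBot.comp
    apply Tendsto.const_mul_atTop_of_neg (by
      have : 0 < l * η / 4 := by positivity
      linarith) tendsto_natCast_atTop_atTop
  filter_upwards [ht1, ht2.eventually (gt_mem_nhds (show (0 : ℝ) < 1 / 2 by norm_num)),
    eventually_ge_atTop 1] with n h1 h2 hn
  have hn0 : (0 : ℝ) < n := by exact_mod_cast hn
  obtain ⟨hmeas, -, -, hle⟩ := conc 1 le_rfl Ω P ω hω hexp β h 0 0 n
  have hfr := hR.le_free h n
  have h3 : C * Real.sqrt n * Real.log (n + 1) ≤ n * (η / 2) := by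
    have e : C * Real.sqrt n * Real.log (n + 1) =
        n * (C * (Real.sqrt n * Real.log (n + 1) / n)) := by
      field_simp
    rw [e]
    exact mul_le_mul_of_nonneg_left h1.le hn0.le
  -- the complement
  have hc : P {x | lw ω β h 0 0 n x < n * (φ h - η)} ≤ ENNReal.ofReal (1 / 2) := by
    have hsub : {x | lw ω β h 0 0 n x < n * (φ h - η)} ⊆
        {x | ENNReal.ofReal (Real.exp (l * (n * (η / 2)))) ≤
          ENNReal.ofReal (Real.exp (-l * (lw ω β h 0 0 n x - free P ω β h n)))} := by
      intro x hx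
      have hx' : lw ω β h 0 0 n x < n * (φ h - η) := hx
      show ENNReal.ofReal (Real.exp (l * (n * (η / 2)))) ≤
          ENNReal.ofReal (Real.exp (-l * (lw ω β h 0 0 n x - free P ω β h n)))
      apply ENNReal.ofReal_le_ofReal
      apply Real.exp_le_exp.2
      have h4 : n * (η / 2) ≤ free P ω β h n - lw ω β h 0 0 n x := by linarith
      have := mul_le_mul_of_nonneg_left h4 hl0.le
      linarith
    refine (measure_mono hsub).trans ?_
    have hm : Measurable fun x => ENNReal.ofReal (Real.exp (-l * (lw ω β h 0 0 n x -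
        free P ω β h n))) := by fun_prop
    refine (meas_ge_le_lintegral_div hm.aemeasurable
      (ENNReal.ofReal_pos.2 (Real.exp_pos _)).ne' ENNReal.ofReal_ne_top).trans ?_
    refine (ENNReal.div_le_div_right (hle (-l) (by rw [abs_neg, abs_of_pos hl0]; exact hl4)) _).trans
      ?_
    rw [← ENNReal.ofReal_div_of_pos (Real.exp_pos _), ← Real.exp_sub]
    apply ENNReal.ofReal_le_ofReal
    refine le_trans ?_ h2.le
    apply Real.exp_le_exp.2
    have h4 : 16 * mom P ω β * l * (l * n) ≤ η / 4 * (l * n) :=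
      mul_le_mul_of_nonneg_right hl2 (by positivity)
    nlinarith
  have hms : MeasurableSet {x | n * (φ h - η) ≤ lw ω β h 0 0 n x} :=
    measurableSet_le measurable_const hmeas
  have hcompl : {x | n * (φ h - η) ≤ lw ω β h 0 0 n x}ᶜ =
      {x | lw ω β h 0 0 n x < n * (φ h - η)} := by
    ext x
    simp
  have h5 : P.real {x | n * (φ h - η) ≤ lw ω β h 0 0 n x}ᶜ ≤ 1 / 2 := by
    rw [hcompl, measureReal_def]
    exact ENNReal.toReal_le_of_le_ofReal (by norm_num) hc
  rw [measureReal_compl hms, probReal_univ] at h5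
  unfold ut
  linarith

include hω hexp hR in
/-- tilting: at some level the upper tail is not too small -/
lemma ut_tilt (h : Fin 1 → ℝ) {θ ε : ℝ} (h0 : 0 < θ) (h1 : θ ≤ 1 / 8) (hε : 0 < ε)
    (hg : θ * φ h + 4 * θ * ε ≤ Λ h θ) : ∀ᶠ n : ℕ in atTop,
      ∃ t : ℝ, 2 * ε ≤ t ∧ Real.exp (-(n * θ * t)) ≤ ut P ω β h n (n * (φ h + t)) := by
  have hC : 1 ≤ C := hR.C_pos
  -- asymptotics
  have hasy : ∀ᶠ n : ℕ in atTop, (2 * (n : ℝ) + 1) * (Real.exp (2 * θ * ε * n) +
      Real.exp 1 * (4 * C * θ ^ 2 * n + 1) + 1) < Real.exp (4 * θ * ε * n) := by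
    have hc : 0 < 2 * θ * ε := by positivity
    have t1 : Tendsto (fun n : ℕ => (2 * (n : ℝ) + 1) * (1 + Real.exp 1 * (4 * C * θ ^ 2 * n + 1) + 1) *
        Real.exp (-(2 * θ * ε * n))) atTop (𝓝 0) := by
      have q : ∀ k : ℕ, Tendsto (fun n : ℕ => (n : ℝ) ^ k * Real.exp (-(2 * θ * ε * n))) atTop
          (𝓝 0) := by
        intro k
        have h2 := (Real.tendsto_pow_mul_exp_neg_atTop_nhds_zero k).comp
          (tendsto_natCast_atTop_atTop.const_mul_atTop hc)
        have h3 := h2.const_mul ((1 / (2 * θ * ε)) ^ k)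
        rw [mul_zero] at h3
        refine h3.congr fun n => ?_
        simp only [Function.comp_apply]
        rw [mul_pow (2 * θ * ε), one_div, inv_pow]
        field_simp
      have q2 := (((q 2).const_mul (8 * C * θ ^ 2 * Real.exp 1)).add
        ((q 1).const_mul (4 + 2 * Real.exp 1 + 4 * C * θ ^ 2 * Real.exp 1))).add
        ((q 0).const_mul (2 + Real.exp 1))
      simp only [mul_zero, add_zero] at q2
      refine q2.congr fun n => ?_
      ring
    filter_upwards [t1.eventually (gt_mem_nhds one_pos)] with n hn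
    have e1 : Real.exp (4 * θ * ε * n) = Real.exp (2 * θ * ε * n) * Real.exp (2 * θ * ε * n) := by
      rw [← Real.exp_add]; congr 1; ring
    have e2 : 1 ≤ Real.exp (2 * θ * ε * n) := Real.one_le_exp (by positivity)
    have e3 : 0 ≤ Real.exp 1 * (4 * C * θ ^ 2 * n + 1) := by positivity
    have e4 : (2 * (n : ℝ) + 1) * (1 + Real.exp 1 * (4 * C * θ ^ 2 * n + 1) + 1) <
        Real.exp (2 * θ * ε * n) := by
      have h5 := mul_lt_mul_of_pos_right hn (Real.exp_pos (2 * θ * ε * n))
      rw [one_mul, mul_assoc, ← Real.exp_add, neg_add_cancel, Real.exp_zero, mul_one] at h5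
      exact h5
    rw [e1]
    calc (2 * (n : ℝ) + 1) * (Real.exp (2 * θ * ε * n) +
        Real.exp 1 * (4 * C * θ ^ 2 * n + 1) + 1) ≤ (2 * (n : ℝ) + 1) *
        (Real.exp (2 * θ * ε * n) * (1 + Real.exp 1 * (4 * C * θ ^ 2 * n + 1) + 1)) := by
          apply mul_le_mul_of_nonneg_left _ (by positivity)
          nlinarith
      _ = Real.exp (2 * θ * ε * n) * ((2 * (n : ℝ) + 1) *
          (1 + Real.exp 1 * (4 * C * θ ^ 2 * n + 1) + 1)) := by ring
      _ < _ := mul_lt_mul_of_pos_left e4 (Real.exp_pos _)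
  filter_upwards [hasy, eventually_ge_atTop 1] with n hn hn1
  have hn0 : (0 : ℝ) < n := by exact_mod_cast hn1
  by_contra hcon
  push Not at hcon
  set a := 2 * θ * ε * n with ha
  have ha0 : 0 < a := by positivity
  set X : Ω → ℝ := fun x => θ * (lw ω β h 0 0 n x - n * φ h) with hX
  have hmeas : Measurable (lw ω β h 0 0 n) := (conc 1 le_rfl Ω P ω hω hexp β h 0 0 n).1
  have hXm : Measurable X := (hmeas.sub_const _).const_mul θ
  have hup : ∀ s : ℝ, a ≤ s → P.real {x | s ≤ X x} ≤ Real.exp (-s) := by
    intro s hs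
    have h2 := hcon (s / (θ * n)) (by
      rw [le_div_iff₀ (by positivity)]
      calc 2 * ε * (θ * n) = a := by rw [ha]; ring
        _ ≤ s := hs)
    have e1 : (n : ℝ) * θ * (s / (θ * n)) = s := by field_simp
    rw [e1] at h2
    have e2 : {x | s ≤ X x} = {x | n * (φ h + s / (θ * n)) ≤ lw ω β h 0 0 n x} := by
      ext x
      simp only [Set.mem_ofPred_eq, hX]
      have e3 : (n : ℝ) * (φ h + s / (θ * n)) = n * φ h + s / θ := by field_simp
      rw [e3, ← sub_nonneg, ← sub_nonneg (b := n * φ h + s / θ)]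
      have e4 : θ * (lw ω β h 0 0 n x - n * φ h) - s =
          θ * (lw ω β h 0 0 n x - (n * φ h + s / θ)) := by
        field_simp
        ring
      rw [e4]
      constructor
      · intro h5
        exact nonneg_of_mul_nonneg_right h5 h0
      · intro h5
        exact mul_nonneg h0.le h5
    rw [e2]
    exact h2.le
  set K := ⌈4 * C * θ ^ 2 * n⌉₊ with hK
  have hK1 : 4 * C * θ ^ 2 * n ≤ K := Nat.le_ceil _
  have hK2 : (K : ℝ) ≤ 4 * C * θ ^ 2 * n + 1 := (Nat.ceil_lt_add_one (by positivity)).le
  -- the moments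
  have hi1 : Integrable (fun x => Real.exp (X x)) P := by
    have h2 := (int_exp le_rfl hω hexp β h 0 0 n (θ := θ)
      (by rw [abs_of_pos h0]; linarith)).const_mul (Real.exp (-(θ * (n * φ h))))
    refine h2.congr (Eventually.of_forall fun x => ?_)
    show Real.exp (-(θ * (n * φ h))) * Real.exp (θ * lw ω β h 0 0 n x) = Real.exp (X x)
    rw [← Real.exp_add]
    congr 1
    simp only [hX]
    ring
  have hi2 : Integrable (fun x => Real.exp (2 * X x)) P := by
    have h2 := (int_exp le_rfl hω hexp β h 0 0 n (θ := 2 * θ)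
      (by rw [abs_of_pos (by linarith)]; linarith)).const_mul (Real.exp (-(2 * θ * (n * φ h))))
    refine h2.congr (Eventually.of_forall fun x => ?_)
    show Real.exp (-(2 * θ * (n * φ h))) * Real.exp (2 * θ * lw ω β h 0 0 n x) = Real.exp (2 * X x)
    rw [← Real.exp_add]
    congr 1
    simp only [hX]
    ring
  have hE1 : Real.exp (4 * θ * ε * n) / (2 * n + 1) ≤ ∫ x, Real.exp (X x) ∂P := by
    have h2 := hR.le_em h θ h0.le (by linarith) n
    rw [pow_one] at h2
    have h3 : ∫ x, Real.exp (X x) ∂P = Real.exp (-(θ * (n * φ h))) * em P ω β h θ n := by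
      unfold em
      rw [← integral_const_mul]
      congr 1
      funext x
      rw [← Real.exp_add]
      congr 1
      simp only [hX]
      ring
    rw [h3, div_le_iff₀ (by positivity)]
    calc Real.exp (4 * θ * ε * n) ≤ Real.exp (-(θ * (n * φ h))) * Real.exp (n * Λ h θ) := by
          rw [← Real.exp_add]
          apply Real.exp_le_exp.2
          have := mul_le_mul_of_nonneg_left hg hn0.le
          nlinarith
      _ ≤ Real.exp (-(θ * (n * φ h))) * ((2 * n + 1) * em P ω β h θ n) :=
          mul_le_mul_of_nonneg_left h2 (Real.exp_pos _).le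
      _ = _ := by ring
  have hE2 : ∫ x, Real.exp (2 * X x) ∂P ≤ Real.exp (4 * C * θ ^ 2 * n) := by
    have h2 := hR.em_le h (2 * θ) (by linarith) (by linarith) n
    have h3 : ∫ x, Real.exp (2 * X x) ∂P = Real.exp (-(2 * θ * (n * φ h))) *
        em P ω β h (2 * θ) n := by
      unfold em
      rw [← integral_const_mul]
      congr 1
      funext x
      rw [← Real.exp_add]
      congr 1
      simp only [hX]
      ring
    rw [h3]
    have h4 := hR.up h (2 * θ) (by linarith) (by linarith)
    calc Real.exp (-(2 * θ * (n * φ h))) * em P ω β h (2 * θ) n ≤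
        Real.exp (-(2 * θ * (n * φ h))) * Real.exp (n * Λ h (2 * θ)) :=
          mul_le_mul_of_nonneg_left h2 (Real.exp_pos _).le
      _ = Real.exp (-(2 * θ * (n * φ h)) + n * Λ h (2 * θ)) := (Real.exp_add _ _).symm
      _ ≤ _ := by
          apply Real.exp_le_exp.2
          have := mul_le_mul_of_nonneg_left h4 hn0.le
          nlinarith
  -- the pointwise bound
  have hpt : ∀ x, Real.exp (X x) ≤ Real.exp a + (∑ k ∈ Finset.range K,
      Real.exp (a + k + 1) * ({x | a + k ≤ X x} : Set Ω).indicator (fun _ => (1 : ℝ)) x) +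
      Real.exp (-(a + K)) * Real.exp (2 * X x) := by
    intro x
    have hs0 : 0 ≤ ∑ k ∈ Finset.range K, Real.exp (a + k + 1) *
        ({x | a + k ≤ X x} : Set Ω).indicator (fun _ => (1 : ℝ)) x := by
      apply Finset.sum_nonneg
      intro k _
      exact mul_nonneg (Real.exp_pos _).le (Set.indicator_nonneg (fun _ _ => zero_le_one) _)
    have hs1 : 0 < Real.exp (-(a + K)) * Real.exp (2 * X x) := by positivity
    rcases lt_or_ge (X x) a with h2 | h2
    · have := Real.exp_le_exp.2 h2.le
      linarith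
    · rcases lt_or_ge (X x) (a + K) with h3 | h3
      · set k := ⌊X x - a⌋₊ with hk
        have hk1 : (k : ℝ) ≤ X x - a := Nat.floor_le (by linarith)
        have hk2 : X x - a < k + 1 := Nat.lt_floor_add_one _
        have hkK : k < K := by
          have : (k : ℝ) < K := by linarith
          exact_mod_cast this
        have h4 := Finset.single_le_sum (f := fun k : ℕ => Real.exp (a + k + 1) *
          ({x | a + k ≤ X x} : Set Ω).indicator (fun _ => (1 : ℝ)) x)
          (fun k _ => mul_nonneg (Real.exp_pos _).le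
            (Set.indicator_nonneg (fun _ _ => zero_le_one) _)) (Finset.mem_range.2 hkK)
        have h5 : x ∈ ({x | a + k ≤ X x} : Set Ω) := by
          show a + k ≤ X x
          linarith
        rw [Set.indicator_of_mem h5, mul_one] at h4
        have h6 : Real.exp (X x) ≤ Real.exp (a + k + 1) := Real.exp_le_exp.2 (by linarith)
        have h7 := Real.exp_pos a
        linarith
      · have h4 : Real.exp (X x) ≤ Real.exp (-(a + K)) * Real.exp (2 * X x) := by
          rw [← Real.exp_add]
          apply Real.exp_le_exp.2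
          linarith
        have h7 := Real.exp_pos a
        linarith
  have hms : ∀ k : ℕ, MeasurableSet {x | a + k ≤ X x} := fun k =>
    measurableSet_le measurable_const hXm
  have hik : ∀ k ∈ Finset.range K, Integrable (fun x => Real.exp (a + k + 1) *
      ({x | a + k ≤ X x} : Set Ω).indicator (fun _ => (1 : ℝ)) x) P := fun k _ =>
    ((integrable_const (1 : ℝ)).indicator (hms k)).const_mul _
  have hfin : ∫ x, Real.exp (X x) ∂P ≤ Real.exp a + K * Real.exp 1 + 1 := by
    have hI1 : Integrable (fun x => ∑ k ∈ Finset.range K,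
      Real.exp (a + k + 1) * ({x | a + k ≤ X x} : Set Ω).indicator (fun _ => (1 : ℝ)) x) P :=
      integrable_finsetSum _ hik
    have hI2 : Integrable (fun x => Real.exp (-(a + K)) * Real.exp (2 * X x)) P := hi2.const_mul _
    have hI3 : Integrable (fun x => Real.exp a + ∑ k ∈ Finset.range K,
      Real.exp (a + k + 1) * ({x | a + k ≤ X x} : Set Ω).indicator (fun _ => (1 : ℝ)) x) P :=
      (integrable_const _).add hI1
    have e1 : ∫ x, (Real.exp a + (∑ k ∈ Finset.range K,
      Real.exp (a + k + 1) * ({x | a + k ≤ X x} : Set Ω).indicator (fun _ => (1 : ℝ)) x) +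
      Real.exp (-(a + K)) * Real.exp (2 * X x)) ∂P = Real.exp a + (∑ k ∈ Finset.range K,
      Real.exp (a + k + 1) * P.real {x | a + k ≤ X x}) +
      Real.exp (-(a + K)) * ∫ x, Real.exp (2 * X x) ∂P := by
      rw [integral_add hI3 hI2, integral_add (integrable_const _) hI1, integral_const_mul,
        integral_finsetSum _ hik]
      simp only [integral_const, probReal_univ, one_smul]
      congr 2
      apply Finset.sum_congr rfl
      intro k _
      rw [integral_const_mul, integral_indicator (hms k)]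
      simp
    have e2 := integral_mono hi1 (hI3.add hI2) hpt
    have e3 : ∫ x, ((fun x => Real.exp a + ∑ k ∈ Finset.range K,
      Real.exp (a + k + 1) * ({x | a + k ≤ X x} : Set Ω).indicator (fun _ => (1 : ℝ)) x) +
      fun x => Real.exp (-(a + K)) * Real.exp (2 * X x)) x ∂P =
      ∫ x, (Real.exp a + (∑ k ∈ Finset.range K,
      Real.exp (a + k + 1) * ({x | a + k ≤ X x} : Set Ω).indicator (fun _ => (1 : ℝ)) x) +
      Real.exp (-(a + K)) * Real.exp (2 * X x)) ∂P := rfl
    rw [e3, e1] at e2
    refine e2.trans ?_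
    have e4 : ∑ k ∈ Finset.range K, Real.exp (a + k + 1) * P.real {x | a + k ≤ X x} ≤
        K * Real.exp 1 := by
      calc ∑ k ∈ Finset.range K, Real.exp (a + k + 1) * P.real {x | a + k ≤ X x} ≤
          ∑ _k ∈ Finset.range K, Real.exp 1 := by
            apply Finset.sum_le_sum
            intro k _
            have h2 := hup (a + k) (by
              have : (0 : ℝ) ≤ k := Nat.cast_nonneg k
              linarith)
            calc Real.exp (a + k + 1) * P.real {x | a + k ≤ X x} ≤
                Real.exp (a + k + 1) * Real.exp (-(a + k)) :=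
                  mul_le_mul_of_nonneg_left h2 (Real.exp_pos _).le
              _ = Real.exp 1 := by
                  rw [← Real.exp_add]
                  congr 1
                  ring
        _ = K * Real.exp 1 := by rw [Finset.sum_const, Finset.card_range, nsmul_eq_mul]
    have e5 : Real.exp (-(a + K)) * ∫ x, Real.exp (2 * X x) ∂P ≤ 1 := by
      calc _ ≤ Real.exp (-(a + K)) * Real.exp (4 * C * θ ^ 2 * n) :=
            mul_le_mul_of_nonneg_left hE2 (Real.exp_pos _).le
        _ = Real.exp (-(a + K) + 4 * C * θ ^ 2 * n) := (Real.exp_add _ _).symm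
        _ ≤ 1 := Real.exp_le_one_iff.2 (by linarith)
    linarith
  have h2 := hE1.trans hfin
  rw [div_le_iff₀ (by positivity)] at h2
  have h3 : (Real.exp a + K * Real.exp 1 + 1) * (2 * n + 1) ≤ (2 * (n : ℝ) + 1) * (Real.exp a +
      Real.exp 1 * (4 * C * θ ^ 2 * n + 1) + 1) := by
    have h4 := mul_le_mul_of_nonneg_right hK2 (Real.exp_pos 1).le
    have h5 : (0 : ℝ) < 2 * n + 1 := by positivity
    nlinarith
  linarith

end U874.RG
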