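import Pool.Agent.U874.RG.One

/-!
# Strong log-convexity of the moments of the partition function (finite product space)
-/

set_option autoImplicit false
set_option linter.unusedSectionVars false

open MeasureTheory ProbabilityTheory

namespace U874.RG

open TH967.DP (score measurable_score integrable_bdd abs_score_le integral_score
  integral_score_sq mp_update log_inc_down integral_ind integrable_ind)
open Pool.Agent.N692.SD.AC (ZZ occ partA partB ZZ_pos measurable_ZZ measurable_occ occ_nonneg
  occ_le_one sum_occ partA_nonneg partB_nonneg ZZ_update occ_update)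

variable {ι W : Type} [Fintype ι] [DecidableEq ι] [Fintype W]

/-- resampling one coordinate -/
lemma resample (μ : Measure ℝ) [IsProbabilityMeasure μ] (s : ι) {G : (ι → ℝ) → ℝ}
    (hG : Integrable G (Measure.pi fun _ : ι => μ)) :
    Integrable (fun p : (ι → ℝ) × ℝ => G (Function.update p.1 s p.2))
      ((Measure.pi fun _ : ι => μ).prod μ) ∧
    ∫ η, G η ∂(Measure.pi fun _ : ι => μ) =
      ∫ η, ∫ u, G (Function.update η s u) ∂μ ∂(Measure.pi fun _ : ι => μ) := by
  have h1 := mp_update (ι := ι) μ s
  have h2 : Integrable (fun p : (ι → ℝ) × ℝ => G (Function.update p.1 s p.2))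
      ((Measure.pi fun _ : ι => μ).prod μ) := h1.integrable_comp_of_integrable hG
  refine ⟨h2, ?_⟩
  have h3 := integral_prod _ h2
  have h4 := integral_map (μ := (Measure.pi fun _ : ι => μ).prod μ)
    (φ := fun p : (ι → ℝ) × ℝ => Function.update p.1 s p.2) h1.measurable.aemeasurable
    (f := G) (by rw [h1.map_eq]; exact hG.aestronglyMeasurable)
  rw [h1.map_eq] at h4
  rw [h4, h3]

/-- the density of the tilted law -/
noncomputable def dens (μ : Measure ℝ) (a b l : ℝ) (T : Finset ι) (η : ι → ℝ) : ℝ :=
  ∏ t ∈ T, (1 + l * score μ a b (η t))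

lemma measurable_dens (μ : Measure ℝ) (a b l : ℝ) (T : Finset ι) :
    Measurable (dens μ a b l T) := by
  unfold dens
  apply Finset.measurable_prod
  intro t _
  exact (((measurable_score μ a b).comp (measurable_pi_apply t)).const_mul l).const_add 1

lemma abs_dens_le (μ : Measure ℝ) (a b l : ℝ) (T : Finset ι) (η : ι → ℝ) {M : ℝ} (hM : |l| ≤ M) :
    |dens μ a b l T η| ≤ (1 + M * (1 / μ.real (Set.Ici b) + 1 / μ.real (Set.Iic a))) ^ T.card := by
  unfold dens
  rw [Finset.abs_prod, ← Finset.prod_const]
  apply Finset.prod_le_prod (fun _ _ => abs_nonneg _)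
  intro t _
  calc |1 + l * score μ a b (η t)| ≤ |(1 : ℝ)| + |l * score μ a b (η t)| := abs_add_le _ _
    _ = 1 + |l| * |score μ a b (η t)| := by rw [abs_one, abs_mul]
    _ ≤ _ := by
      have h1 := abs_score_le μ a b (η t)
      have h2 := mul_le_mul hM h1 (abs_nonneg _) ((abs_nonneg _).trans hM)
      linarith

lemma dens_nonneg (μ : Measure ℝ) [IsProbabilityMeasure μ] {a b l : ℝ}
    (hm : 0 < μ.real (Set.Iic a)) (hl0 : 0 ≤ l) (hl : l ≤ μ.real (Set.Iic a)) (T : Finset ι)
    (η : ι → ℝ) : 0 ≤ dens μ a b l T η :=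
  Finset.prod_nonneg fun _ _ => weight_nonneg μ hm hl0 hl _

lemma dens_update_erase (μ : Measure ℝ) (a b l : ℝ) (T : Finset ι) (s : ι) (η : ι → ℝ) (u : ℝ) :
    dens μ a b l (T.erase s) (Function.update η s u) = dens μ a b l (T.erase s) η := by
  unfold dens
  apply Finset.prod_congr rfl
  intro t ht
  rw [Function.update_of_ne (Finset.ne_of_mem_erase ht)]

lemma dens_erase (μ : Measure ℝ) (a b l : ℝ) {T : Finset ι} {s : ι} (hs : s ∈ T) (η : ι → ℝ) :
    dens μ a b l T η = (1 + l * score μ a b (η s)) * dens μ a b l (T.erase s) η := by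
  unfold dens
  exact (Finset.mul_prod_erase T (fun t => 1 + l * score μ a b (η t)) hs).symm

lemma rpow_le_one_add {x α : ℝ} (hx : 0 ≤ x) (h0 : 0 ≤ α) (h1 : α ≤ 1) : x ^ α ≤ 1 + x := by
  rcases le_total x 1 with h | h
  · have := Real.rpow_le_one hx h h0
    linarith
  · have := Real.rpow_le_rpow_of_exponent_le h h1
    rw [Real.rpow_one] at this
    linarith

section site

variable [Nonempty W] (μ : Measure ℝ) [IsProbabilityMeasure μ] {a b : ℝ} (hab : a < b)
  (hp : 0 < μ.real (Set.Ici b)) (hm : 0 < μ.real (Set.Iic a)) {β : ℝ} (hβ : 0 < β)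
  (hμ : Integrable (fun u => Real.exp (β * u)) μ)
  {c : W → ℝ} (hc : ∀ w, 0 < c w) (vis : W → Finset ι) (T : Finset ι)
  {α : ℝ} (hα : 0 ≤ α) (hα1 : α ≤ 1)
  (hZ : Integrable (fun η => ZZ β c vis η ^ α) (Measure.pi fun _ : ι => μ))
  {l : ℝ} (hl0 : 0 ≤ l) (hl : l ≤ μ.real (Set.Iic a))

include hab hp hm hβ hμ hc hα hα1 hZ hl0 hl in
/-- the integrated one-site inequality -/
lemma site_pow {s : ι} (hs : s ∈ T) :
    ∫ η, α * (1 - Real.exp (-(β * (b - a)))) / 2 * (occ β c vis s η * dens μ a b l T η *
        ZZ β c vis η ^ α) ∂(Measure.pi fun _ : ι => μ) ≤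
      ∫ η, (score μ a b (η s) * dens μ a b l (T.erase s) η) * ZZ β c vis η ^ α
        ∂(Measure.pi fun _ : ι => μ) := by
  set q := 1 - Real.exp (-(β * (b - a))) with hq
  have hq1 : q ≤ 1 := by rw [hq]; linarith [Real.exp_pos (-(β * (b - a)))]
  have hq0 : 0 ≤ q := by
    rw [hq]
    have : Real.exp (-(β * (b - a))) ≤ 1 := Real.exp_le_one_iff.2 (by nlinarith)
    linarith
  set K := 1 / μ.real (Set.Ici b) + 1 / μ.real (Set.Iic a) with hK
  have hmd : ∀ T' : Finset ι, Measurable (dens μ a b l T') := fun T' => measurable_dens μ a b l T'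
  have hms : Measurable (fun η : ι → ℝ => score μ a b (η s)) :=
    (measurable_score μ a b).comp (measurable_pi_apply s)
  have hG1 : Integrable (fun η => α * q / 2 * (occ β c vis s η * dens μ a b l T η *
        ZZ β c vis η ^ α)) (Measure.pi fun _ : ι => μ) := by
    apply Integrable.const_mul
    refine hZ.bdd_mul (c := 1 * (1 + |l| * K) ^ T.card)
      ((measurable_occ β c vis s).mul (hmd T)).aestronglyMeasurable ?_
    refine Filter.Eventually.of_forall fun η => ?_
    rw [norm_mul, Real.norm_of_nonneg (occ_nonneg β hc vis s η)]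
    exact mul_le_mul (occ_le_one β hc vis s η) (abs_dens_le μ a b l T η le_rfl) (abs_nonneg _)
      zero_le_one
  have hG2 : Integrable (fun η : ι → ℝ => (score μ a b (η s) * dens μ a b l (T.erase s) η) *
      ZZ β c vis η ^ α) (Measure.pi fun _ : ι => μ) := by
    refine hZ.bdd_mul (c := K * (1 + |l| * K) ^ (T.erase s).card)
      (hms.mul (hmd _)).aestronglyMeasurable ?_
    refine Filter.Eventually.of_forall fun η => ?_
    rw [norm_mul]
    exact mul_le_mul (abs_score_le μ a b _) (abs_dens_le μ a b l _ η le_rfl) (abs_nonneg _)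
      (by positivity)
  obtain ⟨i1, e1⟩ := resample μ s hG1
  obtain ⟨i2, e2⟩ := resample μ s hG2
  rw [e1, e2]
  apply integral_mono i1.integral_prod_left i2.integral_prod_left
  intro η
  show ∫ u, α * q / 2 * (occ β c vis s (Function.update η s u) *
      dens μ a b l T (Function.update η s u) * ZZ β c vis (Function.update η s u) ^ α) ∂μ ≤
    ∫ u, (score μ a b (Function.update η s u s) *
      dens μ a b l (T.erase s) (Function.update η s u)) *
      ZZ β c vis (Function.update η s u) ^ α ∂μ
  set A := partA β c vis s η with hA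
  set B := partB β c vis s η with hB
  have hA0 : 0 ≤ A := partA_nonneg β hc vis s η
  have hB0 : 0 ≤ B := partB_nonneg β hc vis s η
  have hzp : ∀ u : ℝ, 0 < A + B * Real.exp (β * u) := by
    intro u
    rw [hA, hB, ← ZZ_update]
    exact ZZ_pos β hc vis _
  set De := dens μ a b l (T.erase s) η with hDe
  have hDe0 : 0 ≤ De := dens_nonneg μ hm hl0 hl _ _
  set Fu : ℝ → ℝ := fun u => (A + B * Real.exp (β * u)) ^ α with hFu
  set hu : ℝ → ℝ := fun u => α * q / 2 * (B * Real.exp (β * u) / (A + B * Real.exp (β * u)) *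
    (A + B * Real.exp (β * u)) ^ α) with hhu
  have r1 : ∀ u, α * q / 2 * (occ β c vis s (Function.update η s u) *
      dens μ a b l T (Function.update η s u) * ZZ β c vis (Function.update η s u) ^ α) =
      De * (hu u * (1 + l * score μ a b u)) := by
    intro u
    rw [dens_erase μ a b l hs, dens_update_erase, Function.update_self, occ_update, ZZ_update]
    simp only [hhu]
    ring
  have r2 : ∀ u, (score μ a b (Function.update η s u s) *
      dens μ a b l (T.erase s) (Function.update η s u)) *
      ZZ β c vis (Function.update η s u) ^ α = De * (Fu u * score μ a b u) := by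
    intro u
    rw [dens_update_erase, Function.update_self, ZZ_update]
    simp only [hFu]
    ring
  simp_rw [r1, r2]
  rw [integral_const_mul, integral_const_mul]
  apply mul_le_mul_of_nonneg_left _ hDe0
  have mF : Measurable Fu := by
    simp only [hFu]
    exact (((Real.measurable_exp.comp (measurable_id.const_mul β)).const_mul B).const_add A).pow_const α
  have mh : Measurable hu := by
    simp only [hhu]
    have m1 : Measurable (fun u : ℝ => B * Real.exp (β * u)) :=
      (Real.measurable_exp.comp (measurable_id.const_mul β)).const_mul B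
    exact ((m1.div (m1.const_add A)).mul ((m1.const_add A).pow_const α)).const_mul _
  have iF : Integrable Fu μ := by
    refine Integrable.mono' ((integrable_const (1 + A)).add (hμ.const_mul B))
      mF.aestronglyMeasurable ?_
    refine Filter.Eventually.of_forall fun u => ?_
    simp only [hFu, Pi.add_apply]
    rw [Real.norm_of_nonneg (Real.rpow_nonneg (hzp u).le _)]
    have := rpow_le_one_add (hzp u).le hα hα1
    linarith
  have ih : Integrable hu μ := by
    refine Integrable.mono' iF mh.aestronglyMeasurable ?_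
    refine Filter.Eventually.of_forall fun u => ?_
    have hz := hzp u
    have h1 : 0 ≤ B * Real.exp (β * u) := by positivity
    have h2 : B * Real.exp (β * u) / (A + B * Real.exp (β * u)) ≤ 1 := by
      rw [div_le_one hz]; linarith
    have h3 : 0 ≤ (A + B * Real.exp (β * u)) ^ α := Real.rpow_nonneg hz.le _
    simp only [hhu, hFu]
    rw [Real.norm_of_nonneg (by positivity)]
    calc α * q / 2 * (B * Real.exp (β * u) / (A + B * Real.exp (β * u)) *
          (A + B * Real.exp (β * u)) ^ α) ≤ 1 * (1 * (A + B * Real.exp (β * u)) ^ α) := by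
          apply mul_le_mul _ _ (by positivity) (by norm_num)
          · have : α * q ≤ 1 * 1 := mul_le_mul hα1 hq1 hq0 (by norm_num)
            linarith
          · exact mul_le_mul_of_nonneg_right h2 h3
      _ = _ := by ring
  apply one_site_w μ hab hp hm iF ih hl0 hl
  intro v w u hv hbu hvw hwu
  simp only [hhu, hFu]
  apply pow_key hA0 hB0 (Real.exp_pos _) _ _ (hzp v) hq0 hq1 _ hα hα1
  · exact Real.exp_le_exp.2 (by nlinarith)
  · exact Real.exp_le_exp.2 (by nlinarith)
  · rw [hq, ← Real.exp_sub]
    have : Real.exp (β * v - β * u) ≤ Real.exp (-(β * (b - a))) :=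
      Real.exp_le_exp.2 (by nlinarith)
    linarith

end site

end U874.RG
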